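import Pool.Agent.MP83fe1a.Limit

set_option autoImplicit false

open Set Filter Topology MeasureTheory

namespace Pool.Agent.MP83fe1a

/-- terms of the Cantor-type function -/
noncomputable def ct (k : ℕ) (x : ℝ) : ℝ := (⌊2 ^ (k + 1) * x⌋₊ : ℝ) * (1 / 8) ^ (k + 1)

theorem ct_nonneg (k : ℕ) (x : ℝ) : 0 ≤ ct k x := by unfold ct; positivity

theorem ct_le (k : ℕ) {x : ℝ} (hx : 0 ≤ x) : ct k x ≤ x * (1 / 4) ^ (k + 1) := by
  unfold ct
  have h1 : (⌊2 ^ (k + 1) * x⌋₊ : ℝ) ≤ 2 ^ (k + 1) * x := Nat.floor_le (by positivity)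
  have h2 : (2 : ℝ) ^ (k + 1) * (1 / 8) ^ (k + 1) = (1 / 4) ^ (k + 1) := by
    rw [← mul_pow]; norm_num
  calc (⌊2 ^ (k + 1) * x⌋₊ : ℝ) * (1 / 8) ^ (k + 1) ≤ 2 ^ (k + 1) * x * (1 / 8) ^ (k + 1) := by
        gcongr
    _ = x * (2 ^ (k + 1) * (1 / 8) ^ (k + 1)) := by ring
    _ = _ := by rw [h2]

theorem ct_of_neg (k : ℕ) {x : ℝ} (hx : x ≤ 0) : ct k x = 0 := by
  unfold ct
  rw [Nat.floor_of_nonpos (mul_nonpos_of_nonneg_of_nonpos (by positivity) hx)]
  simp

theorem hasSum_quarter : HasSum (fun k : ℕ => (1 / 4 : ℝ) ^ (k + 1)) (1 / 3) := by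
  have h := (hasSum_geometric_of_lt_one (r := (1 / 4 : ℝ)) (by norm_num) (by norm_num)).mul_left
    (1 / 4 : ℝ)
  have e : (1 / 4 : ℝ) * (1 - 1 / 4)⁻¹ = 1 / 3 := by norm_num
  rw [e] at h
  refine h.congr_fun (fun k => ?_) |> fun h => h
  rw [pow_succ]; ring

theorem ct_summable (x : ℝ) : Summable (fun k => ct k x) := by
  rcases le_total 0 x with hx | hx
  · exact Summable.of_nonneg_of_le (fun k => ct_nonneg k x) (fun k => ct_le k hx)
      (hasSum_quarter.summable.mul_left x)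
  · have : (fun k => ct k x) = fun _ => 0 := funext fun k => ct_of_neg k hx
    rw [this]
    exact summable_zero

theorem ct_mono (k : ℕ) {x y : ℝ} (h : x ≤ y) : ct k x ≤ ct k y := by
  unfold ct
  have h1 : ⌊2 ^ (k + 1) * x⌋₊ ≤ ⌊2 ^ (k + 1) * y⌋₊ := Nat.floor_mono (by gcongr)
  have h2 : (⌊2 ^ (k + 1) * x⌋₊ : ℝ) ≤ ⌊2 ^ (k + 1) * y⌋₊ := by exact_mod_cast h1
  gcongr

/-- the Cantor-type function -/
noncomputable def cf (x : ℝ) : ℝ := ∑' k, ct k x

theorem cf_mono : Monotone cf := fun x y h =>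
  (ct_summable x).tsum_le_tsum (fun k => ct_mono k h) (ct_summable y)

theorem cf_nonneg (x : ℝ) : 0 ≤ cf x := tsum_nonneg fun k => ct_nonneg k x

theorem cf_le {x : ℝ} (hx0 : 0 ≤ x) (hx : x ≤ 1) : cf x ≤ 1 := by
  have h1 : cf x ≤ ∑' k : ℕ, x * (1 / 4) ^ (k + 1) :=
    (ct_summable x).tsum_le_tsum (fun k => ct_le k hx0) (hasSum_quarter.summable.mul_left x)
  rw [tsum_mul_left, hasSum_quarter.tsum_eq] at h1
  linarith

/-- the lower bound -/
theorem cf_lower {x y : ℝ} (hx : 0 ≤ x) (hxy : x < y) (hy : y < 1) : (y - x) ^ 3 / 8 ≤ cf y - cf x := by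
  obtain ⟨n, hn1, hn2⟩ := exists_nat_pow_near_of_lt_one (x := y - x) (y := (1 / 2 : ℝ))
    (by linarith) (by linarith) (by norm_num) (by norm_num)
  have h1 : (1 / 8 : ℝ) ^ (n + 1) ≤ ct n y - ct n x := by
    unfold ct
    rw [← sub_mul]
    have h2 : (1 : ℝ) ≤ (⌊2 ^ (n + 1) * y⌋₊ : ℝ) - (⌊2 ^ (n + 1) * x⌋₊ : ℝ) := by
      have h3 : (2 : ℝ) ^ (n + 1) * x + 1 ≤ 2 ^ (n + 1) * y := by
        have h4 : (2 : ℝ) ^ (n + 1) * (1 / 2) ^ (n + 1) = 1 := by rw [← mul_pow]; norm_num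
        have h5 : (2 : ℝ) ^ (n + 1) * (1 / 2) ^ (n + 1) ≤ 2 ^ (n + 1) * (y - x) := by gcongr
        linarith
      have h6 : ⌊2 ^ (n + 1) * x⌋₊ + 1 ≤ ⌊2 ^ (n + 1) * y⌋₊ := by
        rw [← Nat.floor_add_one (by positivity)]
        exact Nat.floor_mono h3
      have h7 : ((⌊2 ^ (n + 1) * x⌋₊ : ℝ)) + 1 ≤ ⌊2 ^ (n + 1) * y⌋₊ := by exact_mod_cast h6
      linarith
    have h8 : (0 : ℝ) < (1 / 8) ^ (n + 1) := by positivity
    nlinarith
  have h2 : ct n y - ct n x ≤ cf y - cf x := by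
    unfold cf
    rw [← (ct_summable y).tsum_sub (ct_summable x)]
    exact ((ct_summable y).sub (ct_summable x)).le_tsum n
      (fun j _ => sub_nonneg.2 (ct_mono j hxy.le))
  have h3 : (y - x) ^ 3 / 8 ≤ (1 / 8) ^ (n + 1) := by
    have h4 : (y - x) ^ 3 ≤ ((1 / 2) ^ n) ^ 3 := by gcongr
    have h5 : ((1 / 2 : ℝ) ^ n) ^ 3 = (1 / 8) ^ n := by rw [← pow_mul, mul_comm, pow_mul]; norm_num
    rw [h5] at h4
    have h6 : (1 / 8 : ℝ) ^ (n + 1) = (1 / 8) ^ n / 8 := by rw [pow_succ]; ring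
    rw [h6]
    linarith
  linarith

/-- the covering bound -/
theorem cf_cover (N : ℕ) {x : ℝ} (hx : 0 ≤ x) :
    cf ((⌊2 ^ N * x⌋₊ : ℝ) / 2 ^ N) ≤ cf x ∧
      cf x ≤ cf ((⌊2 ^ N * x⌋₊ : ℝ) / 2 ^ N) + (1 / 8) ^ N := by
  set i := ⌊2 ^ N * x⌋₊ with hi
  set c : ℝ := (i : ℝ) / 2 ^ N with hc
  have hi1 : (i : ℝ) ≤ 2 ^ N * x := Nat.floor_le (by positivity)
  have hi2 : 2 ^ N * x < (i : ℝ) + 1 := Nat.lt_floor_add_one _
  have hcx : c ≤ x := by
    rw [hc, div_le_iff₀ (by positivity)]; linarith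
  have hc0 : 0 ≤ c := by positivity
  refine ⟨cf_mono hcx, ?_⟩
  -- termwise bound
  have hterm : ∀ k, ct k x - ct k c ≤ if k < N then 0 else (1 / 2) ^ N * (1 / 4) ^ (k + 1) := by
    intro k
    split_ifs with hk
    · have h1 : ⌊2 ^ (k + 1) * x⌋₊ = i / 2 ^ (N - (k + 1)) := by
        have e : (2 : ℝ) ^ (k + 1) * x = (2 ^ N * x) / ((2 ^ (N - (k + 1)) : ℕ) : ℝ) := by
          push_cast
          rw [eq_div_iff (by positivity)]
          have : (2 : ℝ) ^ (k + 1) * x * 2 ^ (N - (k + 1)) = 2 ^ (k + 1 + (N - (k + 1))) * x := by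
            rw [pow_add]; ring
          rw [this]
          congr 2
          omega
        rw [e, Nat.floor_div_natCast, ← hi]
      have h2 : ⌊2 ^ (k + 1) * c⌋₊ = i / 2 ^ (N - (k + 1)) := by
        have e : (2 : ℝ) ^ (k + 1) * c = (i : ℝ) / ((2 ^ (N - (k + 1)) : ℕ) : ℝ) := by
          push_cast
          rw [hc, ← mul_div_assoc, div_eq_div_iff (by positivity) (by positivity)]
          have : (2 : ℝ) ^ (k + 1) * (i : ℝ) * 2 ^ (N - (k + 1)) = (i : ℝ) * 2 ^ (k + 1 + (N - (k + 1))) := by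
            rw [pow_add]; ring
          rw [this]
          congr 2
          omega
        rw [e, Nat.floor_div_natCast, Nat.floor_natCast]
      unfold ct
      rw [h1, h2, sub_self]
    · push Not at hk
      have h2 : (⌊2 ^ (k + 1) * c⌋₊ : ℝ) = 2 ^ (k + 1 - N) * i := by
        have e : (2 : ℝ) ^ (k + 1) * c = ((2 ^ (k + 1 - N) * i : ℕ) : ℝ) := by
          push_cast
          rw [hc, ← mul_div_assoc, div_eq_iff (by positivity)]
          have : (2 : ℝ) ^ (k + 1 - N) * (i : ℝ) * 2 ^ N = 2 ^ ((k + 1 - N) + N) * i := by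
            rw [pow_add]; ring
          rw [this]
          congr 2
          omega
        rw [e, Nat.floor_natCast]
        push_cast
        rfl
      have h3 : (⌊2 ^ (k + 1) * x⌋₊ : ℝ) ≤ 2 ^ (k + 1) * x := Nat.floor_le (by positivity)
      have h4 : (2 : ℝ) ^ (k + 1) = 2 ^ (k + 1 - N) * 2 ^ N := by
        rw [← pow_add]; congr 1; omega
      have h5 : (⌊2 ^ (k + 1) * x⌋₊ : ℝ) - (⌊2 ^ (k + 1) * c⌋₊ : ℝ) ≤ 2 ^ (k + 1 - N) := by
        rw [h2]
        have h6 : (2 : ℝ) ^ (k + 1) * x ≤ 2 ^ (k + 1 - N) * ((i : ℝ) + 1) := by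
          rw [h4, mul_assoc]
          have : (0 : ℝ) < 2 ^ (k + 1 - N) := by positivity
          nlinarith
        linarith
      unfold ct
      rw [← sub_mul]
      have h7 : (0 : ℝ) < (1 / 8) ^ (k + 1) := by positivity
      calc ((⌊2 ^ (k + 1) * x⌋₊ : ℝ) - (⌊2 ^ (k + 1) * c⌋₊ : ℝ)) * (1 / 8) ^ (k + 1)
          ≤ 2 ^ (k + 1 - N) * (1 / 8) ^ (k + 1) := by gcongr
        _ = (1 / 2) ^ N * (1 / 4) ^ (k + 1) := by
            have e1 : (2 : ℝ) ^ (k + 1 - N) = 2 ^ (k + 1) * (1 / 2) ^ N := by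
              rw [h4, mul_assoc, ← mul_pow]; norm_num
            rw [e1]
            have e2 : (1 / 4 : ℝ) ^ (k + 1) = 2 ^ (k + 1) * (1 / 8) ^ (k + 1) := by
              rw [← mul_pow]; norm_num
            rw [e2]; ring
  set u : ℕ → ℝ := fun k => if k < N then 0 else (1 / 2) ^ N * (1 / 4) ^ (k + 1) with hu
  have hus : Summable u := by
    refine Summable.of_nonneg_of_le (fun k => ?_) (fun k => ?_) (hasSum_quarter.summable.mul_left ((1 / 2) ^ N))
    · simp only [hu]; split_ifs <;> positivity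
    · simp only [hu]; split_ifs <;> first | positivity | exact le_rfl
  have hsum : cf x - cf c ≤ ∑' k, u k := by
    unfold cf
    rw [← (ct_summable x).tsum_sub (ct_summable c)]
    exact ((ct_summable x).sub (ct_summable c)).tsum_le_tsum hterm hus
  have hval : ∑' k, u k ≤ (1 / 8) ^ N := by
    rw [← hus.sum_add_tsum_nat_add N]
    have h1 : ∑ k ∈ Finset.range N, u k = 0 := by
      refine Finset.sum_eq_zero fun k hk => ?_
      simp only [hu]
      rw [if_pos (Finset.mem_range.1 hk)]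
    have h2 : ∀ k, u (k + N) = (1 / 2) ^ N * (1 / 4) ^ N * (1 / 4) ^ (k + 1) := by
      intro k
      simp only [hu]
      rw [if_neg (by omega), mul_assoc, ← pow_add]
      congr 2
      ring
    rw [h1, zero_add]
    simp only [h2]
    rw [tsum_mul_left, hasSum_quarter.tsum_eq, ← mul_pow]
    have e : (1 / 2 * (1 / 4) : ℝ) = 1 / 8 := by norm_num
    rw [e]
    have : (0 : ℝ) < (1 / 8) ^ N := by positivity
    linarith
  linarith

/-- the Cantor-type set -/
def CE : Set ℝ := closure (cf '' Ico 0 1)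

theorem CE_sub : CE ⊆ Icc 0 1 := by
  refine closure_minimal ?_ isClosed_Icc
  rintro _ ⟨x, hx, rfl⟩
  exact ⟨cf_nonneg x, cf_le hx.1 hx.2.le⟩

theorem CE_compact : IsCompact CE := isCompact_Icc.of_isClosed_subset isClosed_closure CE_sub

theorem CE_cover (N : ℕ) : ∃ s : Finset ℝ, s.card ≤ 2 ^ N ∧ ∀ w ∈ CE, ∃ c ∈ s, |w - c| ≤ (1 / 8) ^ N := by
  classical
  refine ⟨(Finset.range (2 ^ N)).image (fun i : ℕ => cf ((i : ℝ) / 2 ^ N)), ?_, ?_⟩
  · exact Finset.card_image_le.trans (by rw [Finset.card_range])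
  · have hsub : CE ⊆ ⋃ i ∈ Finset.range (2 ^ N), Metric.closedBall (cf ((i : ℝ) / 2 ^ N)) ((1 / 8) ^ N) := by
      refine closure_minimal ?_ ?_
      · rintro _ ⟨x, hx, rfl⟩
        obtain ⟨h1, h2⟩ := cf_cover N hx.1
        have h3 : ⌊2 ^ N * x⌋₊ < 2 ^ N := by
          rw [Nat.floor_lt (by have := hx.1; positivity)]
          push_cast
          have : (0 : ℝ) < 2 ^ N := by positivity
          nlinarith [hx.2]
        rw [mem_iUnion₂]
        refine ⟨_, Finset.mem_range.2 h3, ?_⟩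
        rw [Metric.mem_closedBall, Real.dist_eq, abs_of_nonneg (by linarith)]
        linarith
      · exact (Finset.finite_toSet _).isClosed_biUnion fun i _ => Metric.isClosed_closedBall
    intro w hw
    obtain ⟨i, hi, hwi⟩ := mem_iUnion₂.1 (hsub hw)
    refine ⟨_, Finset.mem_image_of_mem _ hi, ?_⟩
    rwa [Metric.mem_closedBall, Real.dist_eq] at hwi

theorem CE_null : volume CE = 0 := by
  have h : ∀ N : ℕ, volume CE ≤ ENNReal.ofReal (2 * (1 / 4) ^ N) := by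
    intro N
    obtain ⟨s, hs, hcov⟩ := CE_cover N
    have hsub : CE ⊆ ⋃ c ∈ s, Metric.closedBall c ((1 / 8) ^ N) := by
      intro w hw
      obtain ⟨c, hc, hwc⟩ := hcov w hw
      rw [mem_iUnion₂]
      exact ⟨c, hc, by rwa [Metric.mem_closedBall, Real.dist_eq]⟩
    calc volume CE ≤ volume (⋃ c ∈ s, Metric.closedBall c ((1 / 8) ^ N)) := measure_mono hsub
      _ ≤ ∑ c ∈ s, volume (Metric.closedBall c ((1 / 8) ^ N)) := measure_biUnion_finset_le _ _
      _ = s.card * ENNReal.ofReal (2 * (1 / 8) ^ N) := by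
          simp only [Real.volume_closedBall]
          rw [Finset.sum_const, nsmul_eq_mul]
      _ ≤ ENNReal.ofReal (2 ^ N) * ENNReal.ofReal (2 * (1 / 8) ^ N) := by
          refine mul_le_mul_left ?_ _
          have h3 : (s.card : ENNReal) ≤ ((2 ^ N : ℕ) : ENNReal) := by exact_mod_cast hs
          refine h3.trans ?_
          rw [← ENNReal.ofReal_natCast]
          simp
      _ = ENNReal.ofReal (2 * (1 / 4) ^ N) := by
          rw [← ENNReal.ofReal_mul (by positivity)]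
          congr 1
          have : (1 / 4 : ℝ) ^ N = 2 ^ N * (1 / 8) ^ N := by rw [← mul_pow]; norm_num
          rw [this]; ring
  have hlim : Tendsto (fun N : ℕ => ENNReal.ofReal (2 * (1 / 4) ^ N)) atTop (𝓝 0) := by
    have h1 : Tendsto (fun N : ℕ => 2 * (1 / 4 : ℝ) ^ N) atTop (𝓝 0) := by
      simpa using (tendsto_pow_atTop_nhds_zero_of_lt_one (r := (1 / 4 : ℝ)) (by norm_num)
        (by norm_num)).const_mul 2
    rw [← ENNReal.ofReal_zero]
    exact (ENNReal.continuous_ofReal.tendsto 0).comp h1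
  exact le_antisymm (ge_of_tendsto' hlim h) zero_le

theorem CE_gap (w : ℝ) {δ : ℝ} (hδ : 0 < δ) : ∃ w', |w' - w| < δ ∧ w' ∉ CE := by
  by_contra hcon
  push Not at hcon
  have h1 : Metric.ball w δ ⊆ CE := by
    intro w' hw'
    rw [Metric.mem_ball, Real.dist_eq] at hw'
    exact hcon w' hw'
  have h2 : volume (Metric.ball w δ) ≤ 0 := by rw [← CE_null]; exact measure_mono h1
  rw [Real.volume_ball] at h2
  have h3 : 0 < ENNReal.ofReal (2 * δ) := ENNReal.ofReal_pos.2 (by positivity)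
  exact absurd h2 (not_le.2 h3)

theorem CE_nonempty : CE.Nonempty := ⟨cf 0, subset_closure ⟨0, ⟨le_rfl, one_pos⟩, rfl⟩⟩

theorem exists_dat : ∃ D : Dat, D.E = CE := by
  have : Nonempty CE := CE_nonempty.to_subtype
  set d : ℕ → CE := TopologicalSpace.denseSeq CE with hd
  refine ⟨{ g := fun n => d (n.unpair).1, E := CE, hE := CE_compact, hE01 := fun x hx => CE_sub hx,
            hgE := fun n => (d (n.unpair).1).2, hacc := ?_, hgap := fun w _ δ hδ => CE_gap w hδ,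
            hcov := CE_cover }, rfl⟩
  intro w hw δ hδ N
  have hdense : DenseRange d := TopologicalSpace.denseRange_denseSeq CE
  obtain ⟨i, hi⟩ := hdense.exists_dist_lt ⟨w, hw⟩ hδ
  refine ⟨Nat.pair i N, Nat.right_le_pair i N, ?_⟩
  rw [Nat.unpair_pair]
  rw [dist_comm, Subtype.dist_eq, Real.dist_eq] at hi
  exact hi

end Pool.Agent.MP83fe1a
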