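import Pool.Agent.MP83fe1a.Dom

set_option autoImplicit false

open Set Filter Topology MeasureTheory

namespace Pool.Agent.MP83fe1a

namespace Dat

variable (D : Dat)

theorem norm_F_succ_sub {n : ℕ} {z : ℂ} (h : D.de (n + 1) z ≠ 0) :
    ‖D.F (n + 1) z - D.F n z‖ = eps n / ‖D.F n z - D.g n‖ := by
  rw [D.F_succ h]
  have : D.F n z - eps n / (D.F n z - D.g n) - D.F n z = - (eps n / (D.F n z - D.g n)) := by ring
  rw [this, norm_neg, norm_div, Complex.norm_real, Real.norm_eq_abs, abs_of_pos (eps_pos n)]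

/-- at a pole, all the iterates before the first stage are close to `E` -/
theorem dist_E_of_pole {N : ℕ} {p : ℂ} (hp : p ∈ D.P) (hN : D.de N p ≠ 0) :
    ∃ e ∈ D.E, ‖D.F N p - e‖ ≤ (1 / 8) ^ N / 20 := by
  classical
  obtain ⟨n, hn, hde, hF⟩ := D.exists_first hp hN
  have hex : ∃ k, N ≤ k ∧ ‖D.F k p - D.g k‖ < Real.sqrt (eps k) := by
    refine ⟨n, hn, ?_⟩
    rw [hF, sub_self, norm_zero]
    exact Real.sqrt_pos.2 (eps_pos n)
  obtain ⟨k, ⟨hk1, hk2⟩, hkmin, hkn⟩ : ∃ k, (N ≤ k ∧ ‖D.F k p - D.g k‖ < Real.sqrt (eps k)) ∧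
      (∀ j < k, ¬ (N ≤ j ∧ ‖D.F j p - D.g j‖ < Real.sqrt (eps j))) ∧ k ≤ n := by
    refine ⟨Nat.find hex, Nat.find_spec hex, fun j hj => Nat.find_min hex hj, ?_⟩
    apply Nat.find_min' hex
    refine ⟨hn, ?_⟩
    rw [hF, sub_self, norm_zero]
    exact Real.sqrt_pos.2 (eps_pos n)
  have hsum : ∀ m, N ≤ m → m ≤ k → ‖D.F m p - D.F N p‖ ≤ ∑ j ∈ Finset.Ico N m, Real.sqrt (eps j) := by
    intro m hm
    induction m, hm using Nat.le_induction with
    | base => intro _; simp
    | succ m hm ih =>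
      intro hmk
      have h1 := ih (by omega)
      have hde' : D.de (m + 1) p ≠ 0 := MP83fe1a.de_ne_of_le (by omega) hde
      have h2 := D.norm_F_succ_sub hde'
      have h3 : Real.sqrt (eps m) ≤ ‖D.F m p - D.g m‖ := by
        by_contra hcon
        push Not at hcon
        exact hkmin m (by omega) ⟨hm, hcon⟩
      have h4 : eps m / ‖D.F m p - D.g m‖ ≤ Real.sqrt (eps m) := by
        have hpos := Real.sqrt_pos.2 (eps_pos m)
        rw [div_le_iff₀ (hpos.trans_le h3)]
        calc eps m = Real.sqrt (eps m) * Real.sqrt (eps m) := (Real.mul_self_sqrt (eps_pos m).le).symm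
          _ ≤ _ := mul_le_mul_of_nonneg_left h3 hpos.le
      rw [Finset.sum_Ico_succ_top hm]
      calc ‖D.F (m + 1) p - D.F N p‖ = ‖(D.F (m + 1) p - D.F m p) + (D.F m p - D.F N p)‖ := by
            congr 1; ring
        _ ≤ ‖D.F (m + 1) p - D.F m p‖ + ‖D.F m p - D.F N p‖ := norm_add_le _ _
        _ ≤ _ := by rw [h2]; linarith
  refine ⟨D.g k, D.hgE k, ?_⟩
  have h1 := hsum k hk1 le_rfl
  have h2 := sum_sqrt_eps_le N (k + 1)
  rw [Finset.sum_Ico_succ_top hk1] at h2
  calc ‖D.F N p - D.g k‖ = ‖(D.F k p - D.g k) - (D.F k p - D.F N p)‖ := by congr 1; ring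
    _ ≤ ‖D.F k p - D.g k‖ + ‖D.F k p - D.F N p‖ := norm_sub_le _ _
    _ ≤ _ := by linarith

theorem dist_E_of_closure {N : ℕ} {z : ℂ} (hz : z ∈ closure D.P) (hN : D.de N z ≠ 0) :
    ∃ e ∈ D.E, ‖D.F N z - e‖ ≤ (1 / 8) ^ N / 10 := by
  have hpos : (0 : ℝ) < (1 / 8) ^ N / 20 := by positivity
  have h1 := D.eventually_de_ne hN
  have h2 : ContinuousAt (fun w => ‖D.F N w - D.F N z‖) z :=
    ((D.continuousAt_F hN).sub continuousAt_const).norm
  have h3 : ‖D.F N z - D.F N z‖ < (1 / 8) ^ N / 20 := by rw [sub_self, norm_zero]; exact hpos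
  obtain ⟨p, ⟨hp1, hp2⟩, hpP⟩ := (mem_closure_iff_nhds.1 hz) _ (h1.and (h2.eventually (gt_mem_nhds h3)))
  obtain ⟨e, he, hpe⟩ := D.dist_E_of_pole hpP hp1
  refine ⟨e, he, ?_⟩
  have hp2' : ‖D.F N p - D.F N z‖ < (1 / 8) ^ N / 20 := hp2
  calc ‖D.F N z - e‖ = ‖(D.F N p - e) - (D.F N p - D.F N z)‖ := by congr 1; ring
    _ ≤ ‖D.F N p - e‖ + ‖D.F N p - D.F N z‖ := norm_sub_le _ _
    _ ≤ _ := by linarith

/-- radius of the covering discs -/
noncomputable def rad (N : ℕ) : ℝ := 8 * (1 / 8) ^ N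

theorem rad_pos (N : ℕ) : 0 < rad N := by unfold rad; positivity

/-- neighbourhoods of the poles of stage `n` -/
def Wn (n : ℕ) : Set ℂ := {z | D.de n z ≠ 0 ∧ ‖D.F n z - D.g n‖ < eps n / 6}

theorem exists_cover (N : ℕ) : ∃ J : Finset ℂ, J.card ≤ 4 ^ N ∧
    (∀ z ∈ closure D.P, (∀ n < N, z ∉ D.Wn n) → ∃ p ∈ J, ‖z - p‖ < rad N) ∧
    (∀ p ∈ J, ∃ z ∈ closure D.P, ‖z - p‖ < rad N) := by
  classical
  obtain ⟨s, hs, hcov⟩ := D.hcov N
  refine ⟨(s.biUnion (fun c => sols D.g eps N c)).filter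
    (fun p => ∃ z ∈ closure D.P, ‖z - p‖ < rad N), ?_, ?_, ?_⟩
  · calc _ ≤ (s.biUnion (fun c => sols D.g eps N c)).card := Finset.card_filter_le _ _
      _ ≤ ∑ c ∈ s, (sols D.g eps N c).card := Finset.card_biUnion_le
      _ ≤ ∑ c ∈ s, 2 ^ N := Finset.sum_le_sum fun c _ => card_sols N c
      _ = s.card * 2 ^ N := by rw [Finset.sum_const, smul_eq_mul]
      _ ≤ 2 ^ N * 2 ^ N := Nat.mul_le_mul_right _ hs
      _ = 4 ^ N := by rw [← mul_pow]; norm_num
  · intro z hz hW
    have hde : ∀ n ≤ N, D.de n z ≠ 0 := by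
      intro n hn
      induction n with
      | zero => rw [D.de_zero]; exact one_ne_zero
      | succ n ih =>
        have h1 := ih (by omega)
        refine D.de_succ_ne.2 ⟨h1, fun h0 => hW n (by omega) ⟨h1, ?_⟩⟩
        rw [h0, sub_self, norm_zero]
        exact div_pos (eps_pos n) (by norm_num)
    obtain ⟨e, he, hze⟩ := D.dist_E_of_closure hz (hde N le_rfl)
    obtain ⟨c, hc, hec⟩ := hcov e he
    have hpos : (0 : ℝ) < (1 / 8) ^ N := by positivity
    have h1 : ‖D.F N z - c‖ < rad N / 6 := by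
      have h2 : ‖(e : ℂ) - c‖ ≤ (1 / 8) ^ N := by
        rw [← Complex.ofReal_sub, Complex.norm_real, Real.norm_eq_abs]; exact hec
      calc ‖D.F N z - c‖ = ‖(D.F N z - e) + ((e : ℂ) - c)‖ := by congr 1; ring
        _ ≤ ‖D.F N z - e‖ + ‖(e : ℂ) - c‖ := norm_add_le _ _
        _ < _ := by unfold rad; linarith
    obtain ⟨p, hp, hp0⟩ := exists_root_near (g := D.g) eps_pos (rad_pos N) (hde N le_rfl) h1
    rw [Metric.mem_ball, dist_comm, dist_eq_norm] at hp
    refine ⟨p, ?_, hp⟩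
    rw [Finset.mem_filter, Finset.mem_biUnion]
    exact ⟨⟨c, hc, mem_sols.2 hp0⟩, z, hz, hp⟩
  · intro p hp
    rw [Finset.mem_filter] at hp
    exact hp.2

/-! ### The derivative on the annular regions -/

theorem norm_dF_le {z : ℂ} {m : ℕ} (hfar : ∀ k ≥ m, 0.9 ≤ ‖D.F k z - D.g k‖) (n : ℕ) (hn : m ≤ n) :
    ‖D.dF n z‖ ≤ ‖D.dF m z‖ * Real.exp (1.3 * ∑ k ∈ Finset.Ico m n, eps k) := by
  induction n, hn using Nat.le_induction with
  | base => simp
  | succ n hn ih =>
    have h1 : D.dF (n + 1) z = D.dF n z * (1 + eps n / (D.F n z - D.g n) ^ 2) := by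
      rw [dF, Finset.prod_range_succ]; rfl
    have h2 : ‖(1 : ℂ) + eps n / (D.F n z - D.g n) ^ 2‖ ≤ Real.exp (1.3 * eps n) := by
      have h3 := hfar n hn
      have h4 : ‖(eps n : ℂ) / (D.F n z - D.g n) ^ 2‖ ≤ 1.3 * eps n := by
        rw [norm_div, Complex.norm_real, Real.norm_eq_abs, abs_of_pos (eps_pos n), norm_pow,
          div_le_iff₀ (by positivity)]
        have h5 : (0.9 : ℝ) ^ 2 ≤ ‖D.F n z - D.g n‖ ^ 2 := pow_le_pow_left₀ (by norm_num) h3 2
        have := eps_pos n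
        nlinarith
      calc ‖(1 : ℂ) + eps n / (D.F n z - D.g n) ^ 2‖ ≤ ‖(1 : ℂ)‖ + ‖(eps n : ℂ) / (D.F n z - D.g n) ^ 2‖ :=
            norm_add_le _ _
        _ ≤ 1.3 * eps n + 1 := by rw [norm_one]; linarith
        _ ≤ Real.exp (1.3 * eps n) := Real.add_one_le_exp _
    rw [h1, norm_mul, Finset.sum_Ico_succ_top hn, mul_add, Real.exp_add, ← mul_assoc]
    exact mul_le_mul ih h2 (norm_nonneg _) (by positivity)

theorem norm_deriv_le {z : ℂ} (hz : z ∈ D.O) {m : ℕ} (hfar : ∀ k ≥ m, 0.9 ≤ ‖D.F k z - D.g k‖) :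
    ‖deriv D.f z‖ ≤ 2 * ‖D.dF m z‖ := by
  refine le_of_tendsto (D.tendsto_dF hz).norm ?_
  filter_upwards [eventually_ge_atTop m] with n hn
  refine (D.norm_dF_le hfar n hn).trans ?_
  rw [mul_comm]
  refine mul_le_mul_of_nonneg_right ?_ (norm_nonneg _)
  have h1 := sum_eps_le m n
  have h2 := tau_le m
  calc Real.exp (1.3 * ∑ k ∈ Finset.Ico m n, eps k) ≤ Real.exp (1.3 * (1 / 900)) := by
        apply Real.exp_le_exp.2; linarith
    _ ≤ 2 := by
        have h3 : Real.exp (1.3 * (1 / 900)) ≤ Real.exp (Real.log 2) := by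
          apply Real.exp_le_exp.2
          have := Real.log_two_gt_d9
          linarith
        rwa [Real.exp_log (by norm_num)] at h3

theorem norm_dF_small {z : ℂ} (hzP : z ∉ D.P) {k : ℕ} (hlt : ∀ j ≤ k, ‖D.F j z‖ < 2) :
    ‖D.dF k z‖ ≤ Ac k := by
  induction k with
  | zero =>
    show ‖D.dF 0 z‖ ≤ 1
    simp [dF]
  | succ k ih =>
    have h1 : D.dF (k + 1) z = D.dF k z * (1 + eps k / (D.F k z - D.g k) ^ 2) := by
      rw [dF, Finset.prod_range_succ]; rfl
    have h0 := ih (fun j hj => hlt j (by omega))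
    have h2 := D.norm_F_succ_sub (D.de_ne hzP (k + 1))
    have h3 : ‖D.F (k + 1) z - D.F k z‖ ≤ 4 := by
      have := norm_sub_le (D.F (k + 1) z) (D.F k z)
      have h4 := hlt (k + 1) le_rfl
      have h5 := hlt k (by omega)
      linarith
    have h6 : 0 < ‖D.F k z - D.g k‖ := norm_pos_iff.2 (D.F_ne hzP k)
    rw [h2, div_le_iff₀ h6] at h3
    have hε := eps_pos k
    have hε1 := eps_le_one k
    have h7 : ‖(eps k : ℂ) / (D.F k z - D.g k) ^ 2‖ ≤ 16 / eps k := by
      rw [norm_div, Complex.norm_real, Real.norm_eq_abs, abs_of_pos hε, norm_pow,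
        div_le_div_iff₀ (by positivity) hε]
      nlinarith
    have h8 : ‖(1 : ℂ) + eps k / (D.F k z - D.g k) ^ 2‖ ≤ 17 / eps k := by
      calc ‖(1 : ℂ) + eps k / (D.F k z - D.g k) ^ 2‖ ≤ ‖(1 : ℂ)‖ + ‖(eps k : ℂ) / (D.F k z - D.g k) ^ 2‖ :=
            norm_add_le _ _
        _ ≤ 1 + 16 / eps k := by rw [norm_one]; linarith
        _ ≤ 17 / eps k := by
            have : 1 ≤ 1 / eps k := by rw [le_div_iff₀ hε]; linarith
            have e : 17 / eps k = 1 / eps k + 16 / eps k := by ring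
            rw [e]; linarith
    rw [h1, norm_mul, Ac_succ]
    exact mul_le_mul h0 h8 (norm_nonneg _) (Ac_pos k).le

/-- the annular region -/
def W : Set ℂ := {z | z ∈ D.O ∧ 3 ≤ ‖D.f z‖ ∧ ‖D.f z‖ ≤ 4}

theorem W_cases {z : ℂ} (hz : z ∈ D.W) : (z ∈ Metric.ball (0 : ℂ) 5 ∧ ‖deriv D.f z‖ ≤ 2) ∨
    ∃ k, ∃ p ∈ sols D.g eps k (D.g k), z ∈ Metric.ball p (7 * eps k) ∧
      ‖deriv D.f z‖ ≤ 76 * Ac k / eps k := by
  classical
  obtain ⟨hzO, h3, h4⟩ := hz
  have hzP := D.notMem_P_of_mem_O hzO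
  rcases lt_or_ge ‖z‖ 2 with h2 | h2
  · right
    have hex : ∃ n, 2 ≤ ‖D.F n z‖ := by
      have h5 : ∀ᶠ n in atTop, 2 < ‖D.F n z‖ :=
        (D.tendsto_F hzO).norm.eventually (lt_mem_nhds (by linarith))
      obtain ⟨n, hn⟩ := h5.exists
      exact ⟨n, hn.le⟩
    obtain ⟨m, hm, hmin⟩ : ∃ m, 2 ≤ ‖D.F m z‖ ∧ ∀ j < m, ¬ 2 ≤ ‖D.F j z‖ :=
      ⟨Nat.find hex, Nat.find_spec hex, fun k hk => Nat.find_min hex hk⟩
    have hm0 : m ≠ 0 := by
      rintro rfl
      rw [D.F_zero] at hm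
      linarith
    obtain ⟨k, rfl⟩ : ∃ k, m = k + 1 := ⟨m - 1, by omega⟩
    have hlt : ∀ j ≤ k, ‖D.F j z‖ < 2 := fun j hj => not_le.1 (hmin j (by omega))
    have hesc := D.escape (D.de_ne hzP (k + 1)) hm
    have hf := D.escape_f hzO hm
    have htau := tau_le (k + 1)
    have hFk1 : ‖D.F (k + 1) z‖ ≤ 4.003 := by
      have : ‖D.F (k + 1) z‖ ≤ ‖D.f z‖ + ‖D.f z - D.F (k + 1) z‖ := by
        have e : D.F (k + 1) z = D.f z - (D.f z - D.F (k + 1) z) := by ring
        calc ‖D.F (k + 1) z‖ = ‖D.f z - (D.f z - D.F (k + 1) z)‖ := by rw [← e]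
          _ ≤ _ := norm_sub_le _ _
      linarith
    have hFk2 : 2.997 ≤ ‖D.F (k + 1) z‖ := by
      have : ‖D.f z‖ ≤ ‖D.F (k + 1) z‖ + ‖D.f z - D.F (k + 1) z‖ := by
        have e : D.f z = D.F (k + 1) z + (D.f z - D.F (k + 1) z) := by ring
        calc ‖D.f z‖ = ‖D.F (k + 1) z + (D.f z - D.F (k + 1) z)‖ := by rw [← e]
          _ ≤ _ := norm_add_le _ _
      linarith
    have hFk := hlt k le_rfl
    have hε := eps_pos k
    have hε1 := eps_le_one k
    have hpos : 0 < ‖D.F k z - D.g k‖ := norm_pos_iff.2 (D.F_ne hzP k)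
    have hstep := D.norm_F_succ_sub (D.de_ne hzP (k + 1))
    have hup : eps k / ‖D.F k z - D.g k‖ ≤ 6.003 := by
      rw [← hstep]
      have := norm_sub_le (D.F (k + 1) z) (D.F k z)
      linarith
    have hlow : 0.997 ≤ eps k / ‖D.F k z - D.g k‖ := by
      rw [← hstep]
      have := norm_sub_norm_le (D.F (k + 1) z) (D.F k z)
      linarith
    rw [div_le_iff₀ hpos] at hup
    rw [le_div_iff₀ hpos] at hlow
    obtain ⟨p, hp, hp0⟩ := exists_root_near (g := D.g) (n := k) (c := D.g k) (z₀ := z) (δ := 7 * eps k)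
      eps_pos (by positivity) (D.de_ne hzP k) (by
        show ‖D.F k z - D.g k‖ < 7 * eps k / 6
        linarith)
    refine ⟨k, p, mem_sols.2 hp0, ?_, ?_⟩
    · rw [Metric.mem_ball, dist_comm]
      exact hp
    · have hfar : ∀ j ≥ k + 1, 0.9 ≤ ‖D.F j z - D.g j‖ := by
        intro j hj
        have h5 := hesc.2 j hj
        have h6 := D.norm_g_le j
        have h7 := norm_sub_norm_le (D.F j z) (D.g j : ℂ)
        have h8 : ‖D.F (k + 1) z‖ ≤ ‖D.F j z‖ + ‖D.F j z - D.F (k + 1) z‖ := by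
          have e : D.F (k + 1) z = D.F j z - (D.F j z - D.F (k + 1) z) := by ring
          calc ‖D.F (k + 1) z‖ = ‖D.F j z - (D.F j z - D.F (k + 1) z)‖ := by rw [← e]
            _ ≤ _ := norm_sub_le _ _
        linarith
      have h9 := D.norm_deriv_le hzO hfar
      have h10 := D.norm_dF_small hzP hlt
      have h11 : D.dF (k + 1) z = D.dF k z * (1 + eps k / (D.F k z - D.g k) ^ 2) := by
        rw [dF, Finset.prod_range_succ]; rfl
      have h12 : ‖(eps k : ℂ) / (D.F k z - D.g k) ^ 2‖ ≤ 37 / eps k := by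
        rw [norm_div, Complex.norm_real, Real.norm_eq_abs, abs_of_pos hε, norm_pow,
          div_le_div_iff₀ (by positivity) hε]
        have h13 : eps k ^ 2 ≤ (6.003 * ‖D.F k z - D.g k‖) ^ 2 := pow_le_pow_left₀ hε.le hup 2
        nlinarith [sq_nonneg ‖D.F k z - D.g k‖]
      have h14 : ‖(1 : ℂ) + eps k / (D.F k z - D.g k) ^ 2‖ ≤ 38 / eps k := by
        calc ‖(1 : ℂ) + eps k / (D.F k z - D.g k) ^ 2‖
            ≤ ‖(1 : ℂ)‖ + ‖(eps k : ℂ) / (D.F k z - D.g k) ^ 2‖ := norm_add_le _ _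
          _ ≤ 1 + 37 / eps k := by rw [norm_one]; linarith
          _ ≤ 38 / eps k := by
              have : 1 ≤ 1 / eps k := by rw [le_div_iff₀ hε]; linarith
              have e : 38 / eps k = 1 / eps k + 37 / eps k := by ring
              rw [e]; linarith
      have h15 : ‖D.dF (k + 1) z‖ ≤ Ac k * (38 / eps k) := by
        rw [h11, norm_mul]
        exact mul_le_mul h10 h14 (norm_nonneg _) (Ac_pos k).le
      have e : 76 * Ac k / eps k = 2 * (Ac k * (38 / eps k)) := by ring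
      rw [e]
      linarith
  · left
    refine ⟨?_, ?_⟩
    · rw [mem_ball_zero_iff]
      have := D.norm_lt_of_f_le hzO (r := 4) (by norm_num) h4
      linarith
    · have hesc := D.escape (n := 0) (z := z) (D.de_ne hzP 0) (by rw [D.F_zero]; exact h2)
      have hfar : ∀ j ≥ 0, 0.9 ≤ ‖D.F j z - D.g j‖ := by
        intro j hj
        have h5 := hesc.2 j hj
        rw [D.F_zero] at h5
        have h6 := D.norm_g_le j
        have h7 := norm_sub_norm_le (D.F j z) (D.g j : ℂ)
        have h9 := tau_le 0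
        have h8 : ‖z‖ ≤ ‖D.F j z‖ + ‖D.F j z - z‖ := by
          have e : z = D.F j z - (D.F j z - z) := by ring
          calc ‖z‖ = ‖D.F j z - (D.F j z - z)‖ := by rw [← e]
            _ ≤ _ := norm_sub_le _ _
        linarith
      have h9 := D.norm_deriv_le hzO hfar
      have h10 : ‖D.dF 0 z‖ = 1 := by simp [dF]
      rw [h10] at h9
      linarith

open scoped Classical in
/-- majorant of the derivative on `W` -/
noncomputable def Phi (z : ℂ) : ENNReal :=
  (Metric.ball (0 : ℂ) 5).indicator (fun _ => 2) z +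
    ∑' k, ∑ p ∈ sols D.g eps k (D.g k),
      (Metric.ball p (7 * eps k)).indicator (fun _ => ENNReal.ofReal (76 * Ac k / eps k)) z

theorem deriv_le_Phi {z : ℂ} (hz : z ∈ D.W) : ENNReal.ofReal ‖deriv D.f z‖ ≤ D.Phi z := by
  classical
  rcases D.W_cases hz with ⟨h1, h2⟩ | ⟨k, p, hp, h1, h2⟩
  · refine le_trans ?_ le_self_add
    rw [indicator_of_mem h1]
    calc ENNReal.ofReal ‖deriv D.f z‖ ≤ ENNReal.ofReal 2 := ENNReal.ofReal_le_ofReal h2
      _ = 2 := by simp
  · refine le_trans ?_ le_add_self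
    refine le_trans ?_ (ENNReal.le_tsum k)
    refine le_trans ?_ (Finset.single_le_sum (f := fun p => (Metric.ball p (7 * eps k)).indicator
      (fun _ => ENNReal.ofReal (76 * Ac k / eps k)) z) (fun _ _ => zero_le) hp)
    show _ ≤ (Metric.ball p (7 * eps k)).indicator (fun _ => ENNReal.ofReal (76 * Ac k / eps k)) z
    rw [indicator_of_mem h1]
    exact ENNReal.ofReal_le_ofReal h2

theorem measurable_Phi : Measurable D.Phi := by
  classical
  unfold Phi
  refine Measurable.add ?_ ?_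
  · exact measurable_const.indicator measurableSet_ball
  · refine Measurable.tsum fun k => ?_
    refine Finset.measurable_sum _ fun p _ => ?_
    exact measurable_const.indicator measurableSet_ball

theorem lintegral_Phi : ∫⁻ z, D.Phi z < ⊤ := by
  classical
  unfold Phi
  rw [lintegral_add_left (measurable_const.indicator measurableSet_ball),
    lintegral_indicator measurableSet_ball, lintegral_const, lintegral_tsum]
  · refine ENNReal.add_lt_top.2 ⟨?_, ?_⟩
    · rw [Measure.restrict_apply_univ, Complex.volume_ball]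
      exact ENNReal.mul_lt_top (by simp) (by simp [ENNReal.mul_lt_top, ENNReal.pow_lt_top])
    · have hle : ∀ k, ∫⁻ z, ∑ p ∈ sols D.g eps k (D.g k), (Metric.ball p (7 * eps k)).indicator
          (fun _ => ENNReal.ofReal (76 * Ac k / eps k)) z ≤
          ENNReal.ofReal (3724 * Real.pi / 1000 * (1 / 32) ^ k) := by
        intro k
        rw [lintegral_finsetSum _ (fun p _ => measurable_const.indicator measurableSet_ball)]
        have hε := eps_pos k
        have hA := Ac_pos k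
        have h1 : ∀ p ∈ sols D.g eps k (D.g k), ∫⁻ z, (Metric.ball p (7 * eps k)).indicator
          (fun _ => ENNReal.ofReal (76 * Ac k / eps k)) z ≤
            ENNReal.ofReal (76 * Ac k / eps k * ((7 * eps k) ^ 2 * Real.pi)) := by
          intro p _
          rw [lintegral_indicator measurableSet_ball, lintegral_const, Measure.restrict_apply_univ,
            Complex.volume_ball]
          have e : ENNReal.ofReal (76 * Ac k / eps k * ((7 * eps k) ^ 2 * Real.pi)) =
              ENNReal.ofReal (76 * Ac k / eps k) *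
                (ENNReal.ofReal (7 * eps k) ^ 2 * ENNReal.ofReal Real.pi) := by
            rw [ENNReal.ofReal_mul (by positivity), ENNReal.ofReal_mul (p := (7 * eps k) ^ 2)
              (by positivity), ENNReal.ofReal_pow (by positivity)]
          rw [e, ← NNReal.coe_real_pi, ENNReal.ofReal_coe_nnreal]
        refine (Finset.sum_le_sum h1).trans ?_
        rw [Finset.sum_const, nsmul_eq_mul]
        have h2 : ((sols D.g eps k (D.g k)).card : ENNReal) ≤ ENNReal.ofReal (2 ^ k) := by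
          have h3 : ((sols D.g eps k (D.g k)).card : ENNReal) ≤ ((2 ^ k : ℕ) : ENNReal) := by
            exact_mod_cast card_sols k (D.g k)
          refine h3.trans ?_
          rw [← ENNReal.ofReal_natCast]
          simp
        refine (mul_le_mul_left h2 _).trans ?_
        rw [← ENNReal.ofReal_mul (by positivity)]
        apply ENNReal.ofReal_le_ofReal
        have h4 := eps_Ac k
        have h5 : 2 ^ k * (76 * Ac k / eps k * ((7 * eps k) ^ 2 * Real.pi)) =
            3724 * Real.pi * (2 ^ k * (eps k * Ac k)) := by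
          field_simp
          ring
        rw [h5, h4]
        apply le_of_eq
        ring
      refine (ENNReal.tsum_le_tsum hle).trans_lt ?_
      rw [← ENNReal.ofReal_tsum_of_nonneg]
      · exact ENNReal.ofReal_lt_top
      · intro k
        have := Real.pi_pos
        positivity
      · exact (summable_geometric_of_lt_one (by norm_num) (by norm_num)).mul_left _
  · intro k
    refine Measurable.aemeasurable ?_
    refine Finset.measurable_sum _ fun p _ => ?_
    exact measurable_const.indicator measurableSet_ball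

end Dat

end Pool.Agent.MP83fe1a
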