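import Mathlib

set_option autoImplicit false

open Set Filter Topology MeasureTheory

namespace Pool.Agent.MP83fe1a

/-- (twice) the Cauchy-Riemann operator -/
noncomputable def dbar (G : ℂ → ℂ) (z : ℂ) : ℂ :=
  fderiv ℝ G z 1 + Complex.I * fderiv ℝ G z Complex.I

theorem integral_fderiv_eq_zero {G : ℂ → ℂ} (hG : ContDiff ℝ 1 G) (hs : HasCompactSupport G)
    (v : ℂ) : ∫ z, fderiv ℝ G z v = 0 := by
  have hc : Continuous fun z => fderiv ℝ G z v :=
    (hG.continuous_fderiv one_ne_zero).clm_apply continuous_const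
  have hcs : HasCompactSupport fun z => fderiv ℝ G z v := hs.fderiv_apply (𝕜 := ℝ) v
  have h := integral_smul_fderiv_eq_neg_fderiv_smul_of_integrable (μ := (volume : Measure ℂ))
    (f := fun _ : ℂ => (1 : ℝ)) (g := G) (v := v) (by simp) (by
      simp only [one_smul]
      exact hc.integrable_of_hasCompactSupport hcs) (by
      simp only [one_smul]
      exact hG.continuous.integrable_of_hasCompactSupport hs)
    (fun x _ => differentiableAt_const _) (fun x _ => hG.differentiable one_ne_zero x)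
  simpa using h

theorem continuous_dbar {G : ℂ → ℂ} (hG : ContDiff ℝ 1 G) : Continuous (dbar G) := by
  have hc : ∀ v : ℂ, Continuous fun z => fderiv ℝ G z v := fun v =>
    (hG.continuous_fderiv one_ne_zero).clm_apply continuous_const
  exact (hc 1).add (continuous_const.mul (hc Complex.I))

theorem dbar_eq_zero_of_notMem_tsupport {G : ℂ → ℂ} {z : ℂ} (hz : z ∉ tsupport G) :
    dbar G z = 0 := by
  have h1 : fderiv ℝ G z = 0 := by
    by_contra h
    exact hz (support_fderiv_subset ℝ h)
  simp [dbar, h1]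

theorem hasCompactSupport_dbar {G : ℂ → ℂ} (hs : HasCompactSupport G) :
    HasCompactSupport (dbar G) := by
  refine HasCompactSupport.intro hs.isCompact (fun z hz => dbar_eq_zero_of_notMem_tsupport hz)

theorem integrable_dbar {G : ℂ → ℂ} (hG : ContDiff ℝ 1 G) (hs : HasCompactSupport G) :
    Integrable (dbar G) :=
  (continuous_dbar hG).integrable_of_hasCompactSupport (hasCompactSupport_dbar hs)

theorem integral_dbar {G : ℂ → ℂ} (hG : ContDiff ℝ 1 G) (hs : HasCompactSupport G) :
    ∫ z, dbar G z = 0 := by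
  have hc : ∀ v : ℂ, Continuous fun z => fderiv ℝ G z v := fun v =>
    (hG.continuous_fderiv one_ne_zero).clm_apply continuous_const
  have hcs : ∀ v : ℂ, HasCompactSupport fun z => fderiv ℝ G z v := fun v =>
    hs.fderiv_apply (𝕜 := ℝ) v
  have hi : ∀ v : ℂ, Integrable fun z => fderiv ℝ G z v := fun v =>
    (hc v).integrable_of_hasCompactSupport (hcs v)
  show ∫ z, (fderiv ℝ G z 1 + Complex.I * fderiv ℝ G z Complex.I) = 0
  rw [integral_add (hi 1) ((hi Complex.I).const_mul _), integral_const_mul,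
    integral_fderiv_eq_zero hG hs, integral_fderiv_eq_zero hG hs]
  simp

theorem dbar_mul {a h : ℂ → ℂ} {z : ℂ} (ha : DifferentiableAt ℝ a z) (hh : DifferentiableAt ℂ h z) :
    dbar (fun w => a w * h w) z = h z * dbar a z := by
  have h1 : HasFDerivAt h (((1 : ℂ →L[ℂ] ℂ).smulRight (deriv h z)).restrictScalars ℝ) z :=
    hh.hasDerivAt.hasFDerivAt.restrictScalars ℝ
  have h2 := ha.hasFDerivAt.mul h1
  have h3 : fderiv ℝ (fun w => a w * h w) z = _ := h2.fderiv
  unfold dbar
  rw [h3]
  simp only [ContinuousLinearMap.add_apply, ContinuousLinearMap.smul_apply,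
    ContinuousLinearMap.coe_restrictScalars', ContinuousLinearMap.smulRight_apply,
    smul_eq_mul, ContinuousLinearMap.one_apply]
  have hI : Complex.I * Complex.I = -1 := Complex.I_mul_I
  linear_combination (a z * deriv h z) * hI

theorem dbar_congr {a h : ℂ → ℂ} {z : ℂ} (hz : a =ᶠ[𝓝 z] h) : dbar a z = dbar h z := by
  unfold dbar
  rw [hz.fderiv_eq]

theorem dbar_const (c z : ℂ) : dbar (fun _ => c) z = 0 := by simp [dbar]

theorem dbar_sub {a h : ℂ → ℂ} {z : ℂ} (ha : DifferentiableAt ℝ a z) (hh : DifferentiableAt ℝ h z) :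
    dbar (fun w => a w - h w) z = dbar a z - dbar h z := by
  have h1 : fderiv ℝ (fun w => a w - h w) z = _ := (ha.hasFDerivAt.sub hh.hasFDerivAt).fderiv
  unfold dbar
  rw [h1]
  simp
  ring

/-- the kernel is nice when `χ = 1` near `z₀` -/
theorem kernel_continuous {χ : ℂ → ℂ} (hχ : ContDiff ℝ 1 χ) {z₀ : ℂ}
    (h1 : ∀ᶠ z in 𝓝 z₀, χ z = 1) : Continuous fun z => dbar χ z / (z - z₀) := by
  rw [continuous_iff_continuousAt]
  intro z
  by_cases hz : z = z₀
  · subst hz
    have hev : (fun w => dbar χ w / (w - z)) =ᶠ[𝓝 z] fun _ => 0 := by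
      filter_upwards [eventually_eventually_nhds.2 h1] with w hw
      rw [dbar_congr (h := fun _ => 1) hw, dbar_const, zero_div]
    exact (continuousAt_congr hev).2 continuousAt_const
  · exact ((continuous_dbar hχ).continuousAt).div (by fun_prop) (sub_ne_zero.2 hz)

theorem kernel_integrable {χ : ℂ → ℂ} (hχ : ContDiff ℝ 1 χ) (hs : HasCompactSupport χ) {z₀ : ℂ}
    (h1 : ∀ᶠ z in 𝓝 z₀, χ z = 1) : Integrable fun z => dbar χ z / (z - z₀) := by
  refine (kernel_continuous hχ h1).integrable_of_hasCompactSupport ?_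
  refine HasCompactSupport.intro hs.isCompact (fun z hz => ?_)
  rw [dbar_eq_zero_of_notMem_tsupport hz, zero_div]

theorem kernel_integral_eq {χ χ₀ : ℂ → ℂ} (hχ : ContDiff ℝ 1 χ) (hs : HasCompactSupport χ)
    (hχ₀ : ContDiff ℝ 1 χ₀) (hs₀ : HasCompactSupport χ₀) {z₀ : ℂ}
    (h1 : ∀ᶠ z in 𝓝 z₀, χ z = 1) (h2 : ∀ᶠ z in 𝓝 z₀, χ₀ z = 1) :
    ∫ z, dbar χ z / (z - z₀) = ∫ z, dbar χ₀ z / (z - z₀) := by
  set G : ℂ → ℂ := fun z => (χ z - χ₀ z) * (z - z₀)⁻¹ with hGdef
  have hev : ∀ᶠ z in 𝓝 z₀, χ z - χ₀ z = 0 := by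
    filter_upwards [h1, h2] with z hz1 hz2
    rw [hz1, hz2, sub_self]
  have hG : ContDiff ℝ 1 G := by
    rw [contDiff_iff_contDiffAt]
    intro z
    by_cases hz : z = z₀
    · subst hz
      have : G =ᶠ[𝓝 z] fun _ => 0 := by
        filter_upwards [hev] with w hw
        simp only [hGdef]
        rw [hw, zero_mul]
      exact contDiffAt_const.congr_of_eventuallyEq this
    · have hd : ContDiffAt ℝ 1 (fun w : ℂ => (w - z₀)⁻¹) z := by
        have : ContDiffAt ℂ 1 (fun w : ℂ => (w - z₀)⁻¹) z :=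
          (contDiffAt_id.sub contDiffAt_const).inv (sub_ne_zero.2 hz)
        exact this.restrict_scalars ℝ
      exact (hχ.contDiffAt.sub hχ₀.contDiffAt).mul hd
  have hGs : HasCompactSupport G := (hs.sub hs₀).mul_right
  have hint := integral_dbar hG hGs
  have hpt : ∀ z, dbar G z = dbar χ z / (z - z₀) - dbar χ₀ z / (z - z₀) := by
    intro z
    by_cases hz : z = z₀
    · subst hz
      have : G =ᶠ[𝓝 z] fun _ => 0 := by
        filter_upwards [hev] with w hw
        simp only [hGdef]
        rw [hw, zero_mul]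
      rw [dbar_congr this, dbar_const, sub_self, div_zero, div_zero, sub_zero]
    · have hd : DifferentiableAt ℂ (fun w : ℂ => (w - z₀)⁻¹) z :=
        (differentiableAt_id.sub (differentiableAt_const _)).inv (sub_ne_zero.2 hz)
      have hχd := hχ.differentiable one_ne_zero z
      have hχ₀d := hχ₀.differentiable one_ne_zero z
      have hd1 : DifferentiableAt ℝ (fun w => χ w - χ₀ w) z := hχd.sub hχ₀d
      rw [hGdef, dbar_mul hd1 hd, dbar_sub hχd hχ₀d]
      ring
  have hpt' : dbar G = fun z => dbar χ z / (z - z₀) - dbar χ₀ z / (z - z₀) := funext hpt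
  rw [hpt', integral_sub (kernel_integrable hχ hs h1) (kernel_integrable hχ₀ hs₀ h2)] at hint
  exact sub_eq_zero.1 hint

/-- a standard bump -/
noncomputable def bump (z₀ z : ℂ) : ℂ := ((Real.smoothTransition (2 - ‖z - z₀‖ ^ 2) : ℝ) : ℂ)

theorem contDiff_bump (z₀ : ℂ) : ContDiff ℝ 1 (bump z₀) := by
  unfold bump
  have h1 : ContDiff ℝ 1 (fun z : ℂ => 2 - ‖z - z₀‖ ^ 2) :=
    contDiff_const.sub ((contDiff_id.sub contDiff_const).norm_sq ℝ)
  have h2 : ContDiff ℝ 1 (fun z : ℂ => Real.smoothTransition (2 - ‖z - z₀‖ ^ 2)) :=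
    (Real.smoothTransition.contDiff (n := 1)).comp h1
  exact Complex.ofRealCLM.contDiff.comp h2

theorem bump_support (z₀ : ℂ) : HasCompactSupport (bump z₀) := by
  refine HasCompactSupport.intro (isCompact_closedBall z₀ 2) (fun z hz => ?_)
  rw [Metric.mem_closedBall, dist_eq_norm, not_le] at hz
  unfold bump
  rw [Real.smoothTransition.zero_of_nonpos (by nlinarith)]
  simp

theorem bump_one (z₀ : ℂ) : ∀ᶠ z in 𝓝 z₀, bump z₀ z = 1 := by
  filter_upwards [Metric.ball_mem_nhds z₀ one_pos] with z hz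
  rw [Metric.mem_ball, dist_eq_norm] at hz
  unfold bump
  rw [Real.smoothTransition.one_of_one_le (by nlinarith [norm_nonneg (z - z₀)])]
  simp

theorem dbar_bump (z₀ z : ℂ) : dbar (bump z₀) z =
    -2 * (deriv Real.smoothTransition (2 - ‖z - z₀‖ ^ 2) : ℝ) * (z - z₀) := by
  have hS : HasDerivAt Real.smoothTransition (deriv Real.smoothTransition (2 - ‖z - z₀‖ ^ 2))
      (2 - ‖z - z₀‖ ^ 2) :=
    ((Real.smoothTransition.contDiff (n := 1)).differentiable one_ne_zero _).hasDerivAt
  have h1 : HasFDerivAt (fun w : ℂ => 2 - ‖w - z₀‖ ^ 2)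
      (-((2 : ℝ) • (innerSL ℝ (z - z₀)))) z := by
    have h2 : HasFDerivAt (fun w : ℂ => w - z₀) (ContinuousLinearMap.id ℝ ℂ) z :=
      (hasFDerivAt_id z).sub_const z₀
    have h3 := h2.norm_sq
    have h4 := h3.const_sub 2
    refine h4.congr_fderiv ?_
    ext v <;> simp
  have h2 := hS.comp_hasFDerivAt z h1
  have h3 : HasFDerivAt (bump z₀) (Complex.ofRealCLM.comp
      ((deriv Real.smoothTransition (2 - ‖z - z₀‖ ^ 2)) • (-((2 : ℝ) • (innerSL ℝ (z - z₀)))))) z :=
    Complex.ofRealCLM.hasFDerivAt.comp z h2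
  unfold dbar
  rw [h3.fderiv]
  set s := deriv Real.smoothTransition (2 - ‖z - z₀‖ ^ 2)
  simp only [ContinuousLinearMap.comp_apply, smul_apply,
    neg_apply, innerSL_apply_apply, Complex.ofRealCLM_apply, smul_eq_mul,
    Complex.inner]
  apply Complex.ext <;> simp <;> ring

theorem bump_ne (z₀ : ℂ) : ∫ z, dbar (bump z₀) z / (z - z₀) ≠ 0 := by
  intro h
  have hcd : Continuous (deriv Real.smoothTransition) :=
    (Real.smoothTransition.contDiff (n := 1)).continuous_deriv le_rfl
  set φ : ℂ → ℝ := fun z => deriv Real.smoothTransition (2 - ‖z - z₀‖ ^ 2) with hφ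
  have hφc : Continuous φ := hcd.comp (by fun_prop)
  have h0 : ∀ x : ℝ, 2 ≤ x → deriv Real.smoothTransition x = 0 := by
    intro x hx
    have : Real.smoothTransition =ᶠ[𝓝 x] fun _ => 1 := by
      filter_upwards [lt_mem_nhds (show (1 : ℝ) < x by linarith)] with y hy
      exact Real.smoothTransition.one_of_one_le hy.le
    rw [this.deriv_eq, deriv_const]
  have heq : (fun z => dbar (bump z₀) z / (z - z₀)) = fun z => ((-2 * φ z : ℝ) : ℂ) := by
    funext z
    rw [dbar_bump]
    by_cases hz : z - z₀ = 0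
    · rw [hz]
      simp only [hφ, hz]
      rw [h0 _ (by simp)]
      simp
    · field_simp
      push_cast
      rfl
  have hint : Integrable φ := by
    have h1 := kernel_integrable (contDiff_bump z₀) (bump_support z₀) (bump_one z₀)
    rw [heq] at h1
    have h2 := h1.re.const_mul (-1 / 2 : ℝ)
    refine h2.congr (Eventually.of_forall fun z => ?_)
    show (-1 / 2 : ℝ) * (((-2 * φ z : ℝ) : ℂ)).re = φ z
    rw [Complex.ofReal_re]
    ring
  rw [heq, integral_complex_ofReal] at h
  have h1 : ∫ z, (-2 * φ z) = 0 := by exact_mod_cast h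
  rw [integral_const_mul] at h1
  have h2 : ∫ z, φ z = 0 := by linarith
  have hnn : 0 ≤ φ := fun z => Real.smoothTransition.monotone.deriv_nonneg
  rw [integral_eq_zero_iff_of_nonneg hnn hint] at h2
  have h3 : φ = fun _ => 0 := (hφc.ae_eq_iff_eq volume continuous_const).1 h2
  obtain ⟨c, hc, hc1⟩ := exists_deriv_eq_slope Real.smoothTransition (a := 0) (b := 1) one_pos
    Real.smoothTransition.continuous.continuousOn
    ((Real.smoothTransition.contDiff (n := 1)).differentiable one_ne_zero).differentiableOn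
  rw [Real.smoothTransition.one, Real.smoothTransition.zero] at hc1
  have h4 := congrFun h3 (z₀ + (Real.sqrt (2 - c) : ℝ))
  simp only [hφ] at h4
  rw [add_sub_cancel_left, Complex.norm_real, Real.norm_eq_abs, sq_abs,
    Real.sq_sqrt (by linarith [hc.2])] at h4
  have h5 : 2 - (2 - c) = c := by ring
  rw [h5, hc1] at h4
  norm_num at h4

/-- The (unnormalised) Cauchy–Pompeiu formula. -/
theorem pompeiu (z₀ : ℂ) : ∃ c : ℂ, c ≠ 0 ∧ ∀ (V : Set ℂ) (h χ : ℂ → ℂ), IsOpen V → z₀ ∈ V →
    DifferentiableOn ℂ h V → ContDiff ℝ 1 χ → HasCompactSupport χ → tsupport χ ⊆ V →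
    (∀ᶠ z in 𝓝 z₀, χ z = 1) → h z₀ * c = ∫ z, h z * (dbar χ z / (z - z₀)) := by
  refine ⟨∫ z, dbar (bump z₀) z / (z - z₀), bump_ne z₀, ?_⟩
  intro V h χ hV hz₀ hh hχ hs hsV h1
  rw [← kernel_integral_eq hχ hs (contDiff_bump z₀) (bump_support z₀) h1 (bump_one z₀)]
  set G : ℂ → ℂ := fun z => χ z * dslope h z₀ z with hGdef
  have hds : DifferentiableOn ℂ (dslope h z₀) V :=
    (Complex.differentiableOn_dslope (hV.mem_nhds hz₀)).2 hh
  have hG : ContDiff ℝ 1 G := by
    rw [contDiff_iff_contDiffAt]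
    intro z
    by_cases hz : z ∈ tsupport χ
    · have ha : ContDiffAt ℂ 1 (dslope h z₀) z :=
        (hds.analyticAt (hV.mem_nhds (hsV hz))).contDiffAt
      exact hχ.contDiffAt.mul (ha.restrict_scalars ℝ)
    · have : G =ᶠ[𝓝 z] fun _ => 0 := by
        filter_upwards [(notMem_tsupport_iff_eventuallyEq.1 hz)] with w hw
        simp only [hGdef]
        rw [hw]
        simp
      exact contDiffAt_const.congr_of_eventuallyEq this
  have hGs : HasCompactSupport G := hs.mul_right
  have hint := integral_dbar hG hGs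
  have hIG := integrable_dbar hG hGs
  have hpt : dbar G = fun z => h z * (dbar χ z / (z - z₀)) - h z₀ * (dbar χ z / (z - z₀)) := by
    funext z
    by_cases hz : z ∈ tsupport χ
    · have hd : DifferentiableAt ℂ (dslope h z₀) z :=
        hds.differentiableAt (hV.mem_nhds (hsV hz))
      rw [hGdef, dbar_mul (hχ.differentiable one_ne_zero z) hd]
      by_cases hzz : z = z₀
      · subst hzz
        have : dbar χ z = 0 := by
          rw [dbar_congr (h := fun _ => 1) h1, dbar_const]
        rw [this]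
        simp
      · rw [dslope_of_ne _ hzz, slope_def_field]
        have := sub_ne_zero.2 hzz
        field_simp
    · have h2 : dbar χ z = 0 := dbar_eq_zero_of_notMem_tsupport hz
      have h3 : dbar G z = 0 := by
        have : G =ᶠ[𝓝 z] fun _ => 0 := by
          filter_upwards [(notMem_tsupport_iff_eventuallyEq.1 hz)] with w hw
          simp only [hGdef]
          rw [hw]
          simp
        rw [dbar_congr this, dbar_const]
      rw [h2, h3]
      simp
  have hB : Integrable fun z => h z₀ * (dbar χ z / (z - z₀)) := (kernel_integrable hχ hs h1).const_mul _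
  have hA : Integrable fun z => h z * (dbar χ z / (z - z₀)) := by
    have := hIG.add hB
    refine this.congr (Eventually.of_forall fun z => ?_)
    show dbar G z + h z₀ * (dbar χ z / (z - z₀)) = _
    rw [hpt]
    ring
  rw [hpt, integral_sub hA hB, integral_const_mul] at hint
  exact (sub_eq_zero.1 hint).symm

end Pool.Agent.MP83fe1a
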