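import Pool.Agent.MP83fe1a.Cover
import Pool.Agent.MP83fe1a.Pompeiu

set_option autoImplicit false

open Set Filter Topology MeasureTheory

namespace Pool.Agent.MP83fe1a

theorem S_hasDerivAt (x : ℝ) : HasDerivAt Real.smoothTransition (deriv Real.smoothTransition x) x :=
  ((Real.smoothTransition.contDiff (n := 1)).differentiable one_ne_zero _).hasDerivAt

theorem deriv_S_of_one_lt {x : ℝ} (hx : 1 < x) : deriv Real.smoothTransition x = 0 := by
  have : Real.smoothTransition =ᶠ[𝓝 x] fun _ => 1 := by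
    filter_upwards [lt_mem_nhds hx] with y hy
    exact Real.smoothTransition.one_of_one_le hy.le
  rw [this.deriv_eq, deriv_const]

theorem deriv_S_of_neg {x : ℝ} (hx : x < 0) : deriv Real.smoothTransition x = 0 := by
  have : Real.smoothTransition =ᶠ[𝓝 x] fun _ => 0 := by
    filter_upwards [gt_mem_nhds hx] with y hy
    exact Real.smoothTransition.zero_of_nonpos hy.le
  rw [this.deriv_eq, deriv_const]

theorem exists_K : ∃ K : ℝ, 0 < K ∧ ∀ x, |deriv Real.smoothTransition x| ≤ K := by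
  have hcd : Continuous (deriv Real.smoothTransition) :=
    (Real.smoothTransition.contDiff (n := 1)).continuous_deriv le_rfl
  obtain ⟨K, hK⟩ := (isCompact_Icc (a := (0 : ℝ)) (b := 1)).exists_bound_of_continuousOn
    hcd.continuousOn
  refine ⟨max K 1, by positivity, fun x => ?_⟩
  rcases lt_or_ge x 0 with h | h
  · rw [deriv_S_of_neg h, abs_zero]; positivity
  rcases lt_or_ge 1 x with h1 | h1
  · rw [deriv_S_of_one_lt h1, abs_zero]; positivity
  · exact (hK x ⟨h, h1⟩).trans (le_max_left _ _)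

theorem hasFDerivAt_norm_sq_comp {φ : ℂ → ℂ} {L : ℂ →L[ℝ] ℂ} {z : ℂ} (h : HasFDerivAt φ L z) :
    ∃ L' : ℂ →L[ℝ] ℝ, HasFDerivAt (fun w => ‖φ w‖ ^ 2) L' z ∧ ‖L'‖ ≤ 2 * ‖φ z‖ * ‖L‖ := by
  refine ⟨(2 : ℕ) • (innerSL ℝ (φ z)).comp L, h.norm_sq, ?_⟩
  have h1 : ‖(innerSL ℝ (φ z)).comp L‖ ≤ ‖φ z‖ * ‖L‖ := by
    refine (ContinuousLinearMap.opNorm_comp_le _ _).trans ?_
    rw [innerSL_apply_norm]
  rw [two_nsmul]
  refine (norm_add_le _ _).trans ?_
  linarith

/-- the building block -/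
theorem bump_p {p : ℂ} {r : ℝ} (hr : 0 < r) {K : ℝ} (hK : ∀ x, |deriv Real.smoothTransition x| ≤ K) (z : ℂ) :
    ∃ L : ℂ →L[ℝ] ℝ, HasFDerivAt (fun w : ℂ => Real.smoothTransition (4 - ‖w - p‖ ^ 2 / r ^ 2)) L z ∧
      ‖L‖ ≤ (4 * K / r) * (Metric.closedBall p (2 * r)).indicator 1 z := by
  have h1 : HasFDerivAt (fun w : ℂ => w - p) (ContinuousLinearMap.id ℝ ℂ) z :=
    (hasFDerivAt_id z).sub_const p
  obtain ⟨L', hL', hL'n⟩ := hasFDerivAt_norm_sq_comp h1
  have h2 : HasFDerivAt (fun w : ℂ => 4 - ‖w - p‖ ^ 2 / r ^ 2) (-((r ^ 2)⁻¹ • L')) z := by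
    have h3 := (hL'.const_mul (r ^ 2)⁻¹).const_sub 4
    refine h3.congr_of_eventuallyEq (Eventually.of_forall fun w => ?_)
    show 4 - ‖w - p‖ ^ 2 / r ^ 2 = 4 - (r ^ 2)⁻¹ * ‖w - p‖ ^ 2
    ring
  have h3 := (S_hasDerivAt (4 - ‖z - p‖ ^ 2 / r ^ 2)).comp_hasFDerivAt z h2
  refine ⟨_, h3, ?_⟩
  by_cases hz : z ∈ Metric.closedBall p (2 * r)
  · rw [indicator_of_mem hz]
    rw [Metric.mem_closedBall, dist_eq_norm] at hz
    rw [norm_smul, norm_neg, norm_smul, norm_inv, norm_pow, Real.norm_eq_abs, Real.norm_eq_abs,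
      abs_of_pos hr]
    have hL : ‖L'‖ ≤ 2 * (2 * r) := by
      refine hL'n.trans ?_
      have := ContinuousLinearMap.norm_id_le (𝕜 := ℝ) (E := ℂ)
      have h0 := norm_nonneg (z - p)
      nlinarith
    have hKx := hK (4 - ‖z - p‖ ^ 2 / r ^ 2)
    have hK0 : 0 ≤ K := (abs_nonneg _).trans hKx
    calc |deriv Real.smoothTransition (4 - ‖z - p‖ ^ 2 / r ^ 2)| * ((r ^ 2)⁻¹ * ‖L'‖)
        ≤ K * ((r ^ 2)⁻¹ * (2 * (2 * r))) := by gcongr
      _ = 4 * K / r * (1 : ℂ → ℝ) z := by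
          rw [Pi.one_apply]; field_simp; ring
  · rw [indicator_of_notMem hz]
    rw [Metric.mem_closedBall, dist_eq_norm, not_le] at hz
    have : 4 - ‖z - p‖ ^ 2 / r ^ 2 < 0 := by
      have h4 : (2 * r) ^ 2 < ‖z - p‖ ^ 2 := pow_lt_pow_left₀ hz (by positivity) two_ne_zero
      rw [sub_neg, lt_div_iff₀ (by positivity)]
      linarith
    rw [deriv_S_of_neg this]
    simp

/-- the cutoff near a finite set of points -/
noncomputable def kap (J : Finset ℂ) (r : ℝ) (z : ℂ) : ℝ :=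
  Real.smoothTransition (1 - ∑ p ∈ J, Real.smoothTransition (4 - ‖z - p‖ ^ 2 / r ^ 2))

theorem kap_contDiff (J : Finset ℂ) (r : ℝ) : ContDiff ℝ 1 (kap J r) := by
  unfold kap
  refine (Real.smoothTransition.contDiff (n := 1)).comp ?_
  refine contDiff_const.sub ?_
  refine ContDiff.sum fun p _ => ?_
  refine (Real.smoothTransition.contDiff (n := 1)).comp ?_
  exact contDiff_const.sub (((contDiff_id.sub contDiff_const).norm_sq ℝ).div_const _)

theorem kap_fderiv (J : Finset ℂ) {r : ℝ} (hr : 0 < r) {K : ℝ} (hK : ∀ x, |deriv Real.smoothTransition x| ≤ K) (z : ℂ) :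
    ‖fderiv ℝ (kap J r) z‖ ≤
      K * (4 * K / r) * ∑ p ∈ J, (Metric.closedBall p (2 * r)).indicator 1 z := by
  have hex : ∀ p : ℂ, ∃ L : ℂ →L[ℝ] ℝ, HasFDerivAt (fun w : ℂ => Real.smoothTransition (4 - ‖w - p‖ ^ 2 / r ^ 2)) L z ∧
      ‖L‖ ≤ (4 * K / r) * (Metric.closedBall p (2 * r)).indicator 1 z := fun p => bump_p hr hK z
  choose L hL hLn using hex
  have h1 : HasFDerivAt (fun w : ℂ => ∑ p ∈ J, Real.smoothTransition (4 - ‖w - p‖ ^ 2 / r ^ 2)) (∑ p ∈ J, L p) z :=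
    HasFDerivAt.fun_sum fun p _ => hL p
  have h2 := h1.const_sub 1
  have h3 := (S_hasDerivAt (1 - ∑ p ∈ J, Real.smoothTransition (4 - ‖z - p‖ ^ 2 / r ^ 2))).comp_hasFDerivAt z h2
  have h4 : fderiv ℝ (kap J r) z = _ := h3.fderiv
  rw [h4, norm_smul, norm_neg, Real.norm_eq_abs, mul_assoc]
  have hK0 : 0 ≤ K := (abs_nonneg _).trans (hK 0)
  refine mul_le_mul (hK _) ?_ (norm_nonneg _) hK0
  refine (norm_sum_le _ _).trans ?_
  rw [Finset.mul_sum]
  exact Finset.sum_le_sum fun p _ => hLn p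

namespace Dat

variable (D : Dat)

/-- the cutoff in terms of `f` -/
noncomputable def alp (z : ℂ) : ℝ := Real.smoothTransition ((16 - ‖D.f z‖ ^ 2) / 7)

theorem alp_contDiffAt {z : ℂ} (hz : z ∈ D.O) : ContDiffAt ℝ 1 D.alp z := by
  unfold alp
  have hf : ContDiffAt ℂ 1 D.f z := (D.differentiableOn_f.analyticAt (D.isOpen_O.mem_nhds hz)).contDiffAt
  have hf' : ContDiffAt ℝ 1 D.f z := hf.restrict_scalars ℝ
  have h1 : ContDiffAt ℝ 1 (fun w => (16 - ‖D.f w‖ ^ 2) / 7) z :=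
    (contDiffAt_const.sub (hf'.norm_sq ℝ)).div_const _
  exact ContDiffAt.comp z (Real.smoothTransition.contDiffAt (n := 1)) h1

theorem alp_fderiv {z : ℂ} (hz : z ∈ D.O) {K : ℝ} (hK : ∀ x, |deriv Real.smoothTransition x| ≤ K) :
    ‖fderiv ℝ D.alp z‖ ≤ 2 * K * D.W.indicator (fun z => ‖deriv D.f z‖) z := by
  have hf : HasDerivAt D.f (deriv D.f z) z :=
    (D.differentiableOn_f.differentiableAt (D.isOpen_O.mem_nhds hz)).hasDerivAt
  have h1 : HasFDerivAt D.f (((1 : ℂ →L[ℂ] ℂ).smulRight (deriv D.f z)).restrictScalars ℝ) z :=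
    hf.hasFDerivAt.restrictScalars ℝ
  have hLn : ‖((1 : ℂ →L[ℂ] ℂ).smulRight (deriv D.f z)).restrictScalars ℝ‖ ≤ ‖deriv D.f z‖ := by
    rw [ContinuousLinearMap.norm_restrictScalars, ContinuousLinearMap.norm_smulRight_apply]
    simp
  obtain ⟨L', hL', hL'n⟩ := hasFDerivAt_norm_sq_comp h1
  have h2 : HasFDerivAt (fun w : ℂ => (16 - ‖D.f w‖ ^ 2) / 7) (-((7 : ℝ)⁻¹ • L')) z := by
    have h3 := (hL'.const_mul (7 : ℝ)⁻¹).const_sub (16 / 7)
    refine h3.congr_of_eventuallyEq (Eventually.of_forall fun w => ?_)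
    show (16 - ‖D.f w‖ ^ 2) / 7 = 16 / 7 - 7⁻¹ * ‖D.f w‖ ^ 2
    ring
  have h3 := (S_hasDerivAt ((16 - ‖D.f z‖ ^ 2) / 7)).comp_hasFDerivAt z h2
  have h4 : fderiv ℝ D.alp z = _ := h3.fderiv
  rw [h4]
  by_cases hW : z ∈ D.W
  · rw [indicator_of_mem hW, norm_smul, norm_neg, norm_smul, norm_inv, Real.norm_ofNat,
      Real.norm_eq_abs]
    have hKx := hK ((16 - ‖D.f z‖ ^ 2) / 7)
    have hK0 : 0 ≤ K := (abs_nonneg _).trans hKx
    have h5 : ‖L'‖ ≤ 8 * ‖deriv D.f z‖ := by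
      refine hL'n.trans ?_
      have h6 : 2 * ‖D.f z‖ ≤ 8 := by linarith [hW.2.2]
      exact mul_le_mul h6 hLn (norm_nonneg _) (by norm_num)
    calc |deriv Real.smoothTransition ((16 - ‖D.f z‖ ^ 2) / 7)| * (7⁻¹ * ‖L'‖) ≤ K * (7⁻¹ * (8 * ‖deriv D.f z‖)) := by
          gcongr
      _ ≤ 2 * K * ‖deriv D.f z‖ := by
          have := mul_nonneg hK0 (norm_nonneg (deriv D.f z))
          nlinarith
  · rw [indicator_of_notMem hW, mul_zero]
    have : deriv Real.smoothTransition ((16 - ‖D.f z‖ ^ 2) / 7) = 0 := by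
      rcases lt_or_ge ‖D.f z‖ 3 with h3 | h3
      · apply deriv_S_of_one_lt
        have : ‖D.f z‖ ^ 2 < 3 ^ 2 := pow_lt_pow_left₀ h3 (norm_nonneg _) two_ne_zero
        rw [lt_div_iff₀ (by norm_num)]
        linarith
      · have h4 : 4 < ‖D.f z‖ := by
          by_contra hcon
          exact hW ⟨hz, h3, not_lt.1 hcon⟩
        apply deriv_S_of_neg
        have : 4 ^ 2 < ‖D.f z‖ ^ 2 := pow_lt_pow_left₀ h4 (by norm_num) two_ne_zero
        rw [div_neg_iff]
        right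
        constructor <;> linarith
    rw [this, zero_smul, norm_zero]

theorem alp_zero {z : ℂ} (h : 4 ≤ ‖D.f z‖) : D.alp z = 0 := by
  unfold alp
  apply Real.smoothTransition.zero_of_nonpos
  have : 4 ^ 2 ≤ ‖D.f z‖ ^ 2 := pow_le_pow_left₀ (by norm_num) h 2
  rw [div_le_iff₀ (by norm_num)]
  linarith

theorem alp_one {z : ℂ} (h : ‖D.f z‖ ≤ 3) : D.alp z = 1 := by
  unfold alp
  apply Real.smoothTransition.one_of_one_le
  have : ‖D.f z‖ ^ 2 ≤ 3 ^ 2 := pow_le_pow_left₀ (norm_nonneg _) h 2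
  rw [le_div_iff₀ (by norm_num)]
  linarith

open scoped Classical in
/-- the cutoff function -/
noncomputable def chi (J : Finset ℂ) (r : ℝ) (z : ℂ) : ℝ :=
  if z ∈ D.O then D.alp z * kap J r z else 0

theorem kap_near {J : Finset ℂ} {r : ℝ} (hr : 0 < r) {z p : ℂ} (hp : p ∈ J) (hz : ‖z - p‖ < r) :
    kap J r z = 0 := by
  unfold kap
  apply Real.smoothTransition.zero_of_nonpos
  have h1 : Real.smoothTransition (4 - ‖z - p‖ ^ 2 / r ^ 2) = 1 := by
    apply Real.smoothTransition.one_of_one_le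
    have : ‖z - p‖ ^ 2 / r ^ 2 ≤ 1 := by
      rw [div_le_one (by positivity)]
      exact pow_le_pow_left₀ (norm_nonneg _) hz.le 2
    linarith
  have h2 := Finset.single_le_sum (f := fun p => Real.smoothTransition (4 - ‖z - p‖ ^ 2 / r ^ 2)) (s := J)
    (fun _ _ => Real.smoothTransition.nonneg _) hp
  simp only [h1] at h2
  linarith

theorem kap_far {J : Finset ℂ} {r : ℝ} (hr : 0 < r) {z : ℂ} (hz : ∀ p ∈ J, 2 * r ≤ ‖z - p‖) :
    kap J r z = 1 := by
  unfold kap
  have : ∑ p ∈ J, Real.smoothTransition (4 - ‖z - p‖ ^ 2 / r ^ 2) = 0 := by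
    refine Finset.sum_eq_zero fun p hp => ?_
    apply Real.smoothTransition.zero_of_nonpos
    have h4 : (2 * r) ^ 2 ≤ ‖z - p‖ ^ 2 := pow_le_pow_left₀ (by positivity) (hz p hp) 2
    rw [sub_nonpos, le_div_iff₀ (by positivity)]
    linarith
  rw [this, sub_zero]
  exact Real.smoothTransition.one

theorem isOpen_Wn (n : ℕ) : IsOpen (D.Wn n) := by
  rw [isOpen_iff_mem_nhds]
  intro z hz
  have h1 := D.eventually_de_ne hz.1
  have h2 : ContinuousAt (fun w => ‖D.F n w - D.g n‖) z :=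
    ((D.continuousAt_F hz.1).sub continuousAt_const).norm
  filter_upwards [h1, h2.eventually (gt_mem_nhds hz.2)] with w hw1 hw2
  exact ⟨hw1, hw2⟩

theorem chi_near_closure {N : ℕ} {J : Finset ℂ} {r : ℝ} (hr : 0 < r)
    (hJ : ∀ z ∈ closure D.P, (∀ n < N, z ∉ D.Wn n) → ∃ p ∈ J, ‖z - p‖ < r) {z : ℂ}
    (hz : z ∉ D.O) : D.chi J r =ᶠ[𝓝 z] fun _ => 0 := by
  have hzc : z ∈ closure D.P := not_not.1 hz
  by_cases h : ∀ n < N, z ∉ D.Wn n
  · obtain ⟨p, hp, hpz⟩ := hJ z hzc h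
    have hev : ∀ᶠ w in 𝓝 z, ‖w - p‖ < r :=
      (continuous_id.sub continuous_const).norm.continuousAt.eventually (gt_mem_nhds hpz)
    filter_upwards [hev] with w hw
    unfold chi
    split_ifs with h
    · rw [kap_near hr hp hw, mul_zero]
    · rfl
  · push Not at h
    obtain ⟨n, hn, hzn⟩ := h
    filter_upwards [(D.isOpen_Wn n).mem_nhds hzn] with w hw
    unfold chi
    split_ifs with h
    · have h1 := D.f_big_of_close (M := 6) (by norm_num) h hw.2
      rw [D.alp_zero (by norm_num at h1; linarith), zero_mul]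
    · rfl

theorem chi_near_O (J : Finset ℂ) (r : ℝ) {z : ℂ} (hz : z ∈ D.O) :
    D.chi J r =ᶠ[𝓝 z] fun w => D.alp w * kap J r w := by
  filter_upwards [D.isOpen_O.mem_nhds hz] with w hw
  unfold chi
  rw [if_pos hw]

/-- The cutoff function. -/
theorem exists_cutoff : ∃ K₁ K₂ : ℝ, 0 < K₁ ∧ 0 < K₂ ∧ ∀ (N : ℕ) (J : Finset ℂ) (r : ℝ), 0 < r →
    (∀ z ∈ closure D.P, (∀ n < N, z ∉ D.Wn n) → ∃ p ∈ J, ‖z - p‖ < r) →
    ∃ χ : ℂ → ℂ, ContDiff ℝ 1 χ ∧ HasCompactSupport χ ∧ tsupport χ ⊆ D.V ∧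
      (∀ z, z ∈ D.O → ‖D.f z‖ < 3 → (∀ p ∈ J, 2 * r < ‖z - p‖) → ∀ᶠ w in 𝓝 z, χ w = 1) ∧
      ∀ z, ‖dbar χ z‖ ≤ K₁ * D.W.indicator (fun z => ‖deriv D.f z‖) z +
        K₂ / r * ∑ p ∈ J, (Metric.closedBall p (2 * r)).indicator 1 z := by
  obtain ⟨K, hK0, hK⟩ := exists_K
  refine ⟨4 * K, 8 * K * K, by positivity, by positivity, ?_⟩
  intro N J r hr hJ
  set χ : ℂ → ℂ := fun z => ((D.chi J r z : ℝ) : ℂ) with hχ
  have hcd : ContDiff ℝ 1 (D.chi J r) := by
    rw [contDiff_iff_contDiffAt]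
    intro z
    by_cases hz : z ∈ D.O
    · exact ((D.alp_contDiffAt hz).mul (kap_contDiff J r).contDiffAt).congr_of_eventuallyEq
        (D.chi_near_O J r hz)
    · exact contDiffAt_const.congr_of_eventuallyEq (D.chi_near_closure hr hJ hz)
  have hcdχ : ContDiff ℝ 1 χ := Complex.ofRealCLM.contDiff.comp hcd
  have hsub : tsupport χ ⊆ D.V := by
    intro z hz
    by_contra hzV
    apply notMem_tsupport_iff_eventuallyEq.2 _ hz
    have hreal : D.chi J r =ᶠ[𝓝 z] fun _ => 0 := by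
      by_cases hzO : z ∈ D.O
      · have h8 : 8 ≤ ‖D.f z‖ := by
          by_contra hcon
          exact hzV ⟨hzO, not_le.1 hcon⟩
        have hev : ∀ᶠ w in 𝓝 z, 4 < ‖D.f w‖ :=
          (D.continuousAt_f hzO).norm.eventually (lt_mem_nhds (by linarith))
        filter_upwards [hev] with w hw
        unfold chi
        split_ifs
        · rw [D.alp_zero hw.le, zero_mul]
        · rfl
      · exact D.chi_near_closure hr hJ hzO
    filter_upwards [hreal] with w hw
    simp [hχ, hw]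
  refine ⟨χ, hcdχ, ?_, hsub, ?_, ?_⟩
  · refine HasCompactSupport.of_support_subset_isCompact (isCompact_closedBall (0 : ℂ) 9) ?_
    intro z hz
    have hzV : z ∈ D.V := hsub (subset_tsupport _ hz)
    rw [mem_closedBall_zero_iff]
    have := D.norm_lt_of_f_le hzV.1 (r := 8) (by norm_num) hzV.2.le
    linarith
  · intro z hz h3 hp
    have e1 : ∀ᶠ w in 𝓝 z, ‖D.f w‖ < 3 := (D.continuousAt_f hz).norm.eventually (gt_mem_nhds h3)
    have e2 : ∀ᶠ w in 𝓝 z, ∀ p ∈ J, 2 * r < ‖w - p‖ := by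
      rw [eventually_all_finset]
      intro p hpJ
      exact (continuous_id.sub continuous_const).norm.continuousAt.eventually (lt_mem_nhds (hp p hpJ))
    filter_upwards [e1, e2, D.isOpen_O.mem_nhds hz] with w hw1 hw2 hw3
    simp only [hχ]
    unfold chi
    rw [if_pos hw3, D.alp_one hw1.le, kap_far hr fun p hp => (hw2 p hp).le]
    simp
  · intro z
    have hrhs : 0 ≤ 4 * K * D.W.indicator (fun z => ‖deriv D.f z‖) z +
        8 * K * K / r * ∑ p ∈ J, (Metric.closedBall p (2 * r)).indicator 1 z := by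
      refine add_nonneg (mul_nonneg (by positivity) (indicator_nonneg (fun _ _ => norm_nonneg _) _))
        (mul_nonneg (by positivity) (Finset.sum_nonneg fun p _ =>
          indicator_nonneg (fun _ _ => zero_le_one) _))
    by_cases hz : z ∈ D.O
    · have hd : HasFDerivAt (D.chi J r) (fderiv ℝ (D.chi J r) z) z :=
        (hcd.differentiable one_ne_zero z).hasFDerivAt
      have hdχ : fderiv ℝ χ z = Complex.ofRealCLM.comp (fderiv ℝ (D.chi J r) z) :=
        (Complex.ofRealCLM.hasFDerivAt.comp z hd).fderiv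
      have h1 : ‖dbar χ z‖ ≤ 2 * ‖fderiv ℝ (D.chi J r) z‖ := by
        unfold dbar
        rw [hdχ]
        simp only [ContinuousLinearMap.comp_apply, Complex.ofRealCLM_apply]
        refine (norm_add_le _ _).trans ?_
        rw [norm_mul, Complex.norm_I, one_mul, Complex.norm_real, Complex.norm_real]
        have h2 := (fderiv ℝ (D.chi J r) z).le_opNorm 1
        have h3 := (fderiv ℝ (D.chi J r) z).le_opNorm Complex.I
        rw [norm_one, mul_one] at h2
        rw [Complex.norm_I, mul_one] at h3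
        linarith
      have h2 : ‖fderiv ℝ (D.chi J r) z‖ ≤ ‖fderiv ℝ (kap J r) z‖ + ‖fderiv ℝ D.alp z‖ := by
        rw [(D.chi_near_O J r hz).fderiv_eq]
        have ha := ((D.alp_contDiffAt hz).differentiableAt one_ne_zero).hasFDerivAt
        have hk := ((kap_contDiff J r).differentiable one_ne_zero z).hasFDerivAt
        have hm := (ha.mul hk).fderiv
        have hm' : fderiv ℝ (fun w => D.alp w * kap J r w) z = _ := hm
        rw [hm']
        refine (norm_add_le _ _).trans (add_le_add ?_ ?_)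
        · rw [norm_smul, Real.norm_eq_abs]
          have : |D.alp z| ≤ 1 := by
            unfold alp
            rw [abs_of_nonneg (Real.smoothTransition.nonneg _)]
            exact Real.smoothTransition.le_one _
          exact mul_le_of_le_one_left (norm_nonneg _) this
        · rw [norm_smul, Real.norm_eq_abs]
          have : |kap J r z| ≤ 1 := by
            unfold kap
            rw [abs_of_nonneg (Real.smoothTransition.nonneg _)]
            exact Real.smoothTransition.le_one _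
          exact mul_le_of_le_one_left (norm_nonneg _) this
      have h3 := kap_fderiv J hr hK z
      have h4 := D.alp_fderiv hz hK
      calc ‖dbar χ z‖ ≤ 2 * (‖fderiv ℝ (kap J r) z‖ + ‖fderiv ℝ D.alp z‖) := by linarith
        _ ≤ 2 * (K * (4 * K / r) * ∑ p ∈ J, (Metric.closedBall p (2 * r)).indicator 1 z +
            2 * K * D.W.indicator (fun z => ‖deriv D.f z‖) z) := by linarith
        _ = _ := by ring
    · have h1 : χ =ᶠ[𝓝 z] fun _ => 0 := by
        filter_upwards [D.chi_near_closure hr hJ hz] with w hw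
        simp [hχ, hw]
      rw [dbar_congr h1, dbar_const, norm_zero]
      exact hrhs

end Dat

end Pool.Agent.MP83fe1a
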