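import Pool.Agent.MP83fe1a.Limit

set_option autoImplicit false

open Set Filter Topology

namespace Pool.Agent.MP83fe1a

namespace Dat

variable (D : Dat)

/-- The domain. -/
def V : Set ℂ := {z | z ∈ D.O ∧ ‖D.f z‖ < 8}

theorem V_subset_O : D.V ⊆ D.O := fun _ h => h.1

theorem continuousOn_f : ContinuousOn D.f D.O := D.differentiableOn_f.continuousOn

theorem continuousAt_f {z : ℂ} (hz : z ∈ D.O) : ContinuousAt D.f z :=
  D.continuousOn_f.continuousAt (D.isOpen_O.mem_nhds hz)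

theorem isOpen_V : IsOpen D.V := by
  have h := D.continuousOn_f.norm.isOpen_inter_preimage D.isOpen_O (isOpen_Iio (a := (8 : ℝ)))
  exact h

/-- far away `f z` is close to `z` -/
theorem f_sub_self {z : ℂ} (hz : z ∈ D.O) (h2 : 2 ≤ ‖z‖) : ‖D.f z - z‖ ≤ 2 * tau 0 := by
  have := D.escape_f (n := 0) hz (by rw [D.F_zero]; exact h2)
  rwa [D.F_zero] at this

theorem norm_lt_of_f_le {z : ℂ} (hz : z ∈ D.O) {r : ℝ} (hr : 2 ≤ r) (h : ‖D.f z‖ ≤ r) :
    ‖z‖ < r + 1 := by
  rcases lt_or_ge ‖z‖ 2 with h2 | h2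
  · linarith
  · have h3 := D.f_sub_self hz h2
    have h4 := tau_le 0
    have h5 : ‖z‖ ≤ ‖D.f z‖ + ‖D.f z - z‖ := by
      have : z = D.f z - (D.f z - z) := by ring
      calc ‖z‖ = ‖D.f z - (D.f z - z)‖ := by rw [← this]
        _ ≤ _ := norm_sub_le _ _
    linarith

theorem isBounded_V : Bornology.IsBounded D.V := by
  refine (Metric.isBounded_ball (x := (0 : ℂ)) (r := 9)).subset ?_
  intro z hz
  rw [mem_ball_zero_iff]
  have := D.norm_lt_of_f_le hz.1 (r := 8) (by norm_num) hz.2.le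
  linarith

/-- near a pole `F_{n+1}` is big -/
theorem big_of_close {n : ℕ} {z : ℂ} {M : ℝ} (hM : 1 ≤ M) (hde : D.de (n + 1) z ≠ 0)
    (h : ‖D.F n z - D.g n‖ < eps n / M) : M - 1.001 ≤ ‖D.F (n + 1) z‖ := by
  obtain ⟨h1, h2⟩ := D.de_succ_ne.1 hde
  have h3 : 0 < ‖D.F n z - D.g n‖ := norm_pos_iff.2 (sub_ne_zero.2 h2)
  have hM0 : 0 < M := by linarith
  rw [D.F_succ hde]
  have h4 : M ≤ ‖(eps n : ℂ) / (D.F n z - D.g n)‖ := by
    rw [norm_div, Complex.norm_real, Real.norm_eq_abs, abs_of_pos (eps_pos n), le_div_iff₀ h3]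
    rw [lt_div_iff₀ hM0] at h
    linarith
  have h5 : ‖D.F n z‖ ≤ 1.001 := by
    have h6 : ‖D.F n z‖ ≤ ‖D.F n z - D.g n‖ + ‖(D.g n : ℂ)‖ := by
      have := norm_add_le (D.F n z - D.g n) (D.g n : ℂ)
      rwa [sub_add_cancel] at this
    have h7 := D.norm_g_le n
    have h8 := eps_le_one n
    have h9 : eps n / M ≤ eps n := div_le_self (eps_pos n).le hM
    linarith
  have h10 := norm_sub_norm_le ((eps n : ℂ) / (D.F n z - D.g n)) (D.F n z)
  rw [norm_sub_rev] at h10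
  linarith

theorem f_big_of_close {n : ℕ} {z : ℂ} {M : ℝ} (hM : 4 ≤ M) (hz : z ∈ D.O)
    (h : ‖D.F n z - D.g n‖ < eps n / M) : M - 1.01 < ‖D.f z‖ := by
  have h1 := D.big_of_close (by linarith) (D.de_ne (D.notMem_P_of_mem_O hz) (n + 1)) h
  have h2 := D.escape_f (n := n + 1) hz (by linarith)
  have h3 := tau_le (n + 1)
  have h4 : ‖D.F (n + 1) z‖ ≤ ‖D.f z‖ + ‖D.f z - D.F (n + 1) z‖ := by
    have : D.F (n + 1) z = D.f z - (D.f z - D.F (n + 1) z) := by ring
    calc ‖D.F (n + 1) z‖ = ‖D.f z - (D.f z - D.F (n + 1) z)‖ := by rw [← this]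
      _ ≤ _ := norm_sub_le _ _
  linarith

/-- every pole has a first stage -/
theorem exists_first {p : ℂ} (hp : p ∈ D.P) {N : ℕ} (hN : D.de N p ≠ 0) :
    ∃ n ≥ N, D.de n p ≠ 0 ∧ D.F n p = D.g n := by
  classical
  have hex : ∃ n, D.de n p = 0 := hp
  obtain ⟨m, hm, hmin⟩ : ∃ m, D.de m p = 0 ∧ ∀ k < m, D.de k p ≠ 0 :=
    ⟨Nat.find hex, Nat.find_spec hex, fun k hk => Nat.find_min hex hk⟩
  have hmN : N < m := by
    by_contra hcon
    push Not at hcon
    exact MP83fe1a.de_ne_of_le hcon hN hm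
  obtain ⟨n, rfl⟩ : ∃ n, m = n + 1 := ⟨m - 1, by omega⟩
  refine ⟨n, by omega, hmin n (by omega), ?_⟩
  by_contra h
  exact (D.de_succ_ne.2 ⟨hmin n (by omega), h⟩) hm

theorem continuousAt_F {n : ℕ} {z : ℂ} (h : D.de n z ≠ 0) : ContinuousAt (D.F n) z :=
  (D.hasDerivAt_F h).continuousAt

theorem eventually_de_ne {n : ℕ} {z : ℂ} (h : D.de n z ≠ 0) : ∀ᶠ w in 𝓝 z, D.de n w ≠ 0 :=
  (MP83fe1a.diff_de n).continuous.continuousAt.eventually_ne h

theorem eventually_close {n : ℕ} {p : ℂ} (hde : D.de n p ≠ 0) (hF : D.F n p = D.g n)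
    {r : ℝ} (hr : 0 < r) : ∀ᶠ z in 𝓝 p, D.de n z ≠ 0 ∧ ‖D.F n z - D.g n‖ < r := by
  have h1 := D.eventually_de_ne hde
  have h2 : ContinuousAt (fun z => ‖D.F n z - D.g n‖) p :=
    ((D.continuousAt_F hde).sub continuousAt_const).norm
  have h3 : ‖D.F n p - D.g n‖ < r := by rw [hF, sub_self, norm_zero]; exact hr
  filter_upwards [h1, h2.eventually (gt_mem_nhds h3)] with z hz1 hz2
  exact ⟨hz1, hz2⟩

/-- poles are away from `V`. -/
theorem pole_notMem_closure {p : ℂ} (hp : p ∈ D.P) : p ∉ closure D.V := by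
  obtain ⟨n, -, hde, hF⟩ := D.exists_first hp (N := 0) (by rw [D.de_zero]; exact one_ne_zero)
  intro hcl
  have h1 := D.eventually_close hde hF (r := eps n / 10) (div_pos (eps_pos n) (by norm_num))
  obtain ⟨z, ⟨hz1, hz2⟩, hzV⟩ := (mem_closure_iff_nhds.1 hcl) _ h1
  have h2 := D.f_big_of_close (M := 10) (by norm_num) hzV.1 hz2
  have h3 := hzV.2
  norm_num at h2
  linarith

/-- accumulation points of poles of growing stages are not poles -/
theorem exists_bdy : ∃ b, b ∈ closure D.P ∧ b ∉ D.P := by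
  have hex : ∀ n, ∃ p, D.de n p ≠ 0 ∧ D.F n p = D.g n := by
    intro n
    obtain ⟨p, hp⟩ := sols_nonempty (g := D.g) (ε := eps) n (D.g n)
    rw [mem_sols] at hp
    exact ⟨p, F_eq_of_nu_sub eps_pos hp⟩
  choose p hp1 hp2 using hex
  have hpP : ∀ n, p n ∈ D.P := by
    intro n
    refine ⟨n + 1, ?_⟩
    by_contra h
    exact (D.de_succ_ne.1 h).2 (hp2 n)
  have hcomp : IsCompact (closure D.P) :=
    (isCompact_closedBall (0 : ℂ) 2).of_isClosed_subset isClosed_closure D.closure_P_subset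
  obtain ⟨b, hb, φ, hφ, hlim⟩ := hcomp.tendsto_subseq (fun n => subset_closure (hpP n))
  refine ⟨b, hb, fun hbP => ?_⟩
  obtain ⟨m, -, hde, hF⟩ := D.exists_first hbP (N := 0) (by rw [D.de_zero]; exact one_ne_zero)
  have h1 := D.eventually_close hde hF (r := eps m / 4) (div_pos (eps_pos m) (by norm_num))
  have h2 := hlim.eventually h1
  obtain ⟨k, hk1, hk2⟩ := (h2.and (eventually_ge_atTop (m + 1))).exists
  have h3 : m + 1 ≤ φ k := hk2.trans (hφ.id_le k)
  have h4 : D.de (m + 1) (p (φ k)) ≠ 0 := MP83fe1a.de_ne_of_le h3 (hp1 (φ k))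
  have h5 := D.big_of_close (M := 4) (by norm_num) h4 hk1.2
  exact (D.escape h4 (by norm_num at h5; linarith)).1 (hpP _)

/-! ### reality on the real line -/

theorem real_nu_de {z : ℂ} (hz : z.im = 0) (n : ℕ) :
    (MP83fe1a.nu D.g eps n z).im = 0 ∧ (MP83fe1a.de D.g eps n z).im = 0 := by
  induction n with
  | zero => rw [MP83fe1a.nu_zero, MP83fe1a.de_zero]; exact ⟨hz, rfl⟩
  | succ n ih =>
    obtain ⟨h1, h2⟩ := ih
    rw [MP83fe1a.nu_succ, MP83fe1a.de_succ]
    constructor <;> simp [Complex.mul_im, Complex.sub_im, h1, h2, sq]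

theorem F_real {z : ℂ} (hz : z.im = 0) (n : ℕ) : (D.F n z).im = 0 := by
  obtain ⟨h1, h2⟩ := D.real_nu_de hz n
  show (MP83fe1a.nu D.g eps n z / MP83fe1a.de D.g eps n z).im = 0
  rw [Complex.div_im, h1, h2]
  simp

theorem one_le_dF {z : ℂ} (hz : z.im = 0) (n : ℕ) : 1 ≤ ‖D.dF n z‖ := by
  rw [dF, norm_prod]
  refine Finset.prod_induction (fun k => ‖1 + (eps k : ℂ) / (D.F k z - D.g k) ^ 2‖)
    (fun x => 1 ≤ x) (fun a b ha hb => one_le_mul_of_one_le_of_one_le ha hb) (le_refl _) ?_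
  intro k _
  have h1 : (D.F k z) = ((D.F k z).re : ℂ) := by
    apply Complex.ext <;> simp [D.F_real hz k]
  rw [h1]
  have h2 : (1 : ℂ) + (eps k : ℂ) / ((((D.F k z).re : ℝ) : ℂ) - D.g k) ^ 2 =
      ((1 + eps k / ((D.F k z).re - D.g k) ^ 2 : ℝ) : ℂ) := by push_cast; rfl
  rw [h2, Complex.norm_real, Real.norm_eq_abs]
  have h3 : 0 ≤ eps k / ((D.F k z).re - D.g k) ^ 2 := div_nonneg (eps_pos k).le (sq_nonneg _)
  rw [abs_of_nonneg (by linarith)]
  linarith

/-! ### Values near the poles -/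

/-- near a pole every moderate real value is taken by `F_{n+1}` -/
theorem exists_value {n : ℕ} {p : ℂ} (hp : p.im = 0) (hde : D.de n p ≠ 0) (hF : D.F n p = D.g n)
    (w' : ℝ) : ∃ x ∈ Metric.ball p (5 * Real.sqrt (eps n)), D.de (n + 1) x ≠ 0 ∧
      D.F (n + 1) x = w' := by
  by_contra hcon
  push Not at hcon
  set δ : ℝ := 5 * Real.sqrt (eps n) with hδdef
  have hδ : 0 < δ := by have := Real.sqrt_pos.2 (eps_pos n); positivity
  have hQ : ∀ z ∈ Metric.ball p δ, MP83fe1a.nu D.g eps (n + 1) z - w' * MP83fe1a.de D.g eps (n + 1) z ≠ 0 := by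
    intro z hz h0
    obtain ⟨h1, h2⟩ := F_eq_of_nu_sub eps_pos h0
    exact hcon z hz h1 h2
  set h : ℂ → ℂ := fun z => MP83fe1a.de D.g eps (n + 1) z /
    (MP83fe1a.nu D.g eps (n + 1) z - w' * MP83fe1a.de D.g eps (n + 1) z) with hh
  have hbound : ∀ z ∈ Metric.ball p (δ / 2), ‖h z‖ ≤ 6 / (δ / 2) := by
    intro z hz
    refine de_le eps_pos (half_pos hδ) ?_
    intro v hv
    apply hQ
    rw [Metric.mem_ball] at *
    calc dist v p ≤ dist v z + dist z p := dist_triangle _ _ _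
      _ < δ / 2 + δ / 2 := add_lt_add hv hz
      _ = δ := by ring
  have hdiff : DifferentiableOn ℂ h (Metric.ball p δ) := by
    refine DifferentiableOn.div (diff_de _).differentiableOn ?_ hQ
    exact ((diff_nu _).sub ((diff_de _).const_mul _)).differentiableOn
  -- derivative at p
  have hderiv : deriv h p = -(D.dF n p / eps n) := by
    have h1 : HasDerivAt (D.F n) (D.dF n p) p := D.hasDerivAt_F hde
    set φ : ℂ → ℂ := fun z => (D.F n z - D.g n) / ((D.F n z - w') * (D.F n z - D.g n) - eps n)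
      with hφ
    have hev : h =ᶠ[𝓝 p] φ := by
      filter_upwards [D.eventually_de_ne hde] with z hz
      have hz' : MP83fe1a.de D.g eps n z ≠ 0 := hz
      have e1 : MP83fe1a.nu D.g eps n z = MP83fe1a.de D.g eps n z * D.F n z := by
        show _ = MP83fe1a.de D.g eps n z * (MP83fe1a.nu D.g eps n z / MP83fe1a.de D.g eps n z)
        field_simp
      simp only [hh, hφ]
      rw [MP83fe1a.nu_succ, MP83fe1a.de_succ, e1]
      have e2 : MP83fe1a.de D.g eps n z * (MP83fe1a.de D.g eps n z * D.F n z -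
          (D.g n : ℂ) * MP83fe1a.de D.g eps n z) =
          MP83fe1a.de D.g eps n z ^ 2 * (D.F n z - D.g n) := by ring
      have e3 : MP83fe1a.de D.g eps n z * D.F n z * (MP83fe1a.de D.g eps n z * D.F n z -
          (D.g n : ℂ) * MP83fe1a.de D.g eps n z) - (eps n : ℂ) * MP83fe1a.de D.g eps n z ^ 2 -
          (w' : ℂ) * (MP83fe1a.de D.g eps n z * (MP83fe1a.de D.g eps n z * D.F n z -
          (D.g n : ℂ) * MP83fe1a.de D.g eps n z)) =
          MP83fe1a.de D.g eps n z ^ 2 * ((D.F n z - w') * (D.F n z - D.g n) - eps n) := by ring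
      rw [e3, e2, mul_div_mul_left _ _ (pow_ne_zero 2 hz')]
    have hφd : HasDerivAt φ (-(D.dF n p / eps n)) p := by
      have h2 : HasDerivAt (fun z => D.F n z - (D.g n : ℂ)) (D.dF n p) p := h1.sub_const _
      have h3 : HasDerivAt (fun z => D.F n z - (w' : ℂ)) (D.dF n p) p := h1.sub_const _
      have h4 := (h3.mul h2).sub_const (eps n : ℂ)
      have hε : (eps n : ℂ) ≠ 0 := by exact_mod_cast (eps_pos n).ne'
      have h5 := h2.div h4 (by
        simp only [Pi.mul_apply]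
        rw [hF, sub_self, mul_zero, zero_sub, neg_ne_zero]
        exact hε)
      refine h5.congr_deriv ?_
      simp only [Pi.mul_apply]
      rw [hF, sub_self, mul_zero, mul_zero, zero_mul, zero_sub, sub_zero, neg_sq]
      field_simp
    rw [hev.deriv_eq, hφd.deriv]
  have hR : (0 : ℝ) < 0.99 * (δ / 2) := by positivity
  have hC := Complex.norm_deriv_le_of_forall_mem_sphere_norm_le (f := h) (c := p) (C := 6 / (δ / 2))
    hR ?_ ?_
  · rw [hderiv, norm_neg, norm_div, Complex.norm_real, Real.norm_eq_abs,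
      abs_of_pos (eps_pos n)] at hC
    have h1 := D.one_le_dF hp n
    have h2 : 1 / eps n ≤ ‖D.dF n p‖ / eps n := div_le_div_of_nonneg_right h1 (eps_pos n).le
    have h3 := h2.trans hC
    have hsq : δ ^ 2 = 25 * eps n := by
      rw [hδdef, mul_pow, Real.sq_sqrt (eps_pos n).le]; norm_num
    rw [div_div, div_le_div_iff₀ (eps_pos n) (by positivity)] at h3
    have h4 : δ / 2 * (0.99 * (δ / 2)) = 0.99 / 4 * δ ^ 2 := by ring
    rw [h4, hsq] at h3
    have := eps_pos n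
    nlinarith
  · refine DifferentiableOn.diffContOnCl_ball hdiff ?_
    intro z hz
    rw [Metric.mem_closedBall] at hz
    rw [Metric.mem_ball]
    nlinarith
  · intro z hz
    apply hbound
    rw [mem_sphere_iff_norm] at hz
    rw [Metric.mem_ball, dist_eq_norm, hz]
    nlinarith

theorem dist_E_pos {w' : ℝ} (hw' : w' ∉ D.E) : ∃ d > 0, ∀ e ∈ D.E, d ≤ |w' - e| := by
  have h1 : IsOpen (D.E)ᶜ := D.hE.isClosed.isOpen_compl
  obtain ⟨d, hd, h⟩ := Metric.isOpen_iff.1 h1 w' hw'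
  refine ⟨d, hd, fun e he => ?_⟩
  by_contra hcon
  push Not at hcon
  have : e ∈ Metric.ball w' d := by
    rw [Metric.mem_ball, Real.dist_eq, abs_sub_comm]; exact hcon
  exact h this he

/-- cluster values at the non-pole points of the closure of the pole set -/
theorem cluster {b : ℂ} (hb : b ∈ closure D.P) (hbP : b ∉ D.P) {w' : ℝ} (hw' : w' ∉ D.E)
    (hw8 : |w'| < 8) {δ : ℝ} (hδ : 0 < δ) : ∃ x ∈ D.V, ‖x - b‖ < δ ∧ ‖D.f x - w'‖ < δ := by
  obtain ⟨d₀, hd₀, hdE⟩ := D.dist_E_pos hw'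
  set d := d₀ / 4 with hd
  have hdpos : 0 < d := by positivity
  have hη : 0 < min δ (8 - |w'|) := lt_min hδ (by linarith)
  have e1 : ∀ᶠ n in atTop, tau n < d ^ 2 := tau_tendsto.eventually (gt_mem_nhds (by positivity))
  have e2 : ∀ᶠ n in atTop, tau n < d * min δ (8 - |w'|) :=
    tau_tendsto.eventually (gt_mem_nhds (by positivity))
  have e3 : ∀ᶠ n in atTop, 5 * Real.sqrt (eps n) < δ / 2 := by
    have h1 : Tendsto (fun n : ℕ => ((1 / 8 : ℝ)) ^ n) atTop (𝓝 0) :=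
      tendsto_pow_atTop_nhds_zero_of_lt_one (by norm_num) (by norm_num)
    filter_upwards [h1.eventually (gt_mem_nhds (show (0 : ℝ) < δ by exact hδ))] with n hn
    have := sqrt_eps_le n
    linarith
  obtain ⟨N, hN⟩ := eventually_atTop.1 (e1.and (e2.and e3))
  -- a pole nearby
  have hdeb : D.de N b ≠ 0 := D.de_ne hbP N
  have hev := (D.eventually_de_ne hdeb).and (Metric.ball_mem_nhds b (half_pos hδ))
  obtain ⟨p, ⟨hp1, hp2⟩, hpP⟩ := (mem_closure_iff_nhds.1 hb) _ hev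
  obtain ⟨n, hn, hde, hF⟩ := D.exists_first hpP hp1
  obtain ⟨x, hx1, hx2, hx3⟩ := D.exists_value (D.P_real hpP) hde hF w'
  obtain ⟨t1, -⟩ := hN (n + 1) (by omega)
  obtain ⟨-, t2, -⟩ := hN (n + 1) (by omega)
  obtain ⟨-, -, t3⟩ := hN n (by omega)
  have hfarw : ∀ k, 4 * d ≤ ‖(w' : ℂ) - D.g k‖ := by
    intro k
    rw [← Complex.ofReal_sub, Complex.norm_real, Real.norm_eq_abs]
    have := hdE _ (D.hgE k)
    rw [hd]; linarith
  -- x is not in the closure of P
  have hxO : x ∈ D.O := by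
    intro hcl
    have h1 := D.eventually_de_ne hx2
    have h2 : ContinuousAt (fun z => ‖D.F (n + 1) z - w'‖) x :=
      ((D.continuousAt_F hx2).sub continuousAt_const).norm
    have h3 : ‖D.F (n + 1) x - w'‖ < d := by rw [hx3, sub_self, norm_zero]; exact hdpos
    obtain ⟨y, ⟨hy1, hy2⟩, hyP⟩ := (mem_closure_iff_nhds.1 hcl) _ (h1.and (h2.eventually (gt_mem_nhds h3)))
    refine D.drift_notMem_P hdpos hy1 ?_ t1.le hyP
    intro k _
    have h4 := hfarw k
    have h5 : ‖(w' : ℂ) - D.g k‖ ≤ ‖D.F (n + 1) y - D.g k‖ + ‖D.F (n + 1) y - w'‖ := by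
      have : (w' : ℂ) - D.g k = (D.F (n + 1) y - D.g k) - (D.F (n + 1) y - w') := by ring
      rw [this]
      exact norm_sub_le _ _
    have h6 : ‖D.F (n + 1) y - w'‖ < d := hy2
    linarith
  have hfx : ‖D.f x - w'‖ ≤ tau (n + 1) / d := by
    have := D.drift_f (n := n + 1) hxO hdpos (fun k _ => by
      rw [hx3]; have := hfarw k; linarith) t1.le
    rwa [hx3] at this
  have hfx' : ‖D.f x - w'‖ < min δ (8 - |w'|) := by
    refine hfx.trans_lt ?_
    rw [div_lt_iff₀ hdpos, mul_comm]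
    exact t2
  refine ⟨x, ⟨hxO, ?_⟩, ?_, hfx'.trans_le (min_le_left _ _)⟩
  · have h1 : ‖D.f x‖ ≤ ‖D.f x - w'‖ + ‖(w' : ℂ)‖ := by
      have := norm_add_le (D.f x - w') (w' : ℂ)
      rwa [sub_add_cancel] at this
    rw [Complex.norm_real, Real.norm_eq_abs] at h1
    have h2 := hfx'.trans_le (min_le_right _ _)
    linarith
  · rw [Metric.mem_ball, dist_eq_norm] at hx1
    have hp2' : ‖p - b‖ < δ / 2 := by
      have : p ∈ Metric.ball b (δ / 2) := hp2
      rwa [Metric.mem_ball, dist_eq_norm] at this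
    calc ‖x - b‖ = ‖(x - p) + (p - b)‖ := by congr 1; ring
      _ ≤ ‖x - p‖ + ‖p - b‖ := norm_add_le _ _
      _ < δ / 2 + δ / 2 := add_lt_add (hx1.trans t3) hp2'
      _ = δ := by ring

end Dat

end Pool.Agent.MP83fe1a
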