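import Pool.Agent.MP83fe1a.Cantor

set_option autoImplicit false

open Set Filter Topology MeasureTheory

namespace Pool.Agent.MP83fe1a

/-- auxiliary majorant -/
noncomputable def phiL (t : ℝ) : ENNReal :=
  (Icc (-1 : ℝ) 1).indicator (fun t => ENNReal.ofReal (-3 * Real.log t + Real.log 8)) t

theorem phiL_lintegral : ∫⁻ t, phiL t < ⊤ := by
  unfold phiL
  rw [lintegral_indicator measurableSet_Icc]
  have h1 : IntervalIntegrable Real.log volume (-1) 1 := intervalIntegral.intervalIntegrable_log'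
  have h2 : IntegrableOn Real.log (Icc (-1) 1) :=
    (intervalIntegrable_iff_integrableOn_Icc_of_le (by norm_num)).1 h1
  have h3 : Integrable (fun t => -3 * Real.log t + Real.log 8) (volume.restrict (Icc (-1) 1)) :=
    (h2.const_mul (-3)).add (integrable_const _)
  exact h3.lintegral_lt_top

theorem kernel_le {x y : ℝ} (hx : x ∈ Ico (0 : ℝ) 1) (hy : y ∈ Ico (0 : ℝ) 1) (hxy : y ≠ x) :
    (cf x : ℂ) ≠ cf y ∧ -Real.log ‖(cf x : ℂ) - cf y‖ ≤ -3 * Real.log (y - x) + Real.log 8 := by
  have key : |y - x| ^ 3 / 8 ≤ |cf x - cf y| := by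
    rcases lt_or_gt_of_ne hxy with h | h
    · have h1 := cf_lower hy.1 h hx.2
      rw [abs_of_neg (by linarith), neg_sub]
      exact h1.trans (le_abs_self _)
    · have h1 := cf_lower hx.1 h hy.2
      rw [abs_of_pos (by linarith)]
      refine h1.trans ?_
      rw [abs_sub_comm]
      exact le_abs_self _
  have hpos : 0 < |y - x| := abs_pos.2 (sub_ne_zero.2 hxy)
  have hpos2 : 0 < |y - x| ^ 3 / 8 := by positivity
  have hpos3 : 0 < |cf x - cf y| := hpos2.trans_le key
  have hnorm : ‖(cf x : ℂ) - cf y‖ = |cf x - cf y| := by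
    rw [← Complex.ofReal_sub, Complex.norm_real, Real.norm_eq_abs]
  refine ⟨?_, ?_⟩
  · intro h
    rw [h, sub_self, norm_zero] at hnorm
    linarith
  · rw [hnorm]
    have h1 := Real.log_le_log hpos2 key
    rw [Real.log_div (by positivity) (by norm_num), Real.log_pow, Real.log_abs] at h1
    push_cast at h1
    linarith

theorem exists_measure : ∃ μ : Measure ℂ, IsProbabilityMeasure μ ∧
    μ ((fun x : ℝ => (x : ℂ)) '' CE)ᶜ = 0 ∧
    ∫⁻ z, ∫⁻ w, (if z = w then ⊤ else ENNReal.ofReal (-Real.log ‖z - w‖)) ∂μ ∂μ < ⊤ := by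
  set lam : Measure ℝ := volume.restrict (Ico (0 : ℝ) 1) with hlam
  have hprob : lam univ = 1 := by
    rw [hlam, Measure.restrict_apply_univ, Real.volume_Ico]; simp
  set φ : ℝ → ℂ := fun x => (cf x : ℂ) with hφ
  have hφm : Measurable φ := Complex.measurable_ofReal.comp cf_mono.measurable
  refine ⟨lam.map φ, ?_, ?_, ?_⟩
  · constructor
    rw [Measure.map_apply hφm MeasurableSet.univ, preimage_univ, hprob]
  · have hK : IsCompact ((fun x : ℝ => (x : ℂ)) '' CE) := CE_compact.image Complex.continuous_ofReal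
    rw [Measure.map_apply hφm hK.isClosed.measurableSet.compl, hlam,
      Measure.restrict_apply (hφm hK.isClosed.measurableSet.compl)]
    have : φ ⁻¹' ((fun x : ℝ => (x : ℂ)) '' CE)ᶜ ∩ Ico 0 1 = ∅ := by
      rw [eq_empty_iff_forall_notMem]
      rintro x ⟨hx1, hx2⟩
      exact hx1 ⟨cf x, subset_closure ⟨x, hx2, rfl⟩, rfl⟩
    rw [this, measure_empty]
  · set k : ℂ → ℂ → ENNReal := fun z w => if z = w then ⊤ else ENNReal.ofReal (-Real.log ‖z - w‖) with hk
    set C := ∫⁻ t, phiL t with hC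
    have h1 : ∀ x ∈ Ico (0 : ℝ) 1, ∫⁻ y, k (φ x) (φ y) ∂lam ≤ C := by
      intro x hx
      have hae : ∀ᵐ y ∂lam, k (φ x) (φ y) ≤ phiL (y + -x) := by
        rw [hlam, ae_restrict_iff' measurableSet_Ico]
        have hne : ∀ᵐ y : ℝ, y ≠ x := by
          rw [ae_iff]
          simp
        filter_upwards [hne] with y hyx hy
        obtain ⟨e1, e2⟩ := kernel_le hx hy hyx
        simp only [hk, hφ]
        rw [if_neg e1]
        unfold phiL
        rw [indicator_of_mem]
        · exact ENNReal.ofReal_le_ofReal e2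
        · constructor
          · linarith [hx.2, hy.1]
          · linarith [hx.1, hy.2]
      calc ∫⁻ y, k (φ x) (φ y) ∂lam ≤ ∫⁻ y, phiL (y + -x) ∂lam := lintegral_mono_ae hae
        _ ≤ ∫⁻ y, phiL (y + -x) := by
            rw [hlam]; exact setLIntegral_le_lintegral _ _
        _ = C := lintegral_add_right_eq_self _ _
    calc ∫⁻ z, ∫⁻ w, k z w ∂(lam.map φ) ∂(lam.map φ)
        ≤ ∫⁻ x, ∫⁻ w, k (φ x) w ∂(lam.map φ) ∂lam := lintegral_map_le _ _
      _ ≤ ∫⁻ x, ∫⁻ y, k (φ x) (φ y) ∂lam ∂lam :=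
          lintegral_mono fun x => lintegral_map_le _ _
      _ ≤ ∫⁻ x, C ∂lam := by
          rw [hlam]
          refine setLIntegral_mono' measurableSet_Ico fun x hx => ?_
          rw [← hlam]
          exact h1 x hx
      _ = C := by rw [lintegral_const, hprob, mul_one]
      _ < ⊤ := phiL_lintegral

end Pool.Agent.MP83fe1a
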