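import Pool.Agent.MP83fe1a.Dom

set_option autoImplicit false

open Set Filter Topology

namespace Pool.Agent.MP83fe1a

namespace Dat

variable (D : Dat)

theorem mem_O_of_im {z : ℂ} (hz : z.im ≠ 0) : z ∈ D.O := fun h => hz (D.closure_P_real h)

theorem im_f {z : ℂ} (hz : z.im ≠ 0) : z.im ^ 2 ≤ z.im * (D.f z).im := by
  have h1 := D.tendsto_F (D.mem_O_of_im hz)
  have h2 : Tendsto (fun n => z.im * (D.F n z).im) atTop (𝓝 (z.im * (D.f z).im)) :=
    ((Complex.continuous_im.tendsto _).comp h1).const_mul _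
  exact ge_of_tendsto' h2 fun n => (MP83fe1a.im_F eps_pos hz n).2

/-- `f` is not locally constant. -/
theorem not_loc_const {b : ℂ} : ¬ ∀ᶠ z in 𝓝 b, D.f z = D.f b := by
  intro h
  set c := D.f b with hc
  by_cases hb : b.im = 0
  · obtain ⟨δ, hδ, hball⟩ := Metric.eventually_nhds_iff.1 h
    have key : ∀ t : ℝ, |t| < δ → t ≠ 0 → t ^ 2 ≤ t * c.im := by
      intro t ht ht0
      have h1 : dist (b + t * Complex.I) b < δ := by
        rw [dist_eq_norm, add_sub_cancel_left, norm_mul, Complex.norm_I, mul_one,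
          Complex.norm_real, Real.norm_eq_abs]
        exact ht
      have h2 := hball h1
      have him : (b + t * Complex.I).im = t := by simp [hb]
      have h3 := D.im_f (z := b + t * Complex.I) (by rw [him]; exact ht0)
      rw [h2, him] at h3
      exact h3
    have k1 := key (δ / 2) (by rw [abs_of_pos (half_pos hδ)]; linarith) (by positivity)
    have k2 := key (-(δ / 2)) (by rw [abs_neg, abs_of_pos (half_pos hδ)]; linarith)
      (by rw [neg_ne_zero]; positivity)
    nlinarith
  · set U : Set ℂ := {z | 0 < b.im * z.im} with hU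
    have hUo : IsOpen U := isOpen_lt continuous_const (continuous_const.mul Complex.continuous_im)
    have hUc : Convex ℝ U := by
      have hlin : IsLinearMap ℝ (fun z : ℂ => b.im * z.im) :=
        ⟨fun x y => by simp [mul_add], fun r x => by simp; ring⟩
      exact convex_halfSpace_gt hlin 0
    have hUO : U ⊆ D.O := by
      intro z hz
      apply D.mem_O_of_im
      intro h0
      have : 0 < b.im * z.im := hz
      rw [h0, mul_zero] at this
      exact lt_irrefl _ this
    have hbU : b ∈ U := by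
      show 0 < b.im * b.im
      exact mul_self_pos.2 hb
    have han : AnalyticOnNhd ℂ D.f U := (D.differentiableOn_f.mono hUO).analyticOnNhd hUo
    have heq := han.eqOn_of_preconnected_of_eventuallyEq (g := fun _ => c)
      analyticOnNhd_const hUc.isPreconnected hbU h
    have hb0 : 0 < |b.im| := abs_pos.2 hb
    set T : ℝ := (|c.im| + 1) / |b.im| with hT
    have hT0 : 0 < T := by have := abs_nonneg c.im; positivity
    set z : ℂ := ((b.im * T : ℝ) : ℂ) * Complex.I with hz
    have hzim : z.im = b.im * T := by simp [hz]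
    have hzU : z ∈ U := by
      show 0 < b.im * z.im
      rw [hzim, ← mul_assoc]
      exact mul_pos (mul_self_pos.2 hb) hT0
    have h1 := D.im_f (z := z) (by rw [hzim]; exact mul_ne_zero hb hT0.ne')
    rw [heq hzU, hzim] at h1
    have h2 : b.im * T * c.im ≤ |b.im * T| * |c.im| := by
      rw [← abs_mul]; exact le_abs_self _
    have h3 : |b.im * T| = |c.im| + 1 := by
      rw [abs_mul, abs_of_pos hT0, hT]
      field_simp
    rw [← sq_abs, h3] at h1
    rw [h3] at h2
    nlinarith [abs_nonneg c.im]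

theorem nhds_le_map {b : ℂ} (hb : b ∈ D.O) : 𝓝 (D.f b) ≤ map D.f (𝓝 b) := by
  have han : AnalyticAt ℂ D.f b := D.differentiableOn_f.analyticAt (D.isOpen_O.mem_nhds hb)
  exact han.eventually_constant_or_nhds_le_map_nhds.resolve_left D.not_loc_const

/-- points where `f` has a moderate modulus: explicit singular functions -/
theorem ess_level {b : ℂ} (hb : b ∈ D.O) (h8 : ‖D.f b‖ = 8) :
    ∃ g : ℂ → ℂ, DifferentiableOn ℂ g D.V ∧ (∀ z ∈ D.V, ‖g z‖ ≤ 1) ∧
      ¬ ∃ G : ℂ → ℂ, ContinuousAt G b ∧ EqOn G g D.V := by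
  set c := D.f b with hc
  have hc0 : c ≠ 0 := by intro h0; rw [h0, norm_zero] at h8; norm_num at h8
  have hne : ∀ z ∈ D.V, D.f z - c ≠ 0 := by
    intro z hz h0
    have h1 := hz.2
    rw [sub_eq_zero.1 h0, h8] at h1
    exact lt_irrefl _ h1
  refine ⟨fun z => Complex.exp ((D.f z + c) / (D.f z - c)), ?_, ?_, ?_⟩
  · have hf : DifferentiableOn ℂ D.f D.V := D.differentiableOn_f.mono D.V_subset_O
    exact ((hf.add_const c).div (hf.sub_const c) hne).cexp
  · intro z hz
    rw [Complex.norm_exp, Real.exp_le_one_iff, Complex.div_re, ← add_div]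
    apply div_nonpos_of_nonpos_of_nonneg _ (Complex.normSq_nonneg _)
    have h1 : ‖D.f z‖ ^ 2 ≤ ‖c‖ ^ 2 := by
      rw [h8]; exact pow_le_pow_left₀ (norm_nonneg _) hz.2.le 2
    rw [Complex.sq_norm, Complex.sq_norm, Complex.normSq_apply, Complex.normSq_apply] at h1
    simp only [Complex.add_re, Complex.sub_re, Complex.add_im, Complex.sub_im]
    nlinarith
  · rintro ⟨G, hG, hGg⟩
    have key : ∀ (u : ℕ → ℂ) (L : ℝ), (∀ k, (u k).re < 0) → Tendsto (fun k => ‖u k‖) atTop atTop →
        Tendsto (fun k => ‖Complex.exp (u k)‖) atTop (𝓝 L) → ‖G b‖ = L := by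
      intro u L hu hinf hL
      have hu1 : ∀ k, u k - 1 ≠ 0 := by
        intro k h0
        have h1 := hu k
        rw [sub_eq_zero.1 h0] at h1
        simp at h1
        linarith
      set w : ℕ → ℂ := fun k => c * ((u k + 1) / (u k - 1)) with hw
      have hwlim : Tendsto w atTop (𝓝 c) := by
        have h1 : Tendsto (fun k => ‖u k - 1‖) atTop atTop := by
          refine tendsto_atTop_mono (f := fun k => ‖u k‖ - 1) (fun k => ?_)
            (tendsto_atTop_add_const_right _ _ hinf)
          have := norm_sub_norm_le (u k) 1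
          simpa using this
        have h2 : Tendsto (fun k => 2 / (u k - 1)) atTop (𝓝 (0 : ℂ)) := by
          rw [tendsto_zero_iff_norm_tendsto_zero]
          simp only [norm_div]
          exact h1.const_div_atTop _
        have h3 : Tendsto (fun k => c * (1 + 2 / (u k - 1))) atTop (𝓝 (c * (1 + 0))) :=
          (h2.const_add 1).const_mul c
        rw [add_zero, mul_one] at h3
        refine h3.congr fun k => ?_
        simp only [hw]
        have := hu1 k
        field_simp
        ring
      have hwnorm : ∀ k, ‖w k‖ < 8 := by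
        intro k
        simp only [hw]
        rw [norm_mul, norm_div, h8]
        have h1 : 0 < ‖u k - 1‖ := norm_pos_iff.2 (hu1 k)
        have h2 : ‖u k + 1‖ < ‖u k - 1‖ := by
          rw [← sq_lt_sq₀ (norm_nonneg _) (norm_nonneg _), Complex.sq_norm, Complex.sq_norm,
            Complex.normSq_apply, Complex.normSq_apply]
          simp only [Complex.add_re, Complex.sub_re, Complex.add_im, Complex.sub_im,
            Complex.one_re, Complex.one_im]
          have := hu k
          nlinarith
        have h3 : ‖u k + 1‖ / ‖u k - 1‖ < 1 := (div_lt_one h1).2 h2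
        linarith
      have hexp : ∀ k, (w k + c) / (w k - c) = u k := by
        intro k
        simp only [hw]
        have h1 := hu1 k
        have h2 : c * ((u k + 1) / (u k - 1)) + c = 2 * c * u k / (u k - 1) := by
          field_simp; ring
        have h3 : c * ((u k + 1) / (u k - 1)) - c = 2 * c / (u k - 1) := by
          field_simp; ring
        rw [h2, h3, div_div_div_cancel_right₀ h1]
        field_simp
      -- conclusion
      have hclose : ∀ ε > 0, |‖G b‖ - L| ≤ ε := by
        intro ε hε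
        obtain ⟨δ, hδ, hδG⟩ := Metric.continuousAt_iff.1 hG ε hε
        have hU : Metric.ball b δ ∩ D.O ∈ 𝓝 b :=
          inter_mem (Metric.ball_mem_nhds b hδ) (D.isOpen_O.mem_nhds hb)
        have himg : D.f '' (Metric.ball b δ ∩ D.O) ∈ 𝓝 c :=
          D.nhds_le_map hb (image_mem_map hU)
        have h1 : Tendsto (fun k => |‖G b‖ - ‖Complex.exp (u k)‖|) atTop (𝓝 |‖G b‖ - L|) :=
          (hL.const_sub _).abs
        refine le_of_tendsto h1 ?_
        filter_upwards [hwlim.eventually himg] with k hk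
        obtain ⟨x, ⟨hx1, hx2⟩, hx3⟩ := hk
        have hxV : x ∈ D.V := ⟨hx2, by rw [hx3]; exact hwnorm k⟩
        have h2 : G x = Complex.exp (u k) := by
          rw [hGg hxV]
          show Complex.exp ((D.f x + c) / (D.f x - c)) = _
          rw [hx3, hexp]
        have h3 := hδG hx1
        rw [dist_eq_norm, h2] at h3
        rw [abs_sub_comm]
        exact (abs_norm_sub_norm_le _ _).trans h3.le
      have h0 : |‖G b‖ - L| ≤ 0 := le_of_forall_pos_le_add fun ε hε => by
        rw [zero_add]; exact hclose ε hε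
      have h1 : ‖G b‖ - L = 0 := abs_nonpos_iff.1 h0
      linarith
    have k1 := key (fun k => ((-(k + 1) : ℝ) : ℂ)) 0 (fun k => by
        rw [Complex.ofReal_re]
        have : (0 : ℝ) ≤ k := Nat.cast_nonneg k
        linarith) ?_ ?_
    · have k2 := key (fun k => ⟨-1, k⟩) (Real.exp (-1)) (fun k => by
          show (-1 : ℝ) < 0; norm_num) ?_ ?_
      · rw [k1] at k2
        exact absurd k2 (Real.exp_pos _).ne
      · refine tendsto_atTop_mono (f := fun k : ℕ => (k : ℝ)) (fun k => ?_)
          tendsto_natCast_atTop_atTop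
        have := Complex.abs_im_le_norm (⟨-1, k⟩ : ℂ)
        simpa using this
      · have : (fun k : ℕ => ‖Complex.exp (⟨-1, k⟩ : ℂ)‖) = fun _ => Real.exp (-1) := by
          funext k
          rw [Complex.norm_exp]
        rw [this]
        exact tendsto_const_nhds
    · refine tendsto_atTop_mono (f := fun k : ℕ => (k : ℝ)) (fun k => ?_)
        tendsto_natCast_atTop_atTop
      rw [Complex.norm_real, Real.norm_eq_abs, abs_neg]
      have : (0 : ℝ) ≤ k := Nat.cast_nonneg k
      rw [abs_of_nonneg (by linarith)]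
      linarith
    · have h1 : ∀ k : ℕ, ‖Complex.exp (((-(k + 1) : ℝ)) : ℂ)‖ = Real.exp (-((k : ℝ) + 1)) := by
        intro k
        rw [Complex.norm_exp, Complex.ofReal_re]
      simp only [h1]
      have h2 : Tendsto (fun k : ℕ => (k : ℝ) + 1) atTop atTop :=
        tendsto_atTop_add_const_right _ _ tendsto_natCast_atTop_atTop
      exact Real.tendsto_exp_neg_atTop_nhds_zero.comp h2

/-- the points of the closure of the pole set -/
theorem ess_P {b : ℂ} (hb : b ∈ closure D.P) (hbP : b ∉ D.P) :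
    ¬ ∃ G : ℂ → ℂ, ContinuousAt G b ∧ EqOn G D.f D.V := by
  rintro ⟨G, hG, hGf⟩
  have key : ∀ w' : ℝ, w' ∉ D.E → |w'| < 8 → G b = w' := by
    intro w' hw' hw8
    have hclose : ∀ ε > 0, ‖G b - w'‖ ≤ ε := by
      intro ε hε
      obtain ⟨δ, hδ, hδG⟩ := Metric.continuousAt_iff.1 hG (ε / 2) (half_pos hε)
      obtain ⟨x, hxV, hx1, hx2⟩ := D.cluster hb hbP hw' hw8 (δ := min δ (ε / 2))
        (lt_min hδ (half_pos hε))
      have h1 := hδG (x := x) (by rw [dist_eq_norm]; exact hx1.trans_le (min_le_left _ _))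
      rw [dist_eq_norm, hGf hxV] at h1
      have h2 := hx2.trans_le (min_le_right _ _)
      calc ‖G b - w'‖ = ‖(D.f x - w') - (D.f x - G b)‖ := by congr 1; ring
        _ ≤ ‖D.f x - w'‖ + ‖D.f x - G b‖ := norm_sub_le _ _
        _ ≤ ε := by linarith
    have h0 : ‖G b - w'‖ ≤ 0 := le_of_forall_pos_le_add fun ε hε => by
      rw [zero_add]; exact hclose ε hε
    exact sub_eq_zero.1 (norm_le_zero_iff.1 h0)
  have h2 := key 2 (fun h => by have := (D.hE01 _ h).2; norm_num at this) (by norm_num)
  have h3 := key 3 (fun h => by have := (D.hE01 _ h).2; norm_num at this) (by norm_num)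
  rw [h2] at h3
  have : (2 : ℝ) = 3 := by exact_mod_cast h3
  norm_num at this

theorem frontier_cases {b : ℂ} (hb : b ∈ frontier D.V) :
    (b ∈ closure D.P ∧ b ∉ D.P) ∨ (b ∈ D.O ∧ ‖D.f b‖ = 8) := by
  have hcl : b ∈ closure D.V := frontier_subset_closure hb
  have hnot : b ∉ D.V := by
    intro h
    rw [D.isOpen_V.frontier_eq] at hb
    exact hb.2 h
  by_cases hP : b ∈ closure D.P
  · exact Or.inl ⟨hP, fun h => D.pole_notMem_closure h hcl⟩
  · right
    have hO : b ∈ D.O := hP
    refine ⟨hO, le_antisymm ?_ ?_⟩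
    · by_contra hcon
      push Not at hcon
      have h1 : ∀ᶠ z in 𝓝 b, 8 < ‖D.f z‖ := (D.continuousAt_f hO).norm.eventually (lt_mem_nhds hcon)
      obtain ⟨z, hz1, hz2⟩ := (mem_closure_iff_nhds.1 hcl) _ h1
      have h2 : 8 < ‖D.f z‖ := hz1
      exact lt_asymm h2 hz2.2
    · by_contra hcon
      push Not at hcon
      exact hnot ⟨hO, hcon⟩

theorem exists_singular {b : ℂ} (hb : b ∈ frontier D.V) :
    ∃ g : ℂ → ℂ, DifferentiableOn ℂ g D.V ∧ (∃ C, ∀ z ∈ D.V, ‖g z‖ ≤ C) ∧
      ¬ ∃ r > 0, ∃ G : ℂ → ℂ, DifferentiableOn ℂ G (D.V ∪ Metric.ball b r) ∧ EqOn G g D.V := by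
  have hcont : ∀ (G : ℂ → ℂ) (r : ℝ), 0 < r → DifferentiableOn ℂ G (D.V ∪ Metric.ball b r) →
      ContinuousAt G b := by
    intro G r hr hG
    have h1 : D.V ∪ Metric.ball b r ∈ 𝓝 b :=
      mem_of_superset (Metric.ball_mem_nhds b hr) subset_union_right
    exact (hG.differentiableAt h1).continuousAt
  rcases D.frontier_cases hb with ⟨h1, h2⟩ | ⟨h1, h2⟩
  · refine ⟨D.f, D.differentiableOn_f.mono D.V_subset_O, ⟨8, fun z hz => hz.2.le⟩, ?_⟩
    rintro ⟨r, hr, G, hG, hGf⟩
    exact D.ess_P h1 h2 ⟨G, hcont G r hr hG, hGf⟩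
  · obtain ⟨g, hg1, hg2, hg3⟩ := D.ess_level h1 h2
    refine ⟨g, hg1, ⟨1, hg2⟩, ?_⟩
    rintro ⟨r, hr, G, hG, hGf⟩
    exact hg3 ⟨G, hcont G r hr hG, hGf⟩

/-- there is a special boundary point -/
theorem exists_zeta : ∃ b ∈ frontier D.V, b ∈ closure D.P ∧ b ∉ D.P := by
  obtain ⟨b, hb, hbP⟩ := D.exists_bdy
  refine ⟨b, ?_, hb, hbP⟩
  rw [D.isOpen_V.frontier_eq]
  refine ⟨?_, fun h => h.1 hb⟩
  rw [Metric.mem_closure_iff]
  intro ε hε
  obtain ⟨x, hx, hx1, -⟩ := D.cluster hb hbP (w' := 2)
    (fun h => by have := (D.hE01 _ h).2; norm_num at this) (by norm_num) hε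
  exact ⟨x, hx, by rw [dist_comm, dist_eq_norm]; exact hx1⟩

end Dat

end Pool.Agent.MP83fe1a
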