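import Pool.Agent.MP83fe1a.Poly

set_option autoImplicit false

open Set Filter Topology

namespace Pool.Agent.MP83fe1a

/-! ### The small parameters -/

/-- auxiliary growth sequence -/
noncomputable def Ac : ℕ → ℝ
  | 0 => 1
  | n + 1 => 17 * Ac n * (1000 * 64 ^ n * Ac n)

/-- the parameters `ε_n` -/
noncomputable def eps (n : ℕ) : ℝ := 1 / (1000 * 64 ^ n * Ac n)

theorem one_le_Ac (n : ℕ) : 1 ≤ Ac n := by
  induction n with
  | zero => exact le_refl _
  | succ n ih =>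
    show 1 ≤ 17 * Ac n * (1000 * 64 ^ n * Ac n)
    have h1 : (1 : ℝ) ≤ 64 ^ n := one_le_pow₀ (by norm_num)
    have h2 : 1 ≤ 64 ^ n * Ac n := one_le_mul_of_one_le_of_one_le h1 ih
    have h3 : 1 ≤ Ac n * (64 ^ n * Ac n) := one_le_mul_of_one_le_of_one_le ih h2
    nlinarith

theorem Ac_pos (n : ℕ) : 0 < Ac n := zero_lt_one.trans_le (one_le_Ac n)

theorem eps_pos (n : ℕ) : 0 < eps n := by
  have := Ac_pos n
  unfold eps
  positivity

theorem Ac_succ (n : ℕ) : Ac (n + 1) = Ac n * (17 / eps n) := by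
  show 17 * Ac n * (1000 * 64 ^ n * Ac n) = _
  unfold eps
  have := Ac_pos n
  field_simp

theorem eps_le (n : ℕ) : eps n ≤ (1 / 64) ^ n / 1000 := by
  unfold eps
  have h := one_le_Ac n
  have h1 := Ac_pos n
  rw [div_pow, one_pow, div_div, one_div_le_one_div (by positivity) (by positivity)]
  have h64 : (0 : ℝ) < 64 ^ n := by positivity
  nlinarith

theorem eps_le_one (n : ℕ) : eps n ≤ 1 / 1000 := by
  refine (eps_le n).trans ?_
  have : (1 / 64 : ℝ) ^ n ≤ 1 := pow_le_one₀ (by norm_num) (by norm_num)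
  linarith

theorem eps_Ac (n : ℕ) : 2 ^ n * (eps n * Ac n) = (1 / 32) ^ n / 1000 := by
  unfold eps
  have := Ac_pos n
  have h : (64 : ℝ) ^ n = 2 ^ n * 32 ^ n := by rw [← mul_pow]; norm_num
  rw [h, div_pow, one_pow]
  field_simp

/-- tail bound -/
noncomputable def tau (n : ℕ) : ℝ := (1 / 64) ^ n / 900

theorem tau_pos (n : ℕ) : 0 < tau n := by unfold tau; positivity

theorem eps_add_tau (n : ℕ) : eps n + tau (n + 1) ≤ tau n := by
  have h := eps_le n
  unfold tau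
  rw [pow_succ]
  have h64 : (0 : ℝ) < (1 / 64) ^ n := by positivity
  nlinarith

theorem sum_eps_le (n m : ℕ) : ∑ k ∈ Finset.Ico n m, eps k ≤ tau n := by
  have key : ∀ j n, ∑ k ∈ Finset.Ico n (n + j), eps k + tau (n + j) ≤ tau n := by
    intro j
    induction j with
    | zero => intro n; simp
    | succ j ih =>
      intro n
      rw [← add_assoc, Finset.sum_Ico_succ_top (by omega)]
      have := ih n
      have h2 := eps_add_tau (n + j)
      linarith
  rcases le_total n m with h | h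
  · obtain ⟨j, rfl⟩ := Nat.exists_eq_add_of_le h
    have := key j n
    have h2 := tau_pos (n + j)
    linarith
  · rw [Finset.Ico_eq_empty_of_le h, Finset.sum_empty]
    exact (tau_pos n).le

theorem tau_le (n : ℕ) : tau n ≤ 1 / 900 := by
  unfold tau
  have : (1 / 64 : ℝ) ^ n ≤ 1 := pow_le_one₀ (by norm_num) (by norm_num)
  linarith

theorem tau_tendsto : Tendsto tau atTop (𝓝 0) := by
  unfold tau
  have := tendsto_pow_atTop_nhds_zero_of_lt_one (r := (1 / 64 : ℝ)) (by norm_num) (by norm_num)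
  simpa using this.div_const 900

theorem sqrt_eps_le (n : ℕ) : Real.sqrt (eps n) ≤ (1 / 8) ^ n / 30 := by
  apply Real.sqrt_le_iff.2
  refine ⟨by positivity, (eps_le n).trans ?_⟩
  have h : ((1 / 8 : ℝ) ^ n) ^ 2 = (1 / 64) ^ n := by rw [← pow_mul, mul_comm, pow_mul]; norm_num
  rw [div_pow ((1 / 8 : ℝ) ^ n) 30 2, h]
  have h64 : (0 : ℝ) < (1 / 64) ^ n := by positivity
  rw [div_le_div_iff₀ (by norm_num) (by norm_num)]
  nlinarith

theorem sum_sqrt_eps_le (n m : ℕ) :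
    ∑ k ∈ Finset.Ico n m, Real.sqrt (eps k) ≤ (1 / 8) ^ n / 20 := by
  have key : ∀ j n, ∑ k ∈ Finset.Ico n (n + j), Real.sqrt (eps k) + (1 / 8) ^ (n + j) / 20
      ≤ (1 / 8) ^ n / 20 := by
    intro j
    induction j with
    | zero => intro n; simp
    | succ j ih =>
      intro n
      rw [← add_assoc, Finset.sum_Ico_succ_top (by omega)]
      have := ih n
      have h2 := sqrt_eps_le (n + j)
      have h3 : (1 / 8 : ℝ) ^ (n + j + 1) = (1 / 8) ^ (n + j) / 8 := by rw [pow_succ]; ring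
      have h4 : (0 : ℝ) < (1 / 8) ^ (n + j) := by positivity
      rw [h3]
      linarith
  rcases le_total n m with h | h
  · obtain ⟨j, rfl⟩ := Nat.exists_eq_add_of_le h
    have := key j n
    have h2 : (0 : ℝ) < (1 / 8) ^ (n + j) := by positivity
    linarith
  · rw [Finset.Ico_eq_empty_of_le h, Finset.sum_empty]
    positivity

/-- The data: a compact set `E` in `[0,1]` and a sequence of its points. -/
structure Dat where
  g : ℕ → ℝ
  E : Set ℝ
  hE : IsCompact E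
  hE01 : ∀ x ∈ E, 0 ≤ x ∧ x ≤ 1
  hgE : ∀ n, g n ∈ E
  hacc : ∀ w ∈ E, ∀ δ > 0, ∀ N : ℕ, ∃ n ≥ N, |g n - w| < δ
  hgap : ∀ w ∈ E, ∀ δ > 0, ∃ w', |w' - w| < δ ∧ w' ∉ E
  hcov : ∀ N : ℕ, ∃ s : Finset ℝ, s.card ≤ 2 ^ N ∧ ∀ w ∈ E, ∃ c ∈ s, |w - c| ≤ (1 / 8) ^ N

namespace Dat

variable (D : Dat)

theorem norm_g_le (n : ℕ) : ‖(D.g n : ℂ)‖ ≤ 1 := by
  rw [Complex.norm_real, Real.norm_eq_abs, abs_of_nonneg (D.hE01 _ (D.hgE n)).1]
  exact (D.hE01 _ (D.hgE n)).2

/-- iterates -/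
noncomputable def F (n : ℕ) (z : ℂ) : ℂ := MP83fe1a.F D.g eps n z
/-- denominators -/
noncomputable def de (n : ℕ) (z : ℂ) : ℂ := MP83fe1a.de D.g eps n z

/-- the set of poles -/
def P : Set ℂ := {z | ∃ n, D.de n z = 0}

theorem F_zero (z : ℂ) : D.F 0 z = z := MP83fe1a.F_zero z

theorem de_zero (z : ℂ) : D.de 0 z = 1 := MP83fe1a.de_zero z

theorem de_succ_ne {n : ℕ} {z : ℂ} : D.de (n + 1) z ≠ 0 ↔ D.de n z ≠ 0 ∧ D.F n z ≠ D.g n :=
  MP83fe1a.de_succ_ne

theorem F_succ {n : ℕ} {z : ℂ} (h : D.de (n + 1) z ≠ 0) :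
    D.F (n + 1) z = D.F n z - eps n / (D.F n z - D.g n) := MP83fe1a.F_succ h

theorem de_ne {z : ℂ} (h : z ∉ D.P) (n : ℕ) : D.de n z ≠ 0 := fun h0 => h ⟨n, h0⟩

theorem F_ne {z : ℂ} (h : z ∉ D.P) (n : ℕ) : D.F n z - D.g n ≠ 0 :=
  sub_ne_zero.2 (D.de_succ_ne.1 (D.de_ne h (n + 1))).2

/-- drift estimate -/
theorem drift {n : ℕ} {z : ℂ} {d : ℝ} (hd : 0 < d) (hde : D.de n z ≠ 0)
    (hfar : ∀ k ≥ n, 2 * d ≤ ‖D.F n z - D.g k‖) (htail : tau n ≤ d ^ 2) :
    ∀ m ≥ n, D.de m z ≠ 0 ∧ ‖D.F m z - D.F n z‖ ≤ 1 / d * ∑ k ∈ Finset.Ico n m, eps k := by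
  intro m hm
  induction m, hm using Nat.le_induction with
  | base => exact ⟨hde, by simp⟩
  | succ m hm ih =>
    obtain ⟨ih1, ih2⟩ := ih
    have h1 : ‖D.F m z - D.F n z‖ ≤ d := by
      refine ih2.trans ?_
      rw [one_div, inv_mul_le_iff₀ hd, ← sq]
      exact (sum_eps_le n m).trans htail
    have h2 : d ≤ ‖D.F m z - D.g m‖ := by
      have h3 := hfar m hm
      have h4 : ‖D.F n z - D.g m‖ ≤ ‖D.F m z - D.g m‖ + ‖D.F m z - D.F n z‖ := by
        have : D.F n z - D.g m = (D.F m z - D.g m) - (D.F m z - D.F n z) := by ring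
        rw [this]
        exact norm_sub_le _ _
      linarith
    have h3 : D.F m z ≠ D.g m := by
      intro h0
      rw [h0, sub_self, norm_zero] at h2
      linarith
    have h4 : D.de (m + 1) z ≠ 0 := D.de_succ_ne.2 ⟨ih1, h3⟩
    refine ⟨h4, ?_⟩
    rw [D.F_succ h4, Finset.sum_Ico_succ_top hm, mul_add]
    have h5 : D.F m z - eps m / (D.F m z - D.g m) - D.F n z =
        (D.F m z - D.F n z) - eps m / (D.F m z - D.g m) := by ring
    rw [h5]
    refine (norm_sub_le _ _).trans (add_le_add ih2 ?_)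
    rw [norm_div, Complex.norm_real, Real.norm_eq_abs, abs_of_pos (eps_pos m), one_div,
      inv_mul_eq_div]
    exact div_le_div_of_nonneg_left (eps_pos m).le hd h2

theorem drift' {n : ℕ} {z : ℂ} {d : ℝ} (hd : 0 < d) (hde : D.de n z ≠ 0)
    (hfar : ∀ k ≥ n, 2 * d ≤ ‖D.F n z - D.g k‖) (htail : tau n ≤ d ^ 2) (m : ℕ) (hm : n ≤ m) :
    D.de m z ≠ 0 ∧ ‖D.F m z - D.F n z‖ ≤ tau n / d := by
  obtain ⟨h1, h2⟩ := D.drift hd hde hfar htail m hm
  refine ⟨h1, h2.trans ?_⟩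
  rw [one_div, inv_mul_eq_div]
  exact div_le_div_of_nonneg_right (sum_eps_le n m) hd.le

theorem drift_notMem_P {n : ℕ} {z : ℂ} {d : ℝ} (hd : 0 < d) (hde : D.de n z ≠ 0)
    (hfar : ∀ k ≥ n, 2 * d ≤ ‖D.F n z - D.g k‖) (htail : tau n ≤ d ^ 2) : z ∉ D.P := by
  rintro ⟨m, hm⟩
  rcases le_total n m with h | h
  · exact (D.drift' hd hde hfar htail m h).1 hm
  · exact MP83fe1a.de_ne_of_le h hde hm

/-- escape: once `|F_n| ≥ 2` nothing much happens -/
theorem escape {n : ℕ} {z : ℂ} (hde : D.de n z ≠ 0) (h2 : 2 ≤ ‖D.F n z‖) :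
    z ∉ D.P ∧ ∀ m ≥ n, ‖D.F m z - D.F n z‖ ≤ 2 * tau n := by
  have hfar : ∀ k ≥ n, 2 * (1 / 2 : ℝ) ≤ ‖D.F n z - D.g k‖ := by
    intro k _
    have h1 := D.norm_g_le k
    have h3 := norm_sub_norm_le (D.F n z) (D.g k : ℂ)
    linarith
  have htail : tau n ≤ (1 / 2 : ℝ) ^ 2 := (tau_le n).trans (by norm_num)
  refine ⟨D.drift_notMem_P (by norm_num) hde hfar htail, fun m hm => ?_⟩
  have := (D.drift' (by norm_num) hde hfar htail m hm).2
  linarith

theorem im_ne {z : ℂ} (hz : z.im ≠ 0) : z ∉ D.P := by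
  rintro ⟨n, hn⟩
  exact (MP83fe1a.im_F eps_pos hz n).1 hn

theorem P_real {z : ℂ} (hz : z ∈ D.P) : z.im = 0 := by
  by_contra h
  exact D.im_ne h hz

theorem norm_lt_of_mem_P {z : ℂ} (hz : z ∈ D.P) : ‖z‖ < 2 := by
  by_contra h
  push Not at h
  have := (D.escape (n := 0) (z := z) (by rw [D.de_zero]; exact one_ne_zero)
    (by rw [D.F_zero]; exact h)).1
  exact this hz

theorem closure_P_subset : closure D.P ⊆ Metric.closedBall 0 2 := by
  refine closure_minimal ?_ Metric.isClosed_closedBall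
  intro z hz
  rw [mem_closedBall_zero_iff]
  exact (D.norm_lt_of_mem_P hz).le

theorem closure_P_real {z : ℂ} (hz : z ∈ closure D.P) : z.im = 0 := by
  have h1 : D.P ⊆ {z : ℂ | z.im = 0} := fun z hz => D.P_real hz
  exact closure_minimal h1 (isClosed_eq Complex.continuous_im continuous_const) hz

/-- the domain of the limit function -/
def O : Set ℂ := (closure D.P)ᶜ

theorem isOpen_O : IsOpen D.O := isClosed_closure.isOpen_compl

theorem notMem_P_of_mem_O {z : ℂ} (hz : z ∈ D.O) : z ∉ D.P := fun h => hz (subset_closure h)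

theorem far {z : ℂ} {δ : ℝ} (hδ : 0 < δ) (hz : ∀ w ∈ Metric.ball z δ, w ∉ D.P) (n : ℕ) :
    δ / 6 ≤ ‖D.F n z - D.g n‖ := by
  by_contra hcon
  push Not at hcon
  have hzP : z ∉ D.P := hz z (Metric.mem_ball_self hδ)
  obtain ⟨p, hp, hp0⟩ := exists_root_near (g := D.g) eps_pos hδ (D.de_ne hzP n) hcon
  apply hz p hp
  refine ⟨n + 1, ?_⟩
  show MP83fe1a.de D.g eps (n + 1) p = 0
  rw [MP83fe1a.de_succ, hp0, mul_zero]

theorem step_le {z : ℂ} {δ : ℝ} (hδ : 0 < δ) (hz : ∀ w ∈ Metric.ball z δ, w ∉ D.P) (n : ℕ) :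
    ‖D.F (n + 1) z - D.F n z‖ ≤ 6 / δ * eps n := by
  have hzP : z ∉ D.P := hz z (Metric.mem_ball_self hδ)
  rw [D.F_succ (D.de_ne hzP _)]
  have : D.F n z - eps n / (D.F n z - D.g n) - D.F n z = - (eps n / (D.F n z - D.g n)) := by ring
  rw [this, norm_neg, norm_div, Complex.norm_real, Real.norm_eq_abs, abs_of_pos (eps_pos n)]
  have h1 := D.far hδ hz n
  calc eps n / ‖D.F n z - D.g n‖ ≤ eps n / (δ / 6) :=
        div_le_div_of_nonneg_left (eps_pos n).le (by positivity) h1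
    _ = _ := by field_simp

theorem dist_F_le {z : ℂ} {δ : ℝ} (hδ : 0 < δ) (hz : ∀ w ∈ Metric.ball z δ, w ∉ D.P)
    (n m : ℕ) (hnm : n ≤ m) : ‖D.F m z - D.F n z‖ ≤ 6 / δ * tau n := by
  have key : ‖D.F m z - D.F n z‖ ≤ 6 / δ * ∑ k ∈ Finset.Ico n m, eps k := by
    induction m, hnm using Nat.le_induction with
    | base => simp
    | succ m hm ih =>
      rw [Finset.sum_Ico_succ_top hm, mul_add]
      calc ‖D.F (m + 1) z - D.F n z‖ = ‖(D.F (m + 1) z - D.F m z) + (D.F m z - D.F n z)‖ := by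
            congr 1; ring
        _ ≤ ‖D.F (m + 1) z - D.F m z‖ + ‖D.F m z - D.F n z‖ := norm_add_le _ _
        _ ≤ _ := by linarith [D.step_le hδ hz m]
  refine key.trans (mul_le_mul_of_nonneg_left (sum_eps_le n m) (by positivity))

/-- the limit function -/
noncomputable def f (z : ℂ) : ℂ := limUnder atTop (fun n => D.F n z)

theorem exists_ball {z : ℂ} (hz : z ∈ D.O) :
    ∃ δ > 0, ∀ w ∈ Metric.ball z δ, w ∉ D.P := by
  obtain ⟨δ, hδ, h⟩ := Metric.isOpen_iff.1 D.isOpen_O z hz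
  exact ⟨δ, hδ, fun w hw => D.notMem_P_of_mem_O (h hw)⟩

theorem tendsto_F {z : ℂ} (hz : z ∈ D.O) : Tendsto (fun n => D.F n z) atTop (𝓝 (D.f z)) := by
  obtain ⟨δ, hδ, h⟩ := D.exists_ball hz
  have hc : CauchySeq (fun n => D.F n z) := by
    refine cauchySeq_of_le_tendsto_0 (fun n => 2 * (6 / δ * tau n)) ?_ ?_
    · intro n m N hn hm
      rw [dist_eq_norm]
      calc ‖D.F n z - D.F m z‖ = ‖(D.F n z - D.F N z) - (D.F m z - D.F N z)‖ := by
            congr 1; ring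
        _ ≤ ‖D.F n z - D.F N z‖ + ‖D.F m z - D.F N z‖ := norm_sub_le _ _
        _ ≤ _ := by linarith [D.dist_F_le hδ h N n hn, D.dist_F_le hδ h N m hm]
    · have := (tau_tendsto.const_mul (6 / δ)).const_mul 2
      simpa using this
  exact hc.tendsto_limUnder

theorem dist_f_le {z : ℂ} {δ : ℝ} (hδ : 0 < δ) (hz : ∀ w ∈ Metric.ball z δ, w ∉ D.P)
    (hzO : z ∈ D.O) (n : ℕ) : ‖D.f z - D.F n z‖ ≤ 6 / δ * tau n := by
  have h1 : Tendsto (fun m => ‖D.F m z - D.F n z‖) atTop (𝓝 ‖D.f z - D.F n z‖) :=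
    ((D.tendsto_F hzO).sub_const _).norm
  refine le_of_tendsto h1 ?_
  filter_upwards [eventually_ge_atTop n] with m hm
  exact D.dist_F_le hδ hz n m hm

theorem tendstoLocallyUniformlyOn : TendstoLocallyUniformlyOn D.F D.f atTop D.O := by
  rw [Metric.tendstoLocallyUniformlyOn_iff]
  intro ε hε z hz
  obtain ⟨δ, hδ, h⟩ := Metric.isOpen_iff.1 D.isOpen_O z hz
  refine ⟨Metric.ball z (δ / 2), mem_nhdsWithin_of_mem_nhds
    (Metric.ball_mem_nhds z (half_pos hδ)), ?_⟩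
  have h1 : Tendsto (fun n => 6 / (δ / 2) * tau n) atTop (𝓝 0) := by
    simpa using tau_tendsto.const_mul (6 / (δ / 2))
  filter_upwards [h1.eventually (gt_mem_nhds hε)] with n hn w hw
  rw [dist_eq_norm]
  have hsub : ∀ v ∈ Metric.ball w (δ / 2), v ∉ D.P := by
    intro v hv
    apply D.notMem_P_of_mem_O
    apply h
    rw [Metric.mem_ball] at *
    calc dist v z ≤ dist v w + dist w z := dist_triangle _ _ _
      _ < δ / 2 + δ / 2 := add_lt_add hv hw
      _ = δ := by ring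
  refine (D.dist_f_le (half_pos hδ) hsub ?_ n).trans_lt hn
  apply h
  rw [Metric.mem_ball] at *
  linarith

theorem differentiableOn_F (n : ℕ) : DifferentiableOn ℂ (D.F n) D.O := by
  refine DifferentiableOn.div (MP83fe1a.diff_nu n).differentiableOn
    (MP83fe1a.diff_de n).differentiableOn fun z hz => D.de_ne (D.notMem_P_of_mem_O hz) n

theorem differentiableOn_f : DifferentiableOn ℂ D.f D.O :=
  D.tendstoLocallyUniformlyOn.differentiableOn
    (Eventually.of_forall fun n => D.differentiableOn_F n) D.isOpen_O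

/-- `f` omits `E`. -/
theorem f_notMem_E {z : ℂ} (hz : z ∈ D.O) {w : ℝ} (hw : w ∈ D.E) : D.f z ≠ w := by
  intro h
  obtain ⟨δ, hδ, hball⟩ := D.exists_ball hz
  have h1 : ∀ᶠ n in atTop, ‖D.F n z - D.f z‖ < δ / 12 := by
    have := (D.tendsto_F hz).sub_const (D.f z)
    rw [sub_self] at this
    have h2 := this.norm
    rw [norm_zero] at h2
    exact h2.eventually (gt_mem_nhds (by positivity))
  obtain ⟨N, hN⟩ := eventually_atTop.1 h1
  obtain ⟨n, hn, hgn⟩ := D.hacc w hw (δ / 12) (by positivity) N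
  have h2 := D.far hδ hball n
  have h3 := hN n hn
  have h4 : ‖D.F n z - D.g n‖ ≤ ‖D.F n z - D.f z‖ + ‖D.f z - D.g n‖ := by
    have : D.F n z - D.g n = (D.F n z - D.f z) + (D.f z - D.g n) := by ring
    rw [this]; exact norm_add_le _ _
  have h5 : ‖D.f z - D.g n‖ < δ / 12 := by
    rw [h, ← Complex.ofReal_sub, Complex.norm_real, Real.norm_eq_abs, abs_sub_comm]
    exact hgn
  linarith

/-- for points that escape -/
theorem escape_f {n : ℕ} {z : ℂ} (hz : z ∈ D.O) (h2 : 2 ≤ ‖D.F n z‖) :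
    ‖D.f z - D.F n z‖ ≤ 2 * tau n := by
  have h1 : Tendsto (fun m => ‖D.F m z - D.F n z‖) atTop (𝓝 ‖D.f z - D.F n z‖) :=
    ((D.tendsto_F hz).sub_const _).norm
  refine le_of_tendsto h1 ?_
  filter_upwards [eventually_ge_atTop n] with m hm
  exact (D.escape (D.de_ne (D.notMem_P_of_mem_O hz) n) h2).2 m hm

theorem drift_f {n : ℕ} {z : ℂ} {d : ℝ} (hz : z ∈ D.O) (hd : 0 < d)
    (hfar : ∀ k ≥ n, 2 * d ≤ ‖D.F n z - D.g k‖) (htail : tau n ≤ d ^ 2) :
    ‖D.f z - D.F n z‖ ≤ tau n / d := by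
  have h1 : Tendsto (fun m => ‖D.F m z - D.F n z‖) atTop (𝓝 ‖D.f z - D.F n z‖) :=
    ((D.tendsto_F hz).sub_const _).norm
  refine le_of_tendsto h1 ?_
  filter_upwards [eventually_ge_atTop n] with m hm
  exact (D.drift' hd (D.de_ne (D.notMem_P_of_mem_O hz) n) hfar htail m hm).2

/-! ### Derivatives -/

/-- the derivative of `F n` -/
noncomputable def dF (n : ℕ) (z : ℂ) : ℂ :=
  ∏ k ∈ Finset.range n, (1 + eps k / (D.F k z - D.g k) ^ 2)

theorem hasDerivAt_F {n : ℕ} {z : ℂ} (h : D.de n z ≠ 0) : HasDerivAt (D.F n) (D.dF n z) z := by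
  induction n with
  | zero =>
    have h1 : D.F 0 = fun z => z := by funext z; exact D.F_zero z
    rw [h1]
    simp only [dF, Finset.range_zero, Finset.prod_empty]
    exact hasDerivAt_id' z
  | succ n ih =>
    obtain ⟨h1, h2⟩ := D.de_succ_ne.1 h
    have h3 := ih h1
    have h4 : D.F n z - D.g n ≠ 0 := sub_ne_zero.2 h2
    have h5 : HasDerivAt (fun w => D.F n w - eps n / (D.F n w - D.g n))
        (D.dF n z - (-(eps n * D.dF n z) / (D.F n z - D.g n) ^ 2)) z := by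
      have h6 : HasDerivAt (fun w => D.F n w - (D.g n : ℂ)) (D.dF n z) z := h3.sub_const _
      have h7 := (hasDerivAt_const z (eps n : ℂ)).div h6 h4
      exact (h3.sub h7).congr_deriv (by ring)
    have h9 : D.dF (n + 1) z = D.dF n z - (-(eps n * D.dF n z) / (D.F n z - D.g n) ^ 2) := by
      rw [dF, Finset.prod_range_succ]
      show D.dF n z * (1 + eps n / (D.F n z - D.g n) ^ 2) = _
      field_simp
      ring
    rw [h9]
    refine h5.congr_of_eventuallyEq ?_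
    have hopen : ∀ᶠ w in 𝓝 z, D.de (n + 1) w ≠ 0 :=
      (MP83fe1a.diff_de (n + 1)).continuous.continuousAt.eventually_ne h
    filter_upwards [hopen] with w hw
    exact D.F_succ hw

theorem tendsto_dF {z : ℂ} (hz : z ∈ D.O) :
    Tendsto (fun n => D.dF n z) atTop (𝓝 (deriv D.f z)) := by
  have h1 := (D.tendstoLocallyUniformlyOn.deriv
    (Eventually.of_forall fun n => D.differentiableOn_F n) D.isOpen_O).tendsto_at hz
  refine h1.congr fun n => ?_
  exact (D.hasDerivAt_F (D.de_ne (D.notMem_P_of_mem_O hz) n)).deriv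

end Dat

end Pool.Agent.MP83fe1a
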