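import Pool.Agent.MP83fe1a.Cutoff

set_option autoImplicit false

open Set Filter Topology MeasureTheory

namespace Pool.Agent.MP83fe1a

namespace Dat

variable (D : Dat)

theorem main_bound {z₀ : ℂ} (hz₀ : z₀ ∈ D.O) (h3 : ‖D.f z₀‖ < 3) :
    ∃ C : ℝ, 0 ≤ C ∧ ∀ (h : ℂ → ℂ) (M m : ℝ), DifferentiableOn ℂ h D.V →
      (∀ z ∈ D.V, ‖h z‖ ≤ M) → (∀ z ∈ D.V, 3 ≤ ‖D.f z‖ → ‖h z‖ ≤ m) → 0 ≤ m → ‖h z₀‖ ≤ C * m := by
  obtain ⟨c, hc, hpom⟩ := pompeiu z₀
  obtain ⟨K₁, K₂, hK₁, hK₂, hcut⟩ := D.exists_cutoff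
  have hcpos : 0 < ‖c‖ := norm_pos_iff.2 hc
  -- a distance
  obtain ⟨d, hd, hball⟩ : ∃ d > 0, Metric.ball z₀ (2 * d) ⊆ {z | z ∈ D.O ∧ ‖D.f z‖ < 3} := by
    have hev : {z | z ∈ D.O ∧ ‖D.f z‖ < 3} ∈ 𝓝 z₀ :=
      inter_mem (D.isOpen_O.mem_nhds hz₀) ((D.continuousAt_f hz₀).norm.eventually (gt_mem_nhds h3))
    obtain ⟨e, he, h⟩ := Metric.mem_nhds_iff.1 hev
    exact ⟨e / 2, half_pos he, by rwa [mul_div_cancel₀ _ two_ne_zero]⟩
  have hW : ∀ z ∈ D.W, d ≤ ‖z - z₀‖ := by
    intro z hz
    by_contra hcon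
    push Not at hcon
    have : z ∈ Metric.ball z₀ (2 * d) := by rw [Metric.mem_ball, dist_eq_norm]; linarith
    have h1 := (hball this).2
    linarith [hz.2.1]
  have hP : ∀ z ∈ closure D.P, 2 * d ≤ ‖z - z₀‖ := by
    intro z hz
    by_contra hcon
    push Not at hcon
    have : z ∈ Metric.ball z₀ (2 * d) := by rw [Metric.mem_ball, dist_eq_norm]; exact hcon
    exact (hball this).1 hz
  set I : ℝ := (∫⁻ z, D.Phi z).toReal with hI
  have hIeq : ∫⁻ z, D.Phi z = ENNReal.ofReal I := (ENNReal.ofReal_toReal D.lintegral_Phi.ne).symm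
  have hI0 : 0 ≤ I := ENNReal.toReal_nonneg
  refine ⟨K₁ / d * I / ‖c‖, by positivity, ?_⟩
  intro h M m hh hM hm hm0
  have hM0 : 0 ≤ M := by
    have hzV : z₀ ∈ D.V := ⟨hz₀, by linarith⟩
    exact (norm_nonneg _).trans (hM z₀ hzV)
  -- for large N
  have key : ∀ N : ℕ, 3 * rad N < d →
      ‖h z₀‖ * ‖c‖ ≤ K₁ / d * I * m + 32 * Real.pi * K₂ * M / d * (1 / 2) ^ N := by
    intro N hN
    obtain ⟨J, hJc, hJ1, hJ2⟩ := D.exists_cover N
    have hr := rad_pos N
    obtain ⟨χ, hχ, hχs, hχV, hχ1, hχd⟩ := hcut N J (rad N) hr hJ1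
    have hJd : ∀ p ∈ J, ∀ z ∈ Metric.closedBall p (2 * rad N), d ≤ ‖z - z₀‖ := by
      intro p hp z hz
      obtain ⟨w, hw, hwp⟩ := hJ2 p hp
      have h1 := hP w hw
      rw [Metric.mem_closedBall, dist_eq_norm] at hz
      have h2 : ‖w - z₀‖ ≤ ‖w - p‖ + ‖z - p‖ + ‖z - z₀‖ := by
        calc ‖w - z₀‖ = ‖(w - p) - (z - p) + (z - z₀)‖ := by congr 1; ring
          _ ≤ ‖(w - p) - (z - p)‖ + ‖z - z₀‖ := norm_add_le _ _
          _ ≤ _ := by linarith [norm_sub_le (w - p) (z - p)]
      linarith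
    have hone : ∀ᶠ w in 𝓝 z₀, χ w = 1 := by
      apply hχ1 z₀ hz₀ h3
      intro p hp
      by_contra hcon
      push Not at hcon
      have := hJd p hp z₀ (by
        rw [Metric.mem_closedBall, dist_eq_norm]
        exact hcon)
      rw [sub_self, norm_zero] at this
      linarith
    have hform := hpom D.V h χ D.isOpen_V ⟨hz₀, by linarith⟩ hh hχ hχs hχV hone
    -- pointwise bound
    set sm : ℂ → ℝ := fun z => ∑ p ∈ J, (Metric.closedBall p (2 * rad N)).indicator 1 z with hsm
    have hsm0 : ∀ z, 0 ≤ sm z := fun z =>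
      Finset.sum_nonneg fun p _ => indicator_nonneg (fun _ _ => zero_le_one) _
    set B : ℂ → ℝ := fun z => K₁ / d * m * D.W.indicator (fun z => ‖deriv D.f z‖) z +
      K₂ / rad N / d * M * sm z with hB
    have hpt : ∀ z, ‖h z * (dbar χ z / (z - z₀))‖ ≤ B z := by
      intro z
      by_cases hzV : z ∈ D.V
      · rw [norm_mul, norm_div]
        have h1 : ‖dbar χ z‖ ≤ K₁ * D.W.indicator (fun z => ‖deriv D.f z‖) z +
            K₂ / rad N * sm z := hχd z
        have hs0 := hsm0 z
        have e1 : ‖h z‖ * (K₁ * D.W.indicator (fun z => ‖deriv D.f z‖) z / ‖z - z₀‖) ≤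
            K₁ / d * m * D.W.indicator (fun z => ‖deriv D.f z‖) z := by
          by_cases hzW : z ∈ D.W
          · rw [indicator_of_mem hzW]
            have h4 := hm z hzV hzW.2.1
            have h5 := hW z hzW
            have h6 : K₁ * ‖deriv D.f z‖ / ‖z - z₀‖ ≤ K₁ * ‖deriv D.f z‖ / d :=
              div_le_div_of_nonneg_left (by positivity) hd h5
            calc ‖h z‖ * (K₁ * ‖deriv D.f z‖ / ‖z - z₀‖) ≤ m * (K₁ * ‖deriv D.f z‖ / d) :=
                  mul_le_mul h4 h6 (by positivity) hm0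
              _ = _ := by ring
          · rw [indicator_of_notMem hzW]
            simp
        have e2 : ‖h z‖ * (K₂ / rad N * sm z / ‖z - z₀‖) ≤ K₂ / rad N / d * M * sm z := by
          by_cases hex : ∃ p ∈ J, z ∈ Metric.closedBall p (2 * rad N)
          · obtain ⟨p, hp, hpz⟩ := hex
            have h5 := hJd p hp z hpz
            have h6 : K₂ / rad N * sm z / ‖z - z₀‖ ≤ K₂ / rad N * sm z / d :=
              div_le_div_of_nonneg_left (by positivity) hd h5
            calc _ ≤ M * (K₂ / rad N * sm z / d) :=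
                  mul_le_mul (hM z hzV) h6 (by positivity) hM0
              _ = _ := by ring
          · push Not at hex
            have : sm z = 0 :=
              Finset.sum_eq_zero fun p hp => indicator_of_notMem (hex p hp) _
            rw [this]
            simp
        calc ‖h z‖ * (‖dbar χ z‖ / ‖z - z₀‖) ≤ ‖h z‖ * ((K₁ * D.W.indicator (fun z => ‖deriv D.f z‖) z +
              K₂ / rad N * sm z) / ‖z - z₀‖) := by
              gcongr
          _ = ‖h z‖ * (K₁ * D.W.indicator (fun z => ‖deriv D.f z‖) z / ‖z - z₀‖) +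
              ‖h z‖ * (K₂ / rad N * sm z / ‖z - z₀‖) := by ring
          _ ≤ B z := add_le_add e1 e2
      · have h0 : dbar χ z = 0 := dbar_eq_zero_of_notMem_tsupport fun hz => hzV (hχV hz)
        rw [h0, zero_div, mul_zero, norm_zero]
        refine add_nonneg (mul_nonneg (by positivity) (indicator_nonneg (fun _ _ => norm_nonneg _) _))
          (mul_nonneg (by positivity) (hsm0 z))
    -- integral of the bound
    have hint : ∫⁻ z, ENNReal.ofReal ‖h z * (dbar χ z / (z - z₀))‖ ≤
        ENNReal.ofReal (K₁ / d * I * m + 32 * Real.pi * K₂ * M / d * (1 / 2) ^ N) := by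
      have hpt2 : ∀ z, ENNReal.ofReal ‖h z * (dbar χ z / (z - z₀))‖ ≤
          ENNReal.ofReal (K₁ / d * m) * D.Phi z + ENNReal.ofReal (K₂ / rad N / d * M) *
            ∑ p ∈ J, (Metric.closedBall p (2 * rad N)).indicator 1 z := by
        intro z
        refine (ENNReal.ofReal_le_ofReal (hpt z)).trans ?_
        refine ENNReal.ofReal_add_le.trans (add_le_add ?_ ?_)
        · rw [ENNReal.ofReal_mul (by positivity)]
          refine mul_le_mul_right ?_ _
          by_cases hzW : z ∈ D.W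
          · rw [indicator_of_mem hzW]
            exact D.deriv_le_Phi hzW
          · rw [indicator_of_notMem hzW]
            simp
        · rw [ENNReal.ofReal_mul (by positivity), hsm]
          simp only
          rw [ENNReal.ofReal_sum_of_nonneg (f := fun p =>
            (Metric.closedBall p (2 * rad N)).indicator (1 : ℂ → ℝ) z) (fun p _ =>
            indicator_nonneg (fun _ _ => zero_le_one) _)]
          refine mul_le_mul_right (Finset.sum_le_sum fun p _ => ?_) _
          by_cases hzp : z ∈ Metric.closedBall p (2 * rad N)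
          · rw [indicator_of_mem hzp, indicator_of_mem hzp]; simp
          · rw [indicator_of_notMem hzp, indicator_of_notMem hzp]; simp
      refine (lintegral_mono hpt2).trans ?_
      rw [lintegral_add_left (D.measurable_Phi.const_mul _), lintegral_const_mul _ D.measurable_Phi,
        hIeq, lintegral_const_mul _ (Finset.measurable_sum _ fun p _ =>
          measurable_one.indicator Metric.isClosed_closedBall.measurableSet),
        lintegral_finsetSum _ (fun p _ =>
          measurable_one.indicator Metric.isClosed_closedBall.measurableSet),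
        ← ENNReal.ofReal_mul (by positivity), ENNReal.ofReal_add (by positivity) (by positivity)]
      refine add_le_add (ENNReal.ofReal_le_ofReal (le_of_eq (by ring))) ?_
      have h1 : ∀ p ∈ J, ∫⁻ z, (Metric.closedBall p (2 * rad N)).indicator (1 : ℂ → ENNReal) z =
          ENNReal.ofReal ((2 * rad N) ^ 2 * Real.pi) := by
        intro p _
        have e : ENNReal.ofReal ((2 * rad N) ^ 2 * Real.pi) =
            ENNReal.ofReal (2 * rad N) ^ 2 * ENNReal.ofReal Real.pi := by
          rw [ENNReal.ofReal_mul (p := (2 * rad N) ^ 2) (by positivity),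
            ENNReal.ofReal_pow (by positivity)]
        rw [lintegral_indicator_one Metric.isClosed_closedBall.measurableSet,
          Complex.volume_closedBall, e, ← NNReal.coe_real_pi, ENNReal.ofReal_coe_nnreal]
      rw [Finset.sum_congr rfl h1, Finset.sum_const, nsmul_eq_mul]
      have h2 : (J.card : ENNReal) ≤ ENNReal.ofReal (4 ^ N) := by
        have h3 : (J.card : ENNReal) ≤ ((4 ^ N : ℕ) : ENNReal) := by exact_mod_cast hJc
        refine h3.trans ?_
        rw [← ENNReal.ofReal_natCast]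
        simp
      refine (mul_le_mul_right (mul_le_mul_left h2 _) _).trans ?_
      rw [← ENNReal.ofReal_mul (by positivity), ← ENNReal.ofReal_mul (by positivity)]
      apply ENNReal.ofReal_le_ofReal
      have h4 : (4 : ℝ) ^ N * (1 / 8) ^ N = (1 / 2) ^ N := by rw [← mul_pow]; norm_num
      have h5 : K₂ / rad N / d * M * (4 ^ N * ((2 * rad N) ^ 2 * Real.pi)) =
          4 * Real.pi * K₂ * M / d * (4 ^ N * rad N) := by
        field_simp
        ring
      rw [h5]
      unfold rad
      apply le_of_eq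
      have h6 : (4 : ℝ) ^ N * (8 * (1 / 8) ^ N) = 8 * (1 / 2) ^ N := by rw [← h4]; ring
      rw [h6]
      ring
    have h7 : ‖h z₀ * c‖ ≤ (∫⁻ z, ENNReal.ofReal ‖h z * (dbar χ z / (z - z₀))‖).toReal := by
      rw [hform]
      exact norm_integral_le_lintegral_norm _
    rw [norm_mul] at h7
    refine h7.trans ?_
    have h8 := ENNReal.toReal_mono ENNReal.ofReal_ne_top hint
    rwa [ENNReal.toReal_ofReal (by positivity)] at h8
  -- let N → ∞
  have hlim : Tendsto (fun N : ℕ => K₁ / d * I * m + 32 * Real.pi * K₂ * M / d * (1 / 2) ^ N) atTop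
      (𝓝 (K₁ / d * I * m + 32 * Real.pi * K₂ * M / d * 0)) :=
    ((tendsto_pow_atTop_nhds_zero_of_lt_one (by norm_num) (by norm_num)).const_mul _).const_add _
  rw [mul_zero, add_zero] at hlim
  have hrad : ∀ᶠ N in atTop, 3 * rad N < d := by
    have h1 : Tendsto (fun N : ℕ => 3 * rad N) atTop (𝓝 0) := by
      unfold rad
      have := ((tendsto_pow_atTop_nhds_zero_of_lt_one (r := (1 / 8 : ℝ)) (by norm_num)
        (by norm_num)).const_mul 8).const_mul 3
      simpa using this
    exact h1.eventually (gt_mem_nhds hd)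
  have hfin : ‖h z₀‖ * ‖c‖ ≤ K₁ / d * I * m :=
    ge_of_tendsto hlim (hrad.mono key)
  rw [div_mul_eq_mul_div, le_div_iff₀ hcpos]
  exact hfin

/-- Maximum principle: `|h| ≤ sup_{|f| ≥ 3} |h|`. -/
theorem max_principle {z₀ : ℂ} (hz₀ : z₀ ∈ D.V) {h : ℂ → ℂ} {M m : ℝ}
    (hh : DifferentiableOn ℂ h D.V) (hM : ∀ z ∈ D.V, ‖h z‖ ≤ M)
    (hm : ∀ z ∈ D.V, 3 ≤ ‖D.f z‖ → ‖h z‖ ≤ m) (hm0 : 0 ≤ m) : ‖h z₀‖ ≤ m := by
  rcases lt_or_ge ‖D.f z₀‖ 3 with h3 | h3
  · obtain ⟨C, hC0, hC⟩ := D.main_bound hz₀.1 h3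
    have hpow : ∀ n : ℕ, ‖h z₀‖ ^ n ≤ C * m ^ n := by
      intro n
      have := hC (fun z => h z ^ n) (M ^ n) (m ^ n) (hh.pow n)
        (fun z hz => by rw [norm_pow]; exact pow_le_pow_left₀ (norm_nonneg _) (hM z hz) n)
        (fun z hz h3 => by rw [norm_pow]; exact pow_le_pow_left₀ (norm_nonneg _) (hm z hz h3) n)
        (pow_nonneg hm0 n)
      rwa [norm_pow] at this
    by_contra hcon
    push Not at hcon
    rcases eq_or_lt_of_le hm0 with h0 | h0
    · have := hpow 1
      rw [← h0, pow_one, pow_one, mul_zero] at this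
      linarith
    · have h1 : 1 < ‖h z₀‖ / m := (one_lt_div h0).2 hcon
      obtain ⟨n, hn⟩ := pow_unbounded_of_one_lt C h1
      rw [div_pow, lt_div_iff₀ (pow_pos h0 n)] at hn
      exact absurd (hpow n) (not_le.2 hn)
  · exact hm z₀ hz₀ h3

end Dat

end Pool.Agent.MP83fe1a
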