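import Mathlib

set_option autoImplicit false

open Polynomial Set

namespace Pool.Agent.MP83fe1a

/-- Numerators and denominators of the iterated maps `w ↦ w - ε/(w-g)`. -/
noncomputable def AB (g ε : ℕ → ℝ) : ℕ → ℂ[X] × ℂ[X]
  | 0 => (X, 1)
  | n + 1 =>
    ((AB g ε n).1 * ((AB g ε n).1 - C (g n : ℂ) * (AB g ε n).2) - C (ε n : ℂ) * (AB g ε n).2 ^ 2,
      (AB g ε n).2 * ((AB g ε n).1 - C (g n : ℂ) * (AB g ε n).2))

/-- numerator at a point -/
noncomputable def nu (g ε : ℕ → ℝ) (n : ℕ) (z : ℂ) : ℂ := (AB g ε n).1.eval z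
/-- denominator at a point -/
noncomputable def de (g ε : ℕ → ℝ) (n : ℕ) (z : ℂ) : ℂ := (AB g ε n).2.eval z
/-- the `n`th iterate -/
noncomputable def F (g ε : ℕ → ℝ) (n : ℕ) (z : ℂ) : ℂ := nu g ε n z / de g ε n z

variable {g ε : ℕ → ℝ}

theorem nu_zero (z : ℂ) : nu g ε 0 z = z := by simp [nu, AB]
theorem de_zero (z : ℂ) : de g ε 0 z = 1 := by simp [de, AB]
theorem F_zero (z : ℂ) : F g ε 0 z = z := by simp [F, nu_zero, de_zero]

theorem nu_succ (n : ℕ) (z : ℂ) : nu g ε (n + 1) z =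
    nu g ε n z * (nu g ε n z - g n * de g ε n z) - ε n * de g ε n z ^ 2 := by
  simp [nu, de, AB]

theorem de_succ (n : ℕ) (z : ℂ) : de g ε (n + 1) z =
    de g ε n z * (nu g ε n z - g n * de g ε n z) := by
  simp [nu, de, AB]

theorem nu_sub_eq {n : ℕ} {z : ℂ} (h : de g ε n z ≠ 0) (c : ℂ) :
    nu g ε n z - c * de g ε n z = de g ε n z * (F g ε n z - c) := by
  rw [F]; field_simp

theorem de_succ_ne {n : ℕ} {z : ℂ} :
    de g ε (n + 1) z ≠ 0 ↔ de g ε n z ≠ 0 ∧ F g ε n z ≠ g n := by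
  rw [de_succ]
  constructor
  · intro h
    have h1 : de g ε n z ≠ 0 := left_ne_zero_of_mul h
    refine ⟨h1, ?_⟩
    have h2 := right_ne_zero_of_mul h
    rw [nu_sub_eq h1] at h2
    have h3 := right_ne_zero_of_mul h2
    exact sub_ne_zero.1 h3
  · rintro ⟨h1, h2⟩
    rw [nu_sub_eq h1]
    exact mul_ne_zero h1 (mul_ne_zero h1 (sub_ne_zero.2 h2))

theorem de_ne_of_le {m n : ℕ} (hmn : m ≤ n) {z : ℂ} (h : de g ε n z ≠ 0) : de g ε m z ≠ 0 := by
  induction n, hmn using Nat.le_induction with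
  | base => exact h
  | succ n hn ih => exact ih (de_succ_ne.1 h).1

theorem F_succ {n : ℕ} {z : ℂ} (h : de g ε (n + 1) z ≠ 0) :
    F g ε (n + 1) z = F g ε n z - ε n / (F g ε n z - g n) := by
  obtain ⟨h1, h2⟩ := de_succ_ne.1 h
  have h3 : F g ε n z - g n ≠ 0 := sub_ne_zero.2 h2
  have h4 : nu g ε n z = de g ε n z * F g ε n z := by rw [F]; field_simp
  rw [F, nu_succ, de_succ, nu_sub_eq h1, h4]
  field_simp

/-- numerator and denominator have no common zero -/
theorem nu_ne_zero (hε : ∀ n, 0 < ε n) {n : ℕ} {z : ℂ} (h : de g ε n z = 0) : nu g ε n z ≠ 0 := by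
  induction n with
  | zero => rw [de_zero] at h; exact absurd h one_ne_zero
  | succ n ih =>
    rw [nu_succ]
    by_cases h1 : de g ε n z = 0
    · rw [h1]
      simpa using ih h1
    · rw [de_succ] at h
      have h2 := (mul_eq_zero.1 h).resolve_left h1
      rw [h2, mul_zero, zero_sub, neg_ne_zero]
      have : (ε n : ℂ) ≠ 0 := by exact_mod_cast (hε n).ne'
      exact mul_ne_zero this (pow_ne_zero 2 h1)

theorem F_eq_of_nu_sub {n : ℕ} {z : ℂ} (hε : ∀ n, 0 < ε n) {c : ℂ}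
    (h : nu g ε n z - c * de g ε n z = 0) : de g ε n z ≠ 0 ∧ F g ε n z = c := by
  have h1 : de g ε n z ≠ 0 := by
    intro h0
    rw [h0, mul_zero, sub_zero] at h
    exact nu_ne_zero hε h0 h
  refine ⟨h1, ?_⟩
  rw [nu_sub_eq h1] at h
  exact sub_eq_zero.1 ((mul_eq_zero.1 h).resolve_left h1)

/-- imaginary part of one step -/
theorem im_step {w : ℂ} {e c : ℝ} : (w - e / (w - c)).im =
    w.im * (1 + e / Complex.normSq (w - c)) := by
  have h1 : (w - (c : ℂ)).im = w.im := by simp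
  have : ((e : ℂ) / (w - c)).im = - (e * w.im / Complex.normSq (w - c)) := by
    rw [Complex.div_im]
    simp
  rw [Complex.sub_im, this]
  ring

theorem im_F (hε : ∀ n, 0 < ε n) {z : ℂ} (hz : z.im ≠ 0) (n : ℕ) :
    de g ε n z ≠ 0 ∧ z.im ^ 2 ≤ z.im * (F g ε n z).im := by
  induction n with
  | zero => rw [de_zero, F_zero]; exact ⟨one_ne_zero, by rw [sq]⟩
  | succ n ih =>
    obtain ⟨h1, h2⟩ := ih
    have hpos : 0 < z.im ^ 2 := by positivity
    have him : (F g ε n z).im ≠ 0 := by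
      intro h0; rw [h0, mul_zero] at h2; linarith
    have hne : F g ε n z ≠ g n := by
      intro h0; rw [h0] at him; simp at him
    have h3 : de g ε (n + 1) z ≠ 0 := de_succ_ne.2 ⟨h1, hne⟩
    refine ⟨h3, ?_⟩
    rw [F_succ h3, im_step]
    have h4 : 0 ≤ ε n / Complex.normSq (F g ε n z - g n) :=
      div_nonneg (hε n).le (Complex.normSq_nonneg _)
    have h5 : 0 ≤ z.im * (F g ε n z).im := by linarith
    nlinarith [mul_nonneg h5 h4]

theorem abs_im_le (hε : ∀ n, 0 < ε n) {z : ℂ} (hz : z.im ≠ 0) (n : ℕ) :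
    |z.im| ≤ |(F g ε n z).im| := by
  have h := (im_F hε hz n (g := g)).2
  have h1 : |z.im| * |z.im| ≤ |z.im| * |(F g ε n z).im| := by
    calc |z.im| * |z.im| = z.im ^ 2 := by rw [← abs_mul, ← sq, abs_of_nonneg (sq_nonneg _)]
      _ ≤ z.im * (F g ε n z).im := h
      _ ≤ |z.im * (F g ε n z).im| := le_abs_self _
      _ = _ := abs_mul _ _
  exact le_of_mul_le_mul_left h1 (abs_pos.2 hz)

/-- The key half-plane estimate for the polynomials. -/
theorem im_mul_le (hε : ∀ n, 0 < ε n) {z : ℂ} (hz : z.im ≠ 0) (n : ℕ) (c : ℝ) :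
    nu g ε n z - c * de g ε n z ≠ 0 ∧
      |z.im| * ‖de g ε n z‖ ≤ ‖nu g ε n z - c * de g ε n z‖ := by
  have h1 := (im_F hε hz n (g := g)).1
  have h2 := abs_im_le hε hz n (g := g)
  have h3 : |z.im| ≤ ‖F g ε n z - c‖ := by
    refine h2.trans ?_
    have := Complex.abs_im_le_norm (F g ε n z - c)
    simpa using this
  rw [nu_sub_eq h1]
  refine ⟨mul_ne_zero h1 ?_, ?_⟩
  · rw [← norm_pos_iff]
    exact (abs_pos.2 hz).trans_le h3
  · rw [norm_mul, mul_comm]
    exact mul_le_mul_of_nonneg_left h3 (norm_nonneg _)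

/-- The max principle trick. -/
theorem norm_le_of_im {h : ℂ → ℂ} {z₀ : ℂ} {δ : ℝ} (hδ : 0 < δ)
    (hd : DifferentiableOn ℂ h (Metric.ball z₀ δ))
    (him : ∀ z, z.im ≠ 0 → |z.im| * ‖h z‖ ≤ 1) : ‖h z₀‖ ≤ 6 / δ := by
  by_cases hcase : δ / 4 ≤ |z₀.im|
  · have h1 : z₀.im ≠ 0 := by
      intro h0; rw [h0, abs_zero] at hcase; linarith
    have h2 := him z₀ h1
    have h3 : (δ / 4) * ‖h z₀‖ ≤ 1 := (mul_le_mul_of_nonneg_right hcase (norm_nonneg _)).trans h2
    rw [le_div_iff₀ hδ]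
    nlinarith [norm_nonneg (h z₀)]
  · push Not at hcase
    set x : ℂ := (z₀.re : ℂ) with hx
    set ρ : ℝ := δ / 2 with hρ
    have hρ0 : 0 < ρ := by positivity
    have hdist : ‖z₀ - x‖ < δ / 4 := by
      have : z₀ - x = (z₀.im : ℂ) * Complex.I := by
        apply Complex.ext <;> simp [hx]
      rw [this, norm_mul, Complex.norm_I, mul_one, Complex.norm_real, Real.norm_eq_abs]
      exact hcase
    have hsub : Metric.closedBall x ρ ⊆ Metric.ball z₀ δ := by
      intro w hw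
      rw [Metric.mem_closedBall] at hw
      rw [Metric.mem_ball]
      calc dist w z₀ ≤ dist w x + dist x z₀ := dist_triangle _ _ _
        _ < ρ + δ / 4 := by
            rw [dist_comm x z₀, dist_eq_norm z₀ x]
            exact add_lt_add_of_le_of_lt hw hdist
        _ ≤ δ := by rw [hρ]; linarith
    have hmax := Complex.norm_le_of_forall_mem_frontier_norm_le
      (f := fun z => h z * ((z - x) ^ 2 - (ρ : ℂ) ^ 2)) (U := Metric.ball x ρ) (C := 2 * ρ) (z := z₀)
      Metric.isBounded_ball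
      (DifferentiableOn.diffContOnCl_ball (U := Metric.ball z₀ δ)
        (hd.mul (by fun_prop)) hsub) ?_ ?_
    · -- conclusion
      rw [norm_mul] at hmax
      have h1 : 3 / 4 * ρ ^ 2 ≤ ‖(z₀ - x) ^ 2 - (ρ : ℂ) ^ 2‖ := by
        have h2 : ‖(ρ : ℂ) ^ 2‖ = ρ ^ 2 := by
          rw [norm_pow, Complex.norm_real, Real.norm_eq_abs, abs_of_pos hρ0]
        have h3 : ‖(z₀ - x) ^ 2‖ ≤ (δ / 4) ^ 2 := by
          rw [norm_pow]; exact pow_le_pow_left₀ (norm_nonneg _) hdist.le 2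
        have h4 := norm_sub_norm_le ((ρ : ℂ) ^ 2) ((z₀ - x) ^ 2)
        rw [norm_sub_rev] at h4
        rw [h2] at h4
        have h5 : (δ / 4) ^ 2 = ρ ^ 2 / 4 := by rw [hρ]; ring
        linarith
      have h2 : ‖h z₀‖ * (3 / 4 * ρ ^ 2) ≤ 2 * ρ :=
        (mul_le_mul_of_nonneg_left h1 (norm_nonneg _)).trans hmax
      rw [le_div_iff₀ hδ]
      have h3 : δ = 2 * ρ := by rw [hρ]; ring
      rw [h3]
      have h4 : ρ * (‖h z₀‖ * (3 / 4 * ρ)) ≤ ρ * 2 := by nlinarith
      have h5 := le_of_mul_le_mul_left h4 hρ0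
      nlinarith
    · intro z hz
      rw [frontier_ball x hρ0.ne', mem_sphere_iff_norm] at hz
      rw [norm_mul]
      set a : ℝ := (z - x).re with ha
      set b : ℝ := (z - x).im with hb
      have hbz : b = z.im := by simp [hb, hx]
      have hab : a ^ 2 + b ^ 2 = ρ ^ 2 := by
        rw [← hz, Complex.sq_norm, Complex.normSq_apply]; ring
      have hnorm : ‖(z - x) ^ 2 - (ρ : ℂ) ^ 2‖ = 2 * ρ * |z.im| := by
        have hzx : z - x = ⟨a, b⟩ := rfl
        have h1 : (z - x) ^ 2 - (ρ : ℂ) ^ 2 = ⟨-2 * b ^ 2, 2 * a * b⟩ := by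
          rw [hzx]
          clear_value a b
          apply Complex.ext
          · simp [sq]
            linarith
          · simp [sq]
            ring
        rw [h1, ← hbz]
        have h2 : ‖(⟨-2 * b ^ 2, 2 * a * b⟩ : ℂ)‖ ^ 2 = (2 * ρ * |b|) ^ 2 := by
          rw [Complex.sq_norm, Complex.normSq_mk, mul_pow, sq_abs]
          linear_combination 4 * b ^ 2 * hab
        exact (pow_left_inj₀ (norm_nonneg _) (by positivity) two_ne_zero).1 h2
      rw [hnorm]
      by_cases h0 : z.im = 0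
      · rw [h0, abs_zero, mul_zero, mul_zero]; positivity
      · have := him z h0
        calc ‖h z‖ * (2 * ρ * |z.im|) = 2 * ρ * (|z.im| * ‖h z‖) := by ring
          _ ≤ 2 * ρ * 1 := mul_le_mul_of_nonneg_left this (by positivity)
          _ = 2 * ρ := mul_one _
    · apply subset_closure
      rw [Metric.mem_ball, dist_eq_norm]
      exact hdist.trans (by rw [hρ]; linarith)

theorem diff_nu (n : ℕ) : Differentiable ℂ (nu g ε n) := Polynomial.differentiable _
theorem diff_de (n : ℕ) : Differentiable ℂ (de g ε n) := Polynomial.differentiable _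

/-- If `F_n ≠ c` near `z₀` then `|F_n(z₀) - c|` is bounded below. -/
theorem de_le (hε : ∀ n, 0 < ε n) {n : ℕ} {c : ℝ} {z₀ : ℂ} {δ : ℝ} (hδ : 0 < δ)
    (h : ∀ z ∈ Metric.ball z₀ δ, nu g ε n z - c * de g ε n z ≠ 0) :
    ‖de g ε n z₀ / (nu g ε n z₀ - c * de g ε n z₀)‖ ≤ 6 / δ := by
  refine norm_le_of_im (h := fun z => de g ε n z / (nu g ε n z - c * de g ε n z)) hδ ?_ ?_
  · refine DifferentiableOn.div (diff_de n).differentiableOn ?_ h
    exact ((diff_nu n).sub ((diff_de n).const_mul _)).differentiableOn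
  · intro z hz
    obtain ⟨h1, h2⟩ := im_mul_le hε hz n c (g := g)
    rw [norm_div, ← mul_div_assoc, div_le_one (norm_pos_iff.2 h1)]
    exact h2

/-- existence of nearby solutions of `F_n = c` -/
theorem exists_root_near (hε : ∀ n, 0 < ε n) {n : ℕ} {c : ℝ} {z₀ : ℂ} {δ : ℝ} (hδ : 0 < δ)
    (hd : de g ε n z₀ ≠ 0) (h : ‖F g ε n z₀ - c‖ < δ / 6) :
    ∃ p ∈ Metric.ball z₀ δ, nu g ε n p - c * de g ε n p = 0 := by
  by_contra hcon
  push Not at hcon
  have h1 := de_le hε hδ hcon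
  have h2 : nu g ε n z₀ - c * de g ε n z₀ ≠ 0 := hcon z₀ (Metric.mem_ball_self hδ)
  rw [nu_sub_eq hd] at h1 h2
  have h3 : F g ε n z₀ - c ≠ 0 := right_ne_zero_of_mul h2
  have h4 : de g ε n z₀ / (de g ε n z₀ * (F g ε n z₀ - c)) = (F g ε n z₀ - c)⁻¹ := by
    field_simp
  rw [h4, norm_inv, inv_le_comm₀ (norm_pos_iff.2 h3) (by positivity)] at h1
  have h5 : (6 / δ)⁻¹ = δ / 6 := by rw [inv_div]
  rw [h5] at h1
  linarith

/-! ### Degrees -/

theorem degree_C_mul_le' (c : ℂ) (p : ℂ[X]) : (C c * p).degree ≤ p.degree := by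
  rw [degree_mul]
  calc (C c).degree + p.degree ≤ 0 + p.degree := by gcongr; exact degree_C_le
    _ = p.degree := zero_add _

theorem AB_degree (n : ℕ) : ((AB g ε n).1).Monic ∧ ((AB g ε n).1).natDegree = 2 ^ n ∧
    ((AB g ε n).2).degree < (2 ^ n : ℕ) := by
  induction n with
  | zero =>
    refine ⟨?_, ?_, ?_⟩
    · simp only [AB]; exact monic_X
    · simp [AB]
    · simp only [AB, pow_zero, Nat.cast_one]
      rw [degree_one]
      exact_mod_cast zero_lt_one
  | succ n ih =>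
    obtain ⟨h1, h2, h3⟩ := ih
    set A := (AB g ε n).1 with hA
    set B := (AB g ε n).2 with hB
    have hAdeg : A.degree = (2 ^ n : ℕ) := by
      rw [degree_eq_natDegree h1.ne_zero, h2]
    have hcB : (C (g n : ℂ) * B).degree < A.degree := by
      rw [hAdeg]
      exact (degree_C_mul_le' _ _).trans_lt h3
    have hQ : (A - C (g n : ℂ) * B).Monic := h1.sub_of_left hcB
    have hQd : (A - C (g n : ℂ) * B).degree = (2 ^ n : ℕ) := by
      rw [degree_sub_eq_left_of_degree_lt hcB, hAdeg]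
    have hAQ : (A * (A - C (g n : ℂ) * B)).Monic := h1.mul hQ
    have hAQd : (A * (A - C (g n : ℂ) * B)).degree = (2 ^ (n + 1) : ℕ) := by
      rw [degree_mul, hAdeg, hQd, pow_succ, mul_two]
      push_cast
      ring
    have hB2 : (C (ε n : ℂ) * B ^ 2).degree < (A * (A - C (g n : ℂ) * B)).degree := by
      rw [hAQd]
      refine (degree_C_mul_le' _ _).trans_lt ?_
      rw [pow_two, degree_mul]
      have h4 : B.degree + B.degree < ((2 ^ n : ℕ) : WithBot ℕ) + ((2 ^ n : ℕ) : WithBot ℕ) := by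
        by_cases hB0 : B = 0
        · rw [hB0]; simp; exact_mod_cast WithBot.bot_lt_coe _
        · rw [degree_eq_natDegree hB0] at h3 ⊢
          have : B.natDegree < 2 ^ n := by exact_mod_cast h3
          exact_mod_cast (by omega : B.natDegree + B.natDegree < 2 ^ n + 2 ^ n)
      refine h4.trans_le ?_
      rw [pow_succ, mul_two]
      push_cast
      exact le_refl _
    refine ⟨?_, ?_, ?_⟩
    · show (A * (A - C (g n : ℂ) * B) - C (ε n : ℂ) * B ^ 2).Monic
      exact hAQ.sub_of_left hB2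
    · show (A * (A - C (g n : ℂ) * B) - C (ε n : ℂ) * B ^ 2).natDegree = 2 ^ (n + 1)
      apply natDegree_eq_of_degree_eq_some
      rw [degree_sub_eq_left_of_degree_lt hB2, hAQd]
    · show (B * (A - C (g n : ℂ) * B)).degree < (2 ^ (n + 1) : ℕ)
      rw [degree_mul, hQd]
      by_cases hB0 : B = 0
      · rw [hB0]; simp; exact_mod_cast WithBot.bot_lt_coe _
      · rw [degree_eq_natDegree hB0] at h3 ⊢
        have : B.natDegree < 2 ^ n := by exact_mod_cast h3
        have h5 : B.natDegree + 2 ^ n < 2 ^ (n + 1) := by rw [pow_succ]; omega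
        exact_mod_cast h5

/-- the polynomial `A_n - c B_n` -/
noncomputable def Q (g ε : ℕ → ℝ) (n : ℕ) (c : ℝ) : ℂ[X] := (AB g ε n).1 - C (c : ℂ) * (AB g ε n).2

theorem Q_eval (n : ℕ) (c : ℝ) (z : ℂ) : (Q g ε n c).eval z = nu g ε n z - c * de g ε n z := by
  simp [Q, nu, de]

theorem Q_deg (n : ℕ) (c : ℝ) : (Q g ε n c).Monic ∧ (Q g ε n c).natDegree = 2 ^ n := by
  obtain ⟨h1, h2, h3⟩ := AB_degree n (g := g) (ε := ε)
  have hAdeg : ((AB g ε n).1).degree = (2 ^ n : ℕ) := by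
    rw [degree_eq_natDegree h1.ne_zero, h2]
  have hcB : (C (c : ℂ) * (AB g ε n).2).degree < ((AB g ε n).1).degree := by
    rw [hAdeg]
    exact (degree_C_mul_le' _ _).trans_lt h3
  refine ⟨h1.sub_of_left hcB, ?_⟩
  apply natDegree_eq_of_degree_eq_some
  rw [Q, degree_sub_eq_left_of_degree_lt hcB, hAdeg]

/-- the finite set of solutions of `F_n = c` -/
noncomputable def sols (g ε : ℕ → ℝ) (n : ℕ) (c : ℝ) : Finset ℂ := (Q g ε n c).roots.toFinset

theorem mem_sols {n : ℕ} {c : ℝ} {z : ℂ} :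
    z ∈ sols g ε n c ↔ nu g ε n z - c * de g ε n z = 0 := by
  rw [sols, Multiset.mem_toFinset, mem_roots (Q_deg n c).1.ne_zero, IsRoot.def, Q_eval]

theorem card_sols (n : ℕ) (c : ℝ) : (sols g ε n c).card ≤ 2 ^ n := by
  classical
  calc (sols g ε n c).card ≤ Multiset.card (Q g ε n c).roots := Multiset.toFinset_card_le _
    _ ≤ (Q g ε n c).natDegree := card_roots' _
    _ = 2 ^ n := (Q_deg n c).2

theorem sols_nonempty (n : ℕ) (c : ℝ) : (sols g ε n c).Nonempty := by
  obtain ⟨z, hz⟩ := IsAlgClosed.exists_root (Q g ε n c) (by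
    rw [degree_eq_natDegree (Q_deg n c).1.ne_zero, (Q_deg n c).2]
    have : 0 < 2 ^ n := by positivity
    exact_mod_cast this.ne')
  refine ⟨z, ?_⟩
  rw [mem_sols, ← Q_eval]
  exact hz

end Pool.Agent.MP83fe1a
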